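import Pool.Agent.Q61.EW.AVa

/-! Job AV of the project EW of helper80. -/

set_option autoImplicit false

namespace Pool.Agent.Q61.EW

open Filter Topology MeasureTheory
open Pool.Agent.Q80.EW

theorem normSq_one_sub (z : ℂ) : ‖1 - z‖ ^ 2 = 1 - (2 * z.re - ‖z‖ ^ 2) := by
  rw [Complex.sq_norm, Complex.sq_norm, Complex.normSq_apply, Complex.normSq_apply]
  simp only [Complex.sub_re, Complex.one_re, Complex.sub_im, Complex.one_im]
  ring

theorem large_factor {p : ℕ} (hp : 8 ≤ p) (h : ℝ) :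
    (1 - 1 / (p : ℝ) ^ 2) / ‖1 - (p : ℂ) ^ (-((1 : ℂ) + (h : ℂ) * Complex.I))‖ ^ 2 ≤
      Real.exp (2 * ((p : ℂ) ^ (-((1 : ℂ) + (h : ℂ) * Complex.I))).re +
        18 * (1 / (p : ℝ) ^ 2)) := by
  have hp8 : (8 : ℝ) ≤ p := by exact_mod_cast hp
  have hz := norm_fC h (n := p) (by omega)
  generalize (p : ℂ) ^ (-((1 : ℂ) + (h : ℂ) * Complex.I)) = z at hz ⊢
  obtain ⟨q, hq⟩ : ∃ q, q = 1 / (p : ℝ) := ⟨_, rfl⟩
  have hq2 : 1 / (p : ℝ) ^ 2 = q ^ 2 := by rw [hq, one_div_pow]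
  have hq0 : 0 < q := by rw [hq]; positivity
  have hq8 : q ≤ 1 / 8 := by
    rw [hq]
    exact one_div_le_one_div_of_le (by norm_num) hp8
  rw [normSq_one_sub, hq2, hz, ← hq]
  have hre : |z.re| ≤ q := by
    rw [hq, ← hz]
    exact Complex.abs_re_le_norm z
  have hre1 := (abs_le.1 hre).1
  have hre2 := (abs_le.1 hre).2
  obtain ⟨u, hu⟩ : ∃ u, u = 2 * z.re - q ^ 2 := ⟨_, rfl⟩
  rw [← hu]
  have hu1 : u ≤ 1 / 4 := by
    rw [hu]
    nlinarith
  have hu2 : |u| ≤ 3 * q := by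
    rw [hu, abs_le]
    constructor <;> nlinarith
  have hu3 : u ^ 2 ≤ 9 * q ^ 2 := by
    have := pow_le_pow_left₀ (abs_nonneg u) hu2 2
    rw [sq_abs] at this
    linarith
  have h1 : (1 - q ^ 2) / (1 - u) ≤ (1 - u)⁻¹ := by
    rw [div_eq_mul_inv]
    refine mul_le_of_le_one_left (inv_nonneg.2 (by linarith)) ?_
    nlinarith
  refine h1.trans ((inv_le_exp (by linarith)).trans (Real.exp_le_exp.2 ?_))
  rw [div_le_iff₀ (by linarith)]
  have h2 : u = 2 * z.re - q ^ 2 := hu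
  have h3 : 2 * z.re = u + q ^ 2 := by linarith
  rw [h3]
  nlinarith [sq_nonneg q]

/-- the product over the large primes -/
theorem large_prod {W N : ℕ} (hW : 8 ≤ W) (h : ℝ) {δ : ℝ}
    (hδ : ‖∑ p ∈ (Finset.Ico W N).filter Nat.Prime,
      (p : ℂ) ^ (-((1 : ℂ) + (h : ℂ) * Complex.I))‖ ≤ δ) :
    ∏ p ∈ (Finset.Ico W N).filter Nat.Prime,
      (1 - 1 / (p : ℝ) ^ 2) / ‖1 - (p : ℂ) ^ (-((1 : ℂ) + (h : ℂ) * Complex.I))‖ ^ 2 ≤
      Real.exp (2 * δ + 36 / W) := by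
  have hW0 : (0 : ℝ) < W := by
    have : 0 < W := by omega
    exact_mod_cast this
  have h1 : ∀ p ∈ (Finset.Ico W N).filter Nat.Prime,
      (1 - 1 / (p : ℝ) ^ 2) / ‖1 - (p : ℂ) ^ (-((1 : ℂ) + (h : ℂ) * Complex.I))‖ ^ 2 ≤
      Real.exp (2 * ((p : ℂ) ^ (-((1 : ℂ) + (h : ℂ) * Complex.I))).re +
        18 * (1 / (p : ℝ) ^ 2)) := by
    intro p hp
    exact large_factor (hW.trans (Finset.mem_Ico.1 (Finset.mem_filter.1 hp).1).1) h
  have h0 : ∀ p ∈ (Finset.Ico W N).filter Nat.Prime,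
      0 ≤ (1 - 1 / (p : ℝ) ^ 2) / ‖1 - (p : ℂ) ^ (-((1 : ℂ) + (h : ℂ) * Complex.I))‖ ^ 2 := by
    intro p hp
    have hp1 : (1 : ℝ) ≤ p := by
      exact_mod_cast (Finset.mem_filter.1 hp).2.one_lt.le
    refine div_nonneg ?_ (sq_nonneg _)
    rw [sub_nonneg]
    exact (div_le_one (by positivity)).2 (one_le_pow₀ hp1)
  refine (Finset.prod_le_prod h0 h1).trans ?_
  rw [← Real.exp_sum]
  refine Real.exp_le_exp.2 ?_
  rw [Finset.sum_add_distrib, ← Finset.mul_sum, ← Finset.mul_sum, ← Complex.re_sum]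
  refine add_le_add ?_ ?_
  · exact mul_le_mul_of_nonneg_left ((Complex.re_le_norm _).trans hδ) two_pos.le
  · have h2 : ∑ p ∈ (Finset.Ico W N).filter Nat.Prime, 1 / (p : ℝ) ^ 2 ≤ 2 / (W : ℝ) := by
      have h3 := sum_Ioo_inv_sq_le (α := ℝ) (W - 1) N
      have h4 : ((W - 1 : ℕ) : ℝ) + 1 = W := by
        rw [Nat.cast_sub (by omega : 1 ≤ W)]
        push_cast
        ring
      rw [h4] at h3
      refine le_trans ?_ h3
      refine (Finset.sum_le_sum_of_subset_of_nonneg (Finset.filter_subset _ _)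
        fun _ _ _ => by positivity).trans ?_
      refine le_of_eq (Finset.sum_congr ?_ fun p _ => one_div _)
      ext p
      rw [Finset.mem_Ico, Finset.mem_Ioo]
      omega
    calc 18 * ∑ p ∈ (Finset.Ico W N).filter Nat.Prime, 1 / (p : ℝ) ^ 2 ≤ 18 * (2 / (W : ℝ)) :=
          mul_le_mul_of_nonneg_left h2 (by norm_num)
      _ = 36 / (W : ℝ) := by ring

theorem prod_split (f : ℕ → ℝ) {W N : ℕ} (h : W ≤ N) :
    ∏ p ∈ Nat.primesBelow N, f p =
      (∏ p ∈ Nat.primesBelow W, f p) * ∏ p ∈ (Finset.Ico W N).filter Nat.Prime, f p := by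
  unfold Nat.primesBelow
  rw [Finset.prod_filter, Finset.prod_filter, Finset.prod_filter,
    Finset.prod_range_mul_prod_Ico _ h]

/-- the integral inequality -/
theorem core {W N M : ℕ} (hW : 8 ≤ W) (hWN : W ≤ N) {b E x θ δ : ℝ} (hb : 1 ≤ b)
    (hWb : ∀ p : ℕ, p < W → (p : ℝ) ≤ Real.exp b) (hE : 0 < E) (hM : E ≤ (M : ℝ) + 1)
    (hx : 1 ≤ x) (hθ : 0 < θ)
    (hδ : ∀ h ∈ Set.Icc 1 x, ‖∑ p ∈ (Finset.Ico W N).filter Nat.Prime,
      (p : ℂ) ^ (-((1 : ℂ) + (h : ℂ) * Complex.I))‖ ≤ δ)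
    (hδθ : Real.exp (2 * δ + 36 / W) ≤ 1 + θ) :
    ∫ h in (1 : ℝ)..x, (∏ p ∈ Nat.primesBelow N,
      (1 - 1 / (p : ℝ) ^ 2) / ‖1 - (p : ℂ) ^ (-((1 : ℂ) + (h : ℂ) * Complex.I))‖ ^ 2) ≤
      (1 + θ) * ((1 + θ) * (x + 6 * (1 + Real.log M) *
        Real.exp (2 * ∑ p ∈ Nat.primesBelow W, (1 : ℝ) / p)) +
        (1 + 1 / θ) * (E ^ (-(1 / (2 * b))) *
          Real.exp (10 * ∑ p ∈ Nat.primesBelow W, (1 : ℝ) / p)) ^ 2 * x) := by
  obtain ⟨τ, hτ⟩ : ∃ τ, τ = E ^ (-(1 / (2 * b))) *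
    Real.exp (10 * ∑ p ∈ Nat.primesBelow W, (1 : ℝ) / p) := ⟨_, rfl⟩
  rw [← hτ]
  have hτ0 : 0 ≤ τ := by rw [hτ]; positivity
  obtain ⟨A, hA⟩ : ∃ A, A = ∏ p ∈ Nat.primesBelow W, (1 - 1 / (p : ℝ) ^ 2) := ⟨_, rfl⟩
  have hAp : ∀ p ∈ Nat.primesBelow W, 0 < 1 - 1 / (p : ℝ) ^ 2 ∧ 1 - 1 / (p : ℝ) ^ 2 ≤ 1 := by
    intro p hp
    have hp2 : (2 : ℝ) ≤ p := by exact_mod_cast (Nat.prime_of_mem_primesBelow hp).two_le
    have h1 : 1 / (p : ℝ) ^ 2 < 1 := (div_lt_one (by positivity)).2 (one_lt_pow₀ (by linarith)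
      two_ne_zero)
    exact ⟨by linarith, by linarith [show 0 ≤ 1 / (p : ℝ) ^ 2 by positivity]⟩
  have hA0 : 0 < A := by
    rw [hA]
    exact Finset.prod_pos fun p hp => (hAp p hp).1
  have hA1 : A ≤ 1 := by
    rw [hA]
    exact Finset.prod_le_one (fun p hp => (hAp p hp).1.le) fun p hp => (hAp p hp).2
  have hAinv : ∏ p ∈ Nat.primesBelow W, (1 - 1 / (p : ℝ) ^ 2)⁻¹ = A⁻¹ := by
    rw [hA, Finset.prod_inv_distrib]
  have hne : ∀ p ∈ Nat.primesBelow N, ∀ h : ℝ,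
      1 - (p : ℂ) ^ (-((1 : ℂ) + (h : ℂ) * Complex.I)) ≠ 0 := by
    intro p hp h h0
    have hp2 : (2 : ℝ) ≤ p := by exact_mod_cast (Nat.prime_of_mem_primesBelow hp).two_le
    have h1 := norm_fC h (n := p) (Nat.prime_of_mem_primesBelow hp).ne_zero
    rw [← sub_eq_zero.1 h0, norm_one, eq_div_iff (by linarith)] at h1
    linarith
  -- pointwise bound
  have hpt : ∀ h ∈ Set.Icc 1 x, (∏ p ∈ Nat.primesBelow N,
      (1 - 1 / (p : ℝ) ^ 2) / ‖1 - (p : ℂ) ^ (-((1 : ℂ) + (h : ℂ) * Complex.I))‖ ^ 2) ≤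
      (1 + θ) * (A * ((1 + θ) * ‖SM W M h‖ ^ 2 + (1 + 1 / θ) * τ ^ 2)) := by
    intro h hh
    rw [prod_split _ hWN, mul_comm]
    have h1 := (large_prod hW h (hδ h hh)).trans hδθ
    have h2 : (∏ p ∈ Nat.primesBelow W,
        (1 - 1 / (p : ℝ) ^ 2) / ‖1 - (p : ℂ) ^ (-((1 : ℂ) + (h : ℂ) * Complex.I))‖ ^ 2) =
        A * ‖∏ p ∈ Nat.primesBelow W,
          (1 - (p : ℂ) ^ (-((1 : ℂ) + (h : ℂ) * Complex.I)))⁻¹‖ ^ 2 := by
      rw [hA, norm_prod, ← Finset.prod_pow, ← Finset.prod_mul_distrib]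
      refine Finset.prod_congr rfl fun p _ => ?_
      rw [norm_inv, inv_pow, div_eq_mul_inv]
    have h3 := trunc W M h hb hWb hE hM
    rw [← hτ] at h3
    obtain ⟨F, hF⟩ : ∃ F : ℂ, F = ∏ p ∈ Nat.primesBelow W,
      (1 - (p : ℂ) ^ (-((1 : ℂ) + (h : ℂ) * Complex.I)))⁻¹ := ⟨_, rfl⟩
    rw [← hF] at h2 h3
    have h4 : ‖F‖ ^ 2 ≤ (1 + θ) * ‖SM W M h‖ ^ 2 + (1 + 1 / θ) * τ ^ 2 := by
      have e1 : ‖F‖ ≤ ‖SM W M h‖ + τ := by
        have := norm_add_le (F - SM W M h) (SM W M h)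
        rw [sub_add_cancel] at this
        linarith
      have e2 : ‖F‖ ^ 2 ≤ (‖SM W M h‖ + τ) ^ 2 := pow_le_pow_left₀ (norm_nonneg _) e1 2
      have e3 : (1 + θ) * ‖SM W M h‖ ^ 2 + (1 + 1 / θ) * τ ^ 2 - (‖SM W M h‖ + τ) ^ 2 =
          (θ * ‖SM W M h‖ - τ) ^ 2 / θ := by
        field_simp
        ring
      have e4 : 0 ≤ (θ * ‖SM W M h‖ - τ) ^ 2 / θ := by positivity
      linarith
    rw [h2]
    refine mul_le_mul h1 (mul_le_mul_of_nonneg_left h4 hA0.le) (by positivity) (by positivity)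
  -- continuity
  have hcont : Continuous fun h : ℝ => (∏ p ∈ Nat.primesBelow N,
      (1 - 1 / (p : ℝ) ^ 2) / ‖1 - (p : ℂ) ^ (-((1 : ℂ) + (h : ℂ) * Complex.I))‖ ^ 2) := by
    refine continuous_finsetProd _ fun p hp => ?_
    refine Continuous.div continuous_const ?_ ?_
    · refine (continuous_norm.comp (continuous_const.sub ?_)).pow 2
      refine Continuous.const_cpow (by fun_prop) ?_
      left
      exact_mod_cast (Nat.prime_of_mem_primesBelow hp).ne_zero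
    · intro h
      exact pow_ne_zero _ (norm_ne_zero_iff.2 (hne p hp h))
  have hcontS : Continuous fun h : ℝ => SM W M h := by
    unfold SM
    refine continuous_finsetSum _ fun n _ => ?_
    by_cases hs : n ∈ Nat.smoothNumbers W
    · simp only [Set.indicator_of_mem hs]
      refine Continuous.const_cpow (by fun_prop) ?_
      left
      exact_mod_cast Nat.ne_zero_of_mem_smoothNumbers hs
    · simp only [Set.indicator_of_notMem hs]
      exact continuous_const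
  have hint : ∫ h in (1 : ℝ)..x, (∏ p ∈ Nat.primesBelow N,
      (1 - 1 / (p : ℝ) ^ 2) / ‖1 - (p : ℂ) ^ (-((1 : ℂ) + (h : ℂ) * Complex.I))‖ ^ 2) ≤
      ∫ h in (1 : ℝ)..x, ((1 + θ) * (A * ((1 + θ) * ‖SM W M h‖ ^ 2 + (1 + 1 / θ) * τ ^ 2))) := by
    refine intervalIntegral.integral_mono_on hx (hcont.intervalIntegrable _ _) ?_ hpt
    exact Continuous.intervalIntegrable (by fun_prop) _ _
  refine hint.trans ?_
  have e1 : ∫ h in (1 : ℝ)..x, ((1 + θ) * (A * ((1 + θ) * ‖SM W M h‖ ^ 2 +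
      (1 + 1 / θ) * τ ^ 2))) =
      (1 + θ) * (A * ((1 + θ) * (∫ h in (1 : ℝ)..x, ‖SM W M h‖ ^ 2) +
        (1 + 1 / θ) * τ ^ 2 * (x - 1))) := by
    rw [intervalIntegral.integral_const_mul, intervalIntegral.integral_const_mul,
      intervalIntegral.integral_add, intervalIntegral.integral_const_mul,
      intervalIntegral.integral_const]
    · rw [smul_eq_mul]
      ring
    · exact Continuous.intervalIntegrable (by fun_prop) _ _
    · exact Continuous.intervalIntegrable (by fun_prop) _ _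
  rw [e1]
  have e2 := SM_mean W M hx
  rw [hAinv] at e2
  refine mul_le_mul_of_nonneg_left ?_ (by positivity)
  have hlogM : 0 ≤ Real.log M := Real.log_natCast_nonneg M
  obtain ⟨Q, hQ⟩ : ∃ Q, Q = 6 * (1 + Real.log M) *
    Real.exp (2 * ∑ p ∈ Nat.primesBelow W, (1 : ℝ) / p) := ⟨_, rfl⟩
  have hQ0 : 0 ≤ Q := by rw [hQ]; positivity
  rw [← hQ] at e2 ⊢
  have e3 : A * ((1 + θ) * (∫ h in (1 : ℝ)..x, ‖SM W M h‖ ^ 2)) ≤ (1 + θ) * (x + Q) := by
    calc A * ((1 + θ) * (∫ h in (1 : ℝ)..x, ‖SM W M h‖ ^ 2)) ≤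
          A * ((1 + θ) * (x * A⁻¹ + Q)) :=
          mul_le_mul_of_nonneg_left (mul_le_mul_of_nonneg_left e2 (by positivity)) hA0.le
      _ = (1 + θ) * (x + A * Q) := by
          field_simp
      _ ≤ (1 + θ) * (x + Q) := by
          refine mul_le_mul_of_nonneg_left ?_ (by positivity)
          nlinarith
  have e4 : A * ((1 + 1 / θ) * τ ^ 2 * (x - 1)) ≤ (1 + 1 / θ) * τ ^ 2 * x := by
    have h5 : 0 ≤ (1 + 1 / θ) * τ ^ 2 := by positivity
    calc A * ((1 + 1 / θ) * τ ^ 2 * (x - 1)) ≤ 1 * ((1 + 1 / θ) * τ ^ 2 * (x - 1)) :=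
          mul_le_mul_of_nonneg_right hA1 (mul_nonneg h5 (by linarith))
      _ ≤ (1 + 1 / θ) * τ ^ 2 * x := by nlinarith
  rw [mul_add]
  linarith

theorem ev_exp (κ : ℝ) (hκ : 0 < κ) (C : ℝ) (k : ℕ) :
    ∀ᶠ y : ℝ in atTop, C * y ^ k ≤ Real.exp (κ * Real.sqrt y) := by
  have h1 : ∀ᶠ s : ℝ in atTop, C * s ^ (2 * k) ≤ Real.exp (κ * s) := by
    have h2 := (isLittleO_pow_exp_pos_mul_atTop (k := 2 * k) hκ)
    have h3 := h2.def (c := 1 / (|C| + 1)) (by positivity)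
    filter_upwards [h3, eventually_ge_atTop 0] with s hs hs0
    rw [Real.norm_of_nonneg (by positivity), Real.norm_of_nonneg (by positivity), one_div,
      inv_mul_eq_div, le_div_iff₀ (by positivity)] at hs
    calc C * s ^ (2 * k) ≤ (|C| + 1) * s ^ (2 * k) :=
          mul_le_mul_of_nonneg_right (by linarith [le_abs_self C]) (by positivity)
      _ = s ^ (2 * k) * (|C| + 1) := mul_comm _ _
      _ ≤ _ := hs
  have h4 := Real.tendsto_sqrt_atTop.eventually h1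
  filter_upwards [h4, eventually_ge_atTop 0] with y hy hy0
  rw [pow_mul, Real.sq_sqrt hy0] at hy
  exact hy

/-- JOB AV. -/
theorem t_AV (hPS : J_PS) (hM : J_MERT) : J_AV := by
  intro K κ ε hκ hε
  obtain ⟨C1, c, hC1, hc, hps⟩ := hPS
  obtain ⟨C2, hmert⟩ := hM
  obtain ⟨θ, hθdef⟩ : ∃ θ, θ = min 1 (ε / 9) := ⟨_, rfl⟩
  have hθ : 0 < θ := by rw [hθdef]; exact lt_min one_pos (by positivity)
  have hθ1 : θ ≤ 1 := by rw [hθdef]; exact min_le_left _ _
  have hθε : θ ≤ ε / 9 := by rw [hθdef]; exact min_le_right _ _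
  -- the eventual conditions
  have ev1 : ∀ᶠ y : ℝ in atTop, 2 * (C1 / y + 2 * C1 * Real.exp (-(Real.sqrt y))) + 36 / y ≤
      Real.log (1 + θ) := by
    have h1 : Tendsto (fun y : ℝ => 2 * (C1 / y + 2 * C1 * Real.exp (-(Real.sqrt y))) + 36 / y)
        atTop (𝓝 (2 * (0 + 2 * C1 * 0) + 0)) := by
      refine Tendsto.add (Tendsto.const_mul _ (Tendsto.add ?_ (Tendsto.const_mul _ ?_))) ?_
      · exact tendsto_const_nhds.div_atTop tendsto_id
      · exact Real.tendsto_exp_neg_atTop_nhds_zero.comp Real.tendsto_sqrt_atTop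
      · exact tendsto_const_nhds.div_atTop tendsto_id
    have h2 : (2 * (0 + 2 * C1 * 0) + 0 : ℝ) < Real.log (1 + θ) := by
      have := Real.log_pos (by linarith : 1 < 1 + θ)
      linarith
    exact h1.eventually (ge_mem_nhds h2)
  have ev2 := ev_exp κ hκ ((1 + θ) ^ 2 * (18 * Real.exp (2 * C2)) * (3 / ε)) 12
  have ev3 : ∀ᶠ y : ℝ in atTop, (1 + θ) * ((1 + 1 / θ) * (Real.exp (20 * C2) * (3 / ε))) * y ^ 60 ≤
      Real.exp (1 * Real.sqrt y) := ev_exp 1 one_pos _ 60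
  have ev4 : ∀ᶠ y : ℝ in atTop, 3 * Real.log y ≤ y := by
    have h1 := Real.isLittleO_log_id_atTop.def (c := 1 / 3) (by norm_num)
    filter_upwards [h1, eventually_ge_atTop 1] with y hy hy1
    rw [Real.norm_of_nonneg (Real.log_nonneg hy1), id, Real.norm_of_nonneg (by linarith)] at hy
    linarith
  filter_upwards [ev1, ev2, ev3, eventually_ge_atTop 3, eventually_ge_atTop ((K + 1) / c),
    ev4] with y k1 k2 k3 k4 k5 k7
  intro x hx1 hx2
  have hy0 : 0 < y := by linarith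
  have hx : 1 ≤ x := le_trans (Real.one_le_exp (by positivity)) hx1
  have hlog3 : Real.exp (3 * Real.log y) = y ^ 3 := by
    rw [show (3 : ℝ) * Real.log y = ((3 : ℕ) : ℝ) * Real.log y by norm_num, ← Real.log_pow,
      Real.exp_log (by positivity)]
  obtain ⟨W, hW⟩ : ∃ W, W = zc (3 * Real.log y) := ⟨_, rfl⟩
  have hWc : W = ⌈Real.exp (y ^ 3)⌉₊ := by
    rw [hW]
    unfold zc
    rw [hlog3]
  have hWge : Real.exp (y ^ 3) ≤ W := by
    rw [hWc]
    exact Nat.le_ceil _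
  have hy3 : y ≤ y ^ 3 := by nlinarith [mul_pos hy0 hy0]
  have hWy : y ≤ W := by
    have := Real.add_one_le_exp (y ^ 3)
    linarith
  have hy27 : (27 : ℝ) ≤ y ^ 3 := by
    have := pow_le_pow_left₀ (by norm_num : (0 : ℝ) ≤ 3) k4 3
    norm_num at this
    exact this
  have hW8 : 8 ≤ W := by
    have h1 := Real.add_one_le_exp (y ^ 3)
    have h2 : (8 : ℝ) ≤ W := by linarith
    exact_mod_cast h2
  have hlogy : 0 ≤ Real.log y := Real.log_nonneg (by linarith)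
  have hWN : W ≤ zc y := by
    rw [hW]
    unfold zc
    refine Nat.ceil_mono (Real.exp_le_exp.2 (Real.exp_le_exp.2 ?_))
    exact k7
  have hV : ∑ p ∈ Nat.primesBelow W, (1 : ℝ) / p ≤ 3 * Real.log y + C2 := by
    have h1 := hmert (3 * Real.log y) (by positivity)
    have h2 : VV (3 * Real.log y) = ∑ p ∈ Nat.primesBelow W, (1 : ℝ) / p := by
      rw [hW]
      rfl
    rw [← h2]
    linarith [(abs_le.1 h1).2]
  have hexpV : ∀ k : ℕ, Real.exp (k * ∑ p ∈ Nat.primesBelow W, (1 : ℝ) / p) ≤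
      y ^ (3 * k) * Real.exp (k * C2) := by
    intro k
    have h1 : Real.exp ((k : ℝ) * (3 * Real.log y + C2)) = y ^ (3 * k) * Real.exp (k * C2) := by
      rw [show (k : ℝ) * (3 * Real.log y + C2) = ((3 * k : ℕ) : ℝ) * Real.log y + k * C2 by
        push_cast; ring, Real.exp_add, ← Real.log_pow, Real.exp_log (by positivity)]
    rw [← h1]
    exact Real.exp_le_exp.2 (mul_le_mul_of_nonneg_left hV (Nat.cast_nonneg k))
  have hW0 : (0 : ℝ) < W := by linarith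
  have hsq : Real.sqrt (y ^ 3) = y * Real.sqrt y := by
    rw [show y ^ 3 = y ^ 2 * y by ring, Real.sqrt_mul (by positivity), Real.sqrt_sq hy0.le]
  have hlogW : y ^ 3 ≤ Real.log W := by
    rw [Real.le_log_iff_exp_le hW0]
    exact hWge
  have hsy : 0 < Real.sqrt y := Real.sqrt_pos.2 hy0
  -- the prime sums
  have hδ : ∀ h ∈ Set.Icc 1 x, ‖∑ p ∈ (Finset.Ico W (zc y)).filter Nat.Prime,
      (p : ℂ) ^ (-((1 : ℂ) + (h : ℂ) * Complex.I))‖ ≤
      C1 / y + 2 * C1 * Real.exp (-(Real.sqrt y)) := by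
    intro h hh
    have hh1 : 1 ≤ h := hh.1
    have habs : |h| = h := abs_of_nonneg (by linarith)
    have h1 := hps h (by linarith) W (zc y) (by omega) hWN
    rw [habs] at h1
    refine h1.trans (add_le_add ?_ ?_)
    · refine div_le_div_of_nonneg_left hC1.le hy0 ?_
      nlinarith
    · have h2 : 1 + h ≤ 2 * Real.exp (K * Real.sqrt y) := by
        have := hh.2
        linarith
      have h3 : Real.exp (-(c * Real.sqrt (Real.log W))) ≤
          Real.exp (-((K + 1) * Real.sqrt y)) := by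
        refine Real.exp_le_exp.2 (neg_le_neg ?_)
        have h4 : Real.sqrt (y ^ 3) ≤ Real.sqrt (Real.log W) := Real.sqrt_le_sqrt hlogW
        rw [hsq] at h4
        have h5 : K + 1 ≤ c * y := by
          rw [div_le_iff₀ hc] at k5
          linarith
        calc (K + 1) * Real.sqrt y ≤ (c * y) * Real.sqrt y :=
              mul_le_mul_of_nonneg_right h5 hsy.le
          _ = c * (y * Real.sqrt y) := by ring
          _ ≤ c * Real.sqrt (Real.log W) := mul_le_mul_of_nonneg_left h4 hc.le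
      calc C1 * (1 + h) * Real.exp (-(c * Real.sqrt (Real.log W))) ≤
            C1 * (2 * Real.exp (K * Real.sqrt y)) * Real.exp (-((K + 1) * Real.sqrt y)) := by
            refine mul_le_mul (mul_le_mul_of_nonneg_left h2 hC1.le) h3 (by positivity)
              (by positivity)
        _ = 2 * C1 * (Real.exp (K * Real.sqrt y) * Real.exp (-((K + 1) * Real.sqrt y))) := by ring
        _ = 2 * C1 * Real.exp (-(Real.sqrt y)) := by
            rw [← Real.exp_add]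
            congr 2
            ring
  have hδθ : Real.exp (2 * (C1 / y + 2 * C1 * Real.exp (-(Real.sqrt y))) + 36 / (W : ℝ)) ≤
      1 + θ := by
    rw [← Real.le_log_iff_exp_le (by linarith)]
    refine le_trans ?_ k1
    have : 36 / (W : ℝ) ≤ 36 / y := div_le_div_of_nonneg_left (by norm_num) hy0 hWy
    linarith
  have hcore := core (W := W) (N := zc y) (M := ⌈Real.exp (y ^ 6)⌉₊) (b := y ^ 3)
    (E := Real.exp (y ^ 6)) (x := x) (θ := θ) (δ := C1 / y + 2 * C1 * Real.exp (-(Real.sqrt y)))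
    hW8 hWN (by linarith) (fun p hp => ?_) (Real.exp_pos _) ?_ hx hθ hδ hδθ
  swap
  · rw [hWc] at hp
    exact (Nat.lt_ceil.1 hp).le
  swap
  · have := Nat.le_ceil (Real.exp (y ^ 6))
    linarith
  refine hcore.trans ?_
  have hy1 : 1 ≤ y ^ 6 := one_le_pow₀ (by linarith)
  -- the second term
  have hQ : 6 * (1 + Real.log (⌈Real.exp (y ^ 6)⌉₊ : ℕ)) *
      Real.exp (2 * ∑ p ∈ Nat.primesBelow W, (1 : ℝ) / p) ≤
      18 * Real.exp (2 * C2) * y ^ 12 := by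
    have h1 : Real.log (⌈Real.exp (y ^ 6)⌉₊ : ℕ) ≤ y ^ 6 + 1 := by
      have h2 := (Nat.ceil_lt_add_one (Real.exp_pos (y ^ 6)).le).le
      have h3 : Real.exp (y ^ 6) + 1 ≤ Real.exp (y ^ 6 + 1) := by
        rw [Real.exp_add]
        have h4 := Real.add_one_le_exp (1 : ℝ)
        have h5 : 1 ≤ Real.exp (y ^ 6) := Real.one_le_exp (by positivity)
        nlinarith
      have h6 : (0 : ℝ) < (⌈Real.exp (y ^ 6)⌉₊ : ℕ) := by
        have := Nat.le_ceil (Real.exp (y ^ 6))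
        have := Real.exp_pos (y ^ 6)
        linarith
      rw [Real.log_le_iff_le_exp h6]
      exact h2.trans h3
    have h2 := hexpV 2
    push_cast at h2
    have h3 : 6 * (1 + Real.log (⌈Real.exp (y ^ 6)⌉₊ : ℕ)) ≤ 18 * y ^ 6 := by linarith
    calc _ ≤ (18 * y ^ 6) * (y ^ (3 * 2) * Real.exp (2 * C2)) :=
          mul_le_mul h3 h2 (Real.exp_pos _).le (by positivity)
      _ = 18 * Real.exp (2 * C2) * y ^ 12 := by ring
  have hT : (Real.exp (y ^ 6) ^ (-(1 / (2 * y ^ 3))) *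
      Real.exp (10 * ∑ p ∈ Nat.primesBelow W, (1 : ℝ) / p)) ^ 2 ≤
      Real.exp (-(Real.sqrt y)) * (y ^ 60 * Real.exp (20 * C2)) := by
    have h1 : Real.exp (y ^ 6) ^ (-(1 / (2 * y ^ 3))) = Real.exp (-(y ^ 3) / 2) := by
      rw [← Real.exp_mul]
      congr 1
      field_simp
    rw [h1, mul_pow, ← Real.exp_nat_mul, ← Real.exp_nat_mul]
    have h2 := hexpV 20
    have h3 : Real.exp (((2 : ℕ) : ℝ) * (-(y ^ 3) / 2)) ≤ Real.exp (-(Real.sqrt y)) := by
      refine Real.exp_le_exp.2 ?_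
      push_cast
      have h4 : Real.sqrt y ≤ y := by
        rw [Real.sqrt_le_left hy0.le]
        nlinarith
      linarith
    refine mul_le_mul h3 ?_ (Real.exp_pos _).le (Real.exp_pos _).le
    push_cast at h2 ⊢
    calc _ = Real.exp (20 * ∑ p ∈ Nat.primesBelow W, (1 : ℝ) / p) := by
          congr 1
          ring
      _ ≤ _ := h2
  obtain ⟨Q, hQd⟩ : ∃ Q, Q = 6 * (1 + Real.log (⌈Real.exp (y ^ 6)⌉₊ : ℕ)) *
      Real.exp (2 * ∑ p ∈ Nat.primesBelow W, (1 : ℝ) / p) := ⟨_, rfl⟩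
  obtain ⟨P, hPd⟩ : ∃ P, P = (Real.exp (y ^ 6) ^ (-(1 / (2 * y ^ 3))) *
      Real.exp (10 * ∑ p ∈ Nat.primesBelow W, (1 : ℝ) / p)) ^ 2 := ⟨_, rfl⟩
  rw [← hQd] at hQ ⊢
  rw [← hPd] at hT ⊢
  have f1 : (1 + θ) ^ 2 ≤ 1 + ε / 3 := by nlinarith
  have f2 : (1 + θ) ^ 2 * Q ≤ ε / 3 * x := by
    have h1 : (1 + θ) ^ 2 * Q ≤ (1 + θ) ^ 2 * (18 * Real.exp (2 * C2) * y ^ 12) :=
      mul_le_mul_of_nonneg_left hQ (sq_nonneg _)
    have h2 : (1 + θ) ^ 2 * (18 * Real.exp (2 * C2) * y ^ 12) =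
        ε / 3 * ((1 + θ) ^ 2 * (18 * Real.exp (2 * C2)) * (3 / ε) * y ^ 12) := by
      field_simp
    rw [h2] at h1
    exact h1.trans (mul_le_mul_of_nonneg_left (k2.trans hx1) (by positivity))
  have f3 : (1 + θ) * ((1 + 1 / θ) * P) ≤ ε / 3 := by
    have h1 : (1 + θ) * ((1 + 1 / θ) * P) ≤
        (1 + θ) * ((1 + 1 / θ) * (Real.exp (-(Real.sqrt y)) * (y ^ 60 * Real.exp (20 * C2)))) :=
      mul_le_mul_of_nonneg_left (mul_le_mul_of_nonneg_left hT (by positivity)) (by positivity)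
    have h2 : (1 + θ) * ((1 + 1 / θ) * (Real.exp (-(Real.sqrt y)) *
        (y ^ 60 * Real.exp (20 * C2)))) = ε / 3 * (Real.exp (-(Real.sqrt y)) *
        ((1 + θ) * ((1 + 1 / θ) * (Real.exp (20 * C2) * (3 / ε))) * y ^ 60)) := by
      field_simp
    rw [h2] at h1
    have h3 : Real.exp (-(Real.sqrt y)) *
        ((1 + θ) * ((1 + 1 / θ) * (Real.exp (20 * C2) * (3 / ε))) * y ^ 60) ≤ 1 := by
      calc _ ≤ Real.exp (-(Real.sqrt y)) * Real.exp (1 * Real.sqrt y) :=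
            mul_le_mul_of_nonneg_left k3 (Real.exp_pos _).le
        _ = 1 := by
            rw [← Real.exp_add, one_mul, neg_add_cancel, Real.exp_zero]
    calc _ ≤ _ := h1
      _ ≤ ε / 3 * 1 := mul_le_mul_of_nonneg_left h3 (by positivity)
      _ = ε / 3 := mul_one _
  calc (1 + θ) * ((1 + θ) * (x + Q) + (1 + 1 / θ) * P * x) =
        (1 + θ) ^ 2 * x + (1 + θ) ^ 2 * Q + (1 + θ) * ((1 + 1 / θ) * P) * x := by ring
    _ ≤ (1 + ε / 3) * x + ε / 3 * x + ε / 3 * x := by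
        refine add_le_add (add_le_add ?_ f2) ?_
        · exact mul_le_mul_of_nonneg_right f1 (by linarith)
        · exact mul_le_mul_of_nonneg_right f3 (by linarith)
    _ = (1 + ε) * x := by ring

end Pool.Agent.Q61.EW
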