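import Pool.Agent.Q61.EW.EXC
import Pool.Agent.Q80.EW.Stm6

/-! Job EXCc of the project EWX of helper80. -/

set_option autoImplicit false

namespace Pool.Agent.Q61.EW

open Filter Topology Finset Pool.Agent.Q80.EW MeasureTheory

theorem exc_apply (w : ℕ → ℂ) (n : ℕ) : exc w n = if n = 0 then 0 else
    n.factorization.prod fun p a => w p ^ a / (a.factorial : ℂ) := rfl

theorem Dom_exc (w : ℕ → ℂ) (u : ℕ → ℝ) (h : ∀ p, ‖w p‖ ≤ u p) : Dom (exc w) (ex u) := by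
  intro n
  rw [exc_apply, ex_apply]
  split_ifs with h0
  · exact ⟨0, by simp, by simp⟩
  · refine ⟨_, rfl, ?_⟩
    unfold Finsupp.prod
    rw [norm_prod]
    refine Finset.prod_le_prod (fun _ _ => norm_nonneg _) fun p _ => ?_
    rw [norm_div, norm_pow, Complex.norm_natCast]
    have h1 : ‖w p‖ ^ (n.factorization p) ≤ u p ^ (n.factorization p) :=
      pow_le_pow_left₀ (norm_nonneg _) (h p) _
    exact div_le_div_of_nonneg_right h1 (by positivity)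

theorem Su_exc {Z : ℕ} {w : ℕ → ℂ} (hw : ∀ p, Z ≤ p → w p = 0) :
    Su (fun n => n ∈ Nat.smoothNumbers Z) (exc w) := by
  intro m hn
  by_contra hm
  apply hn
  rw [exc_apply]
  split_ifs with h1
  · rfl
  · have h2 : ∃ p, p.Prime ∧ p ∣ m ∧ Z ≤ p := by
      by_contra hcon
      push Not at hcon
      exact hm (Nat.mem_smoothNumbers'.2 fun p hp hpm => hcon p hp hpm)
    obtain ⟨p, hp, hpm, hZp⟩ := h2
    refine Finset.prod_eq_zero (i := p) ?_ ?_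
    · rw [Nat.support_factorization]
      exact Nat.mem_primeFactors.2 ⟨hp, hpm, h1⟩
    · have h2 : m.factorization p ≠ 0 := by
        rw [← Nat.pos_iff_ne_zero]
        exact hp.factorization_pos_of_dvd h1 hpm
      change w p ^ m.factorization p / _ = 0
      rw [hw p hZp, zero_pow h2, zero_div]

/-- the smooth part with complex weights -/
noncomputable def GTc (l s0 s1 Z : ℕ) (h : ℝ) (w w' : ℕ → ℂ) : ArithmeticFunction ℂ :=
  tr l (sm Z) ^ s0 * sh h (tr l (sm Z)) ^ s1 * tr l (exc w) * sh h (tr l (exc w'))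

theorem Su_GTc {l s0 s1 Z : ℕ} {h : ℝ} {w w' : ℕ → ℂ} (hw : ∀ p, Z ≤ p → w p = 0)
    (hw' : ∀ p, Z ≤ p → w' p = 0) :
    Su (fun n => n ∈ Nat.smoothNumbers Z) (GTc l s0 s1 Z h w w') :=
  (((((Su_sm Z).tr l).pow (Cl_smooth Z) s0).mul (Cl_smooth Z)
    ((((Su_sm Z).tr l).sh h).pow (Cl_smooth Z) s1)).mul (Cl_smooth Z) ((Su_exc hw).tr l)).mul
    (Cl_smooth Z) (((Su_exc hw').tr l).sh h)

theorem FS_GTc (hE : J_EXP) (hEc : J_EXPc) {l s0 s1 Z : ℕ} {h : ℝ} {w w' : ℕ → ℂ} (hs0 : s0 ≤ 1)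
    (hs1 : s1 ≤ 1) (hZ : 1 ≤ Z) (hw : ∀ p, Z ≤ p → w p = 0) (hw' : ∀ p, Z ≤ p → w' p = 0) :
    FS (Z ^ (4 * l)) (GTc l s0 s1 Z h w w') := by
  have h0 := (hE Z l 0 hZ (fun p => by simp)).2.2.1
  have h1 := hEc Z l w hZ hw
  have h2 := hEc Z l w' hZ hw'
  have hZl : 1 ≤ Z ^ l := Nat.one_le_pow _ _ hZ
  have h3 := FS_mul (FS_mul (FS_mul (FS_pow hs0 hZl h0)
    (FS_pow hs1 hZl (FS_sh h h0))) h1.1) (FS_sh h h2.1)
  have h4 : Z ^ l * Z ^ l * Z ^ l * Z ^ l = Z ^ (4 * l) := by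
    rw [← pow_add, ← pow_add, ← pow_add]
    congr 1
    ring
  rw [h4] at h3
  exact h3

theorem dp_GTc (hE : J_EXP) (hEc : J_EXPc) {l s0 s1 Z : ℕ} {h : ℝ} {w w' : ℕ → ℂ}
    (hZ : 1 ≤ Z) (hw : ∀ p, Z ≤ p → w p = 0) (hw' : ∀ p, Z ≤ p → w' p = 0) (t : ℝ) :
    dp (GTc l s0 s1 Z h w w') t = dp (tr l (sm Z)) t ^ s0 * dp (tr l (sm Z)) (t + h) ^ s1 *
      eT l (PVc Z w t) * eT l (PVc Z w' (t + h)) := by
  have h0 := (hE Z l 0 hZ (fun p => by simp)).2.2.1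
  have h1 := hEc Z l w hZ hw
  have h2 := hEc Z l w' hZ hw'
  have h3 := FS_pow' (s := s0) h0
  have h4 := FS_pow' (s := s1) (FS_sh h h0)
  unfold GTc
  rw [dp_mul (FS_mul (FS_mul h3 h4) h1.1) (FS_sh h h2.1), dp_mul (FS_mul h3 h4) h1.1,
    dp_mul h3 h4, dp_pow h0, dp_pow (FS_sh h h0), dp_sh h0, dp_sh h2.1,
    h1.2 t, h2.2 (t + h)]

theorem Dom_GTc {l s0 s1 Z : ℕ} {h : ℝ} {w w' : ℕ → ℂ} (hs0 : s0 ≤ 1) (hs1 : s1 ≤ 1) :
    Dom (GTc l s0 s1 Z h w w')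
      (sm Z * sm Z * ex (fun p => |(fun q => ‖w q‖) p|) * ex (fun p => |(fun q => ‖w' q‖) p|)) := by
  have hv : Dom (tr l (exc w)) (ex (fun p => |(fun q => ‖w q‖) p|)) :=
    (Dom_exc w _ fun p => le_abs_self _).tr l
  have hv' : Dom (sh h (tr l (exc w'))) (ex (fun p => |(fun q => ‖w' q‖) p|)) :=
    ((Dom_exc w' _ fun p => le_abs_self _).tr l).sh h
  exact (((Dom_pow_sm hs0 ((Dom_sm Z).tr l)).mul
    (Dom_pow_sm hs1 (((Dom_sm Z).tr l).sh h))).mul hv).mul hv'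

/-- the support of a product with the rough part -/
theorem GR_supp {η T : ℝ} (hη : η ≤ 1 / 100) (hT : 1 < T)
    (hg : ((zc (Yt T) : ℕ) : ℝ) ^ (4 * el T) ≤ T ^ η) {s0 s1 : ℕ} {h : ℝ}
    {G : ArithmeticFunction ℂ} (hG : FS (zc (Yt T) ^ (4 * el T)) G)
    (hs0 : s0 ≤ 1) (hs1 : s1 ≤ 1) :
    FS ⌊T ^ (1 - 3 * η)⌋₊ (G * RF η T s0 s1 h) := by
  have hT0 : 0 < T := by linarith
  have h1 := FS_mul hG (FS_RF η T h hs0 hs1 (one_le_Nt hη hT.le))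
  refine FS.mono h1 ?_
  rw [Nat.le_floor_iff (Real.rpow_pos_of_pos hT0 _).le]
  push_cast
  have h2 := Nt_le (η := η) hT0
  have h3 : (Nt η T : ℝ) * (Nt η T : ℝ) ≤ T ^ (1 / 2 - 2 * η) * T ^ (1 / 2 - 2 * η) :=
    mul_le_mul h2 h2 (by positivity) (by positivity)
  calc ((zc (Yt T) : ℕ) : ℝ) ^ (4 * el T) * ((Nt η T : ℝ) * (Nt η T : ℝ)) ≤
      T ^ η * (T ^ (1 / 2 - 2 * η) * T ^ (1 / 2 - 2 * η)) :=
        mul_le_mul hg h3 (by positivity) (by positivity)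
    _ = T ^ (1 - 3 * η) := by
      rw [← Real.rpow_add hT0, ← Real.rpow_add hT0]
      congr 1
      ring

theorem exc_mean' (hV : J_MV) (hM : J_MULT) (hEU : J_EU) (hMT : J_MERT) (hR : J_FR2)
    (hRHO : J_RHO) : ∃ C : ℝ, 0 < C ∧ ∀ η : ℝ, 0 < η → η ≤ 1 / 100 →
    ∀ᶠ T : ℝ in atTop, ∀ (s0 s1 : ℕ) (h a : ℝ) (v v' : ℕ → ℝ) (G g : ArithmeticFunction ℂ),
    s0 ≤ 1 → s1 ≤ 1 → 0 ≤ a → a ≤ Yt T →
    (∀ p, |v p| ≤ 1 / 2) → (∀ p, |v' p| ≤ 1 / 2) → Wt (zc (Yt T)) v → Wt (zc (Yt T)) v' →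
    FS (zc (Yt T) ^ (4 * el T)) G → Su (fun n => n ∈ Nat.smoothNumbers (zc (Yt T))) G →
    Dom G (sm (zc (Yt T)) * sm (zc (Yt T)) * ex (fun p => |v p|) * ex (fun p => |v' p|)) →
    FS (zc (Yt T) ^ el T) g → Su (fun n => n ∈ Nat.smoothNumbers (zc (Yt T))) g →
    Dom g (ex (lo a)) →
    ∫ t in T..(4 * T), ‖dp (G * RF η T s0 s1 h * g) t‖ ^ 2 ≤
      C * T * Real.exp (16 * La T) * La T ^ 8 := by
  obtain ⟨CV, hCV, hV⟩ := hV
  obtain ⟨CE, hCE, hEU⟩ := hEU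
  obtain ⟨CM, hMT⟩ := hMT
  obtain ⟨CR, hRHO⟩ := hRHO
  refine ⟨(3 + CV) * (Real.exp (16 * CM + CE) * (CR ^ 4 + 1)), by positivity, ?_⟩
  intro η hη0 hη
  filter_upwards [hRHO η hη0 hη, grow 4 hη0, eventually_gt_atTop 1,
    tendsto_La.eventually_ge_atTop 1] with T hrho hg hT hLa s0 s1 h a v v' G g hs0 hs1 ha0 ha
    hv2 hv2' hv hv' hGF hGS hGD hgF hgS hgD
  have hg := hg (Yt T) le_rfl
  have hT0 : 0 < T := by linarith
  obtain ⟨Z, hZ⟩ : ∃ Z, Z = zc (Yt T) := ⟨_, rfl⟩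
  have hZ2 : 2 ≤ Z := by rw [hZ]; exact two_le_zc _
  have hN := one_le_Nt hη hT.le
  -- the norm
  have hWt : Wt Z (fun p => |v p|) := by
    intro p
    refine ⟨?_, fun hp => ?_⟩
    · change |(|v p|)| ≤ 2
      rw [abs_abs]
      linarith [hv2 p]
    · change |v p| = 0
      rw [(hv p).2 (hZ ▸ hp), abs_zero]
  have hlo : Wt Z (lo a) := Wt_lo (by rw [hZ]; exact zc_mono ha)
  have hWt' : Wt Z ((fun p => |v' p|) + lo a) := by
    intro p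
    refine ⟨?_, fun hp => ?_⟩
    · rw [Pi.add_apply]
      have h1 := lo_nonneg a p
      have h2 := abs_nonneg (v' p)
      rw [abs_of_nonneg (by linarith)]
      linarith [hv2' p]
    · rw [Pi.add_apply]
      rw [(hv' p).2 (hZ ▸ hp), abs_zero, (hlo p).2 hp, add_zero]
  have hEU1 := hEU 1 1 Z 0 _ _ le_rfl le_rfl hWt hWt'
  have hD : Dom (G * g) (GG 1 1 Z 0 (fun p => |v p|) ((fun p => |v' p|) + lo a)) := by
    have h1 : GG 1 1 Z 0 (fun p => |v p|) ((fun p => |v' p|) + lo a) =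
        sm Z * sm Z * ex (fun p => |v p|) * ex (fun p => |v' p|) * ex (lo a) := by
      unfold GG
      rw [sh_zero, sh_zero, pow_one, ex_add, mul_assoc (sm Z * sm Z * ex (fun p => |v p|))]
    rw [h1, hZ]
    exact hGD.mul hgD
  have hn1 : nm (G * g) ≤
      nm (GG 1 1 Z 0 (fun p => |v p|) ((fun p => |v' p|) + lo a)) := nm_dom hD hEU1.1
  have hVV : VV (Yt T) ≤ La T + CM := by
    have h1 := abs_le.1 (hMT (Yt T) (ha0.trans ha))
    have h2 : 0 ≤ Real.log (La T) := Real.log_nonneg hLa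
    have h3 : Yt T ≤ La T := by
      unfold Yt
      linarith
    linarith [h1.2]
  have hn2 : nm (GG 1 1 Z 0 (fun p => |v p|) ((fun p => |v' p|) + lo a)) ≤
      Real.exp (16 * La T) * Real.exp (16 * CM + CE) := by
    have h0 := hEU1.2.1
    have h1 := (abs_le.1 hEU1.2.2.1).2
    have h2 : ∑ p ∈ Nat.primesBelow Z, c1 1 1 0 (fun p => |v p|) ((fun p => |v' p|) + lo a) p /
        (p : ℝ) ≤ 16 * VV (Yt T) := by
      unfold VV
      rw [Finset.mul_sum, hZ]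
      refine Finset.sum_le_sum fun p hp => ?_
      rw [mul_one_div]
      exact div_le_div_of_nonneg_right (c1_le hv2 hv2') (by positivity)
    rw [← Real.exp_add, ← Real.log_le_iff_le_exp (by linarith)]
    linarith
  have hn3 : nm (RF η T s0 s1 h) ≤ (CR ^ 4 + 1) * La T ^ 8 := by
    refine (nm_RF_le hR hs0 hs1 hN).trans ?_
    have h1 : nm (ro (zc (Yt T)) (Nt η T)) ^ 4 ≤ (CR * La T ^ 2) ^ 4 :=
      pow_le_pow_left₀ (nm_nonneg _) hrho 4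
    refine h1.trans ?_
    rw [mul_pow, ← pow_mul]
    exact mul_le_mul_of_nonneg_right (by linarith) (by positivity)
  have hFSG : FS (zc (Yt T) ^ (4 * el T) * zc (Yt T) ^ el T) (G * g) := FS_mul hGF hgF
  have hfac : G * RF η T s0 s1 h * g = (G * g) * RF η T s0 s1 h := by ring
  have hnm : nm (G * RF η T s0 s1 h * g) = nm (G * g) * nm (RF η T s0 s1 h) := by
    rw [hfac]
    exact hM (zc (Yt T)) _ _ _ _ hFSG (FS_RF η T h hs0 hs1 hN)
      (hGS.mul (Cl_smooth _) hgS) (Su_RF η T s0 s1 h)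
  have hnb : nm (G * RF η T s0 s1 h * g) ≤
      Real.exp (16 * La T) * Real.exp (16 * CM + CE) * ((CR ^ 4 + 1) * La T ^ 8) := by
    rw [hnm]
    exact mul_le_mul (hn1.trans hn2) hn3 (nm_nonneg _) (by positivity)
  have hFS := FS_mul (GR_supp (h := h) hη hT hg hGF hs0 hs1) hgF
  have hmv := (abs_le.1 (hV _ _ hFS T (4 * T) (by linarith))).2
  have hX : ((⌊T ^ (1 - 3 * η)⌋₊ * zc (Yt T) ^ el T : ℕ) : ℝ) ≤ T := by
    push_cast
    have h1 : (⌊T ^ (1 - 3 * η)⌋₊ : ℝ) ≤ T ^ (1 - 3 * η) :=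
      Nat.floor_le (Real.rpow_pos_of_pos hT0 _).le
    have hZ1 : (1 : ℝ) ≤ ((zc (Yt T) : ℕ) : ℝ) := by
      have : 1 ≤ zc (Yt T) := by omega
      exact_mod_cast this
    have h2 : ((zc (Yt T) : ℕ) : ℝ) ^ el T ≤ T ^ η :=
      (pow_le_pow_right₀ hZ1 (by omega)).trans hg
    calc (⌊T ^ (1 - 3 * η)⌋₊ : ℝ) * ((zc (Yt T) : ℕ) : ℝ) ^ el T ≤ T ^ (1 - 3 * η) * T ^ η :=
          mul_le_mul h1 h2 (by positivity) (by positivity)
      _ = T ^ (1 - 2 * η) := by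
        rw [← Real.rpow_add hT0]
        congr 1
        ring
      _ ≤ T ^ (1 : ℝ) := Real.rpow_le_rpow_of_exponent_le hT.le (by linarith)
      _ = T := Real.rpow_one T
  have hnn := nm_nonneg (G * RF η T s0 s1 h * g)
  have h5 : CV * ((⌊T ^ (1 - 3 * η)⌋₊ * zc (Yt T) ^ el T : ℕ) : ℝ) *
      nm (G * RF η T s0 s1 h * g) ≤ CV * T * nm (G * RF η T s0 s1 h * g) :=
    mul_le_mul_of_nonneg_right (mul_le_mul_of_nonneg_left hX hCV.le) hnn
  have h6 : ∫ t in T..(4 * T), ‖dp (G * RF η T s0 s1 h * g) t‖ ^ 2 ≤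
      (3 + CV) * T * nm (G * RF η T s0 s1 h * g) := by
    linarith
  refine h6.trans ?_
  have h7 : (3 + CV) * T * nm (G * RF η T s0 s1 h * g) ≤ (3 + CV) * T *
      (Real.exp (16 * La T) * Real.exp (16 * CM + CE) * ((CR ^ 4 + 1) * La T ^ 8)) :=
    mul_le_mul_of_nonneg_left hnb (by positivity)
  refine h7.trans (le_of_eq ?_)
  ring

/-- the general form of EXC -/
theorem exc_gen (hV : J_MV) (hE : J_EXP) (hM : J_MULT) (hEU : J_EU) (hMT : J_MERT) (hR : J_FR2)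
    (hRHO : J_RHO) : ∀ η : ℝ, 0 < η → η ≤ 1 / 100 → ∀ᶠ T : ℝ in atTop,
    ∀ (s0 s1 : ℕ) (h a : ℝ) (v v' : ℕ → ℝ) (G : ArithmeticFunction ℂ),
    s0 ≤ 1 → s1 ≤ 1 → 0 ≤ a → a ≤ Yt T →
    (∀ p, |v p| ≤ 1 / 2) → (∀ p, |v' p| ≤ 1 / 2) → Wt (zc (Yt T)) v → Wt (zc (Yt T)) v' →
    FS (zc (Yt T) ^ (4 * el T)) G → Su (fun n => n ∈ Nat.smoothNumbers (zc (Yt T))) G →
    Dom G (sm (zc (Yt T)) * sm (zc (Yt T)) * ex (fun p => |v p|) * ex (fun p => |v' p|)) →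
    ∫ t in T..(4 * T), Set.indicator {t | 40 * La T < ‖PP a t‖ ∨ 40 * La T < ‖PP a (t + h)‖}
      (fun t => ‖dp (G * RF η T s0 s1 h) t‖ ^ 2) t ≤ T / Real.log T := by
  obtain ⟨C, hC, hmean⟩ := exc_mean' hV hM hEU hMT hR hRHO
  intro η hη0 hη
  have hev : ∀ᶠ T : ℝ in atTop, La T ^ 8 * Real.exp (-La T) ≤ 1 / (2 * C) :=
    ((Real.tendsto_pow_mul_exp_neg_atTop_nhds_zero 8).comp tendsto_La).eventually_le_const
      (by positivity)
  filter_upwards [hmean η hη0 hη, grow 4 hη0, eventually_gt_atTop 1,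
    tendsto_La.eventually_ge_atTop 1, hev] with T hmean hg hT hLa hev s0 s1 h a v v' G hs0 hs1 ha0
    ha hv2 hv2' hv hv' hGF hGS hGD
  have hT0 : 0 < T := by linarith
  have hL0 : 0 < La T := by linarith
  have hZ : 1 ≤ zc (Yt T) := by
    have := two_le_zc (Yt T)
    omega
  have hZa : zc a ≤ zc (Yt T) := zc_mono ha
  have hlo : Wt (zc (Yt T)) (lo a) := Wt_lo hZa
  obtain ⟨k, hk⟩ : ∃ k, k = ⌈20 * La T⌉₊ := ⟨_, rfl⟩
  have hkl : k ≤ el T := by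
    rw [hk]
    unfold el
    exact Nat.ceil_mono (by linarith)
  have hEk := hE (zc (Yt T)) k (lo a) hZ hlo
  have hpkF : FS (zc (Yt T) ^ el T) (pk k (ex (lo a))) :=
    hEk.2.1.mono (Nat.pow_le_pow_right hZ hkl)
  have hpkS : Su (fun n => n ∈ Nat.smoothNumbers (zc (Yt T))) (pk k (ex (lo a))) :=
    (Su_ex hlo).pk k
  have hpkD : Dom (pk k (ex (lo a))) (ex (lo a)) := (Dom_ex _ _ fun p => by
    rw [abs_of_nonneg (lo_nonneg a p).1]).pk k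
  have hI1 := hmean s0 s1 h a v v' G _ hs0 hs1 ha0 ha hv2 hv2' hv hv' hGF hGS hGD hpkF hpkS hpkD
  have hI2 := hmean s0 s1 h a v v' G _ hs0 hs1 ha0 ha hv2 hv2' hv hv' hGF hGS hGD
    (FS_sh h hpkF) (hpkS.sh h) (hpkD.sh h)
  have hFS := GR_supp (h := h) hη hT (hg (Yt T) le_rfl) hGF hs0 hs1
  obtain ⟨F, hFd⟩ : ∃ F, F = G * RF η T s0 s1 h := ⟨_, rfl⟩
  rw [← hFd] at hI1 hI2 hFS ⊢
  obtain ⟨r, hr⟩ : ∃ r : ℝ, r = ((k.factorial : ℝ) / (40 * La T) ^ k) ^ 2 := ⟨_, rfl⟩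
  have hr0 : 0 ≤ r := by rw [hr]; positivity
  have hrb : r ≤ Real.exp (-(20 * La T)) := by
    rw [hr, hk]
    exact fact_bound hLa
  -- pointwise
  have hpt : ∀ x : ℂ, 40 * La T < ‖x‖ → 1 ≤ r * ‖x ^ k / (k.factorial : ℂ)‖ ^ 2 := by
    intro x hx
    rw [hr, norm_div, norm_pow, Complex.norm_natCast, ← mul_pow]
    have h3 : (k.factorial : ℝ) ≠ 0 := by exact_mod_cast Nat.factorial_ne_zero k
    have h1 : (k.factorial : ℝ) / (40 * La T) ^ k * (‖x‖ ^ k / (k.factorial : ℝ)) =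
        (‖x‖ / (40 * La T)) ^ k := by
      rw [div_pow]
      field_simp
    rw [h1]
    refine one_le_pow₀ (one_le_pow₀ ?_)
    rw [le_div_iff₀ (by positivity)]
    linarith
  have hle : ∀ t : ℝ, Set.indicator {t | 40 * La T < ‖PP a t‖ ∨ 40 * La T < ‖PP a (t + h)‖}
      (fun t => ‖dp F t‖ ^ 2) t ≤ r * ‖dp (F * pk k (ex (lo a))) t‖ ^ 2 +
        r * ‖dp (F * sh h (pk k (ex (lo a)))) t‖ ^ 2 := by
    intro t
    rw [dp_mul hFS hpkF, dp_mul hFS (FS_sh h hpkF), dp_sh hpkF, (hEk.2.2.2 t).2,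
      (hEk.2.2.2 (t + h)).2, PV_lo hZa, PV_lo hZa, norm_mul, norm_mul, mul_pow, mul_pow]
    have e1 : 0 ≤ ‖dp F t‖ ^ 2 := by positivity
    have e2 : 0 ≤ r * (‖dp F t‖ ^ 2 * ‖PP a t ^ k / (k.factorial : ℂ)‖ ^ 2) := by positivity
    have e3 : 0 ≤ r * (‖dp F t‖ ^ 2 * ‖PP a (t + h) ^ k / (k.factorial : ℂ)‖ ^ 2) := by
      positivity
    by_cases ht : t ∈ {t | 40 * La T < ‖PP a t‖ ∨ 40 * La T < ‖PP a (t + h)‖}
    · rw [Set.indicator_of_mem ht]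
      rcases ht with ht | ht
      · have e4 := hpt _ ht
        have e5 : ‖dp F t‖ ^ 2 ≤ r * (‖dp F t‖ ^ 2 * ‖PP a t ^ k / (k.factorial : ℂ)‖ ^ 2) := by
          calc ‖dp F t‖ ^ 2 = ‖dp F t‖ ^ 2 * 1 := (mul_one _).symm
            _ ≤ ‖dp F t‖ ^ 2 * (r * ‖PP a t ^ k / (k.factorial : ℂ)‖ ^ 2) :=
                mul_le_mul_of_nonneg_left e4 e1
            _ = _ := by ring
        linarith
      · have e4 := hpt _ ht
        have e5 : ‖dp F t‖ ^ 2 ≤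
            r * (‖dp F t‖ ^ 2 * ‖PP a (t + h) ^ k / (k.factorial : ℂ)‖ ^ 2) := by
          calc ‖dp F t‖ ^ 2 = ‖dp F t‖ ^ 2 * 1 := (mul_one _).symm
            _ ≤ ‖dp F t‖ ^ 2 * (r * ‖PP a (t + h) ^ k / (k.factorial : ℂ)‖ ^ 2) :=
                mul_le_mul_of_nonneg_left e4 e1
            _ = _ := by ring
        linarith
    · rw [Set.indicator_of_notMem ht]
      linarith
  have hTT : T ≤ 4 * T := by linarith
  have hc1 : Continuous fun t => r * ‖dp (F * pk k (ex (lo a))) t‖ ^ 2 :=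
    continuous_const.mul ((dp_cont (FS_mul hFS hpkF)).norm.pow 2)
  have hc2 : Continuous fun t => r * ‖dp (F * sh h (pk k (ex (lo a)))) t‖ ^ 2 :=
    continuous_const.mul ((dp_cont (FS_mul hFS (FS_sh h hpkF))).norm.pow 2)
  have hstep : ∫ t in T..(4 * T), Set.indicator
      {t | 40 * La T < ‖PP a t‖ ∨ 40 * La T < ‖PP a (t + h)‖} (fun t => ‖dp F t‖ ^ 2) t ≤
      ∫ t in T..(4 * T), (r * ‖dp (F * pk k (ex (lo a))) t‖ ^ 2 +
        r * ‖dp (F * sh h (pk k (ex (lo a)))) t‖ ^ 2) := by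
    rw [intervalIntegral.integral_of_le hTT, intervalIntegral.integral_of_le hTT]
    refine integral_mono_of_nonneg (Eventually.of_forall fun t =>
      Set.indicator_nonneg (fun t _ => by positivity) t) ?_ (Eventually.of_forall hle)
    exact ((hc1.add hc2).intervalIntegrable T (4 * T)).1
  refine hstep.trans ?_
  rw [intervalIntegral.integral_add (hc1.intervalIntegrable _ _) (hc2.intervalIntegrable _ _),
    intervalIntegral.integral_const_mul, intervalIntegral.integral_const_mul, ← mul_add]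
  have h1 : r * ((∫ t in T..(4 * T), ‖dp (F * pk k (ex (lo a))) t‖ ^ 2) +
      ∫ t in T..(4 * T), ‖dp (F * sh h (pk k (ex (lo a)))) t‖ ^ 2) ≤
      Real.exp (-(20 * La T)) * (2 * (C * T * Real.exp (16 * La T) * La T ^ 8)) := by
    refine (mul_le_mul_of_nonneg_left (add_le_add hI1 hI2) hr0).trans ?_
    rw [← two_mul]
    exact mul_le_mul_of_nonneg_right hrb (by positivity)
  refine h1.trans ?_
  rw [log_eq hT, le_div_iff₀ (Real.exp_pos _)]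
  have h2 : Real.exp (-(20 * La T)) * (2 * (C * T * Real.exp (16 * La T) * La T ^ 8)) *
      Real.exp (La T) = (2 * C * T) * (La T ^ 8 * (Real.exp (-(20 * La T)) *
        Real.exp (16 * La T) * Real.exp (La T))) := by ring
  rw [h2, ← Real.exp_add, ← Real.exp_add]
  have h3 : Real.exp (-(20 * La T) + 16 * La T + La T) ≤ Real.exp (-La T) :=
    Real.exp_le_exp.2 (by linarith)
  have h4 : La T ^ 8 * Real.exp (-(20 * La T) + 16 * La T + La T) ≤ 1 / (2 * C) :=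
    (mul_le_mul_of_nonneg_left h3 (by positivity)).trans hev
  calc (2 * C * T) * (La T ^ 8 * Real.exp (-(20 * La T) + 16 * La T + La T)) ≤
      (2 * C * T) * (1 / (2 * C)) := mul_le_mul_of_nonneg_left h4 (by positivity)
    _ = T := by field_simp

/-- JOB EXCc. -/
theorem t_EXCc (hV : J_MV) (hE : J_EXP) (hEc : J_EXPc) (hM : J_MULT) (hEU : J_EU) (hMT : J_MERT)
    (hR : J_FR2) (hRHO : J_RHO) : J_EXCc := by
  intro η hη0 hη
  filter_upwards [exc_gen hV hE hM hEU hMT hR hRHO η hη0 hη, eventually_gt_atTop 1]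
    with T hgen hT s0 s1 h a w w' hs0 hs1 ha0 ha hw2 hw2' hz
  have hZ : 1 ≤ zc (Yt T) := by
    have := two_le_zc (Yt T)
    omega
  have hw : ∀ p, zc (Yt T) ≤ p → w p = 0 := fun p hp => (hz p hp).1
  have hw' : ∀ p, zc (Yt T) ≤ p → w' p = 0 := fun p hp => (hz p hp).2
  have hWn : ∀ u : ℕ → ℂ, (∀ p, ‖u p‖ ≤ 1 / 2) → (∀ p, zc (Yt T) ≤ p → u p = 0) →
      Wt (zc (Yt T)) (fun p => ‖u p‖) := by
    intro u hu hu0 p
    refine ⟨?_, fun hp => ?_⟩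
    · change |‖u p‖| ≤ 2
      rw [abs_of_nonneg (norm_nonneg _)]
      linarith [hu p]
    · change ‖u p‖ = 0
      rw [hu0 p hp, norm_zero]
  have hres := hgen s0 s1 h a (fun p => ‖w p‖) (fun p => ‖w' p‖)
    (GTc (el T) s0 s1 (zc (Yt T)) h w w') hs0 hs1 ha0 ha
    (fun p => by rw [abs_of_nonneg (norm_nonneg _)]; exact hw2 p)
    (fun p => by rw [abs_of_nonneg (norm_nonneg _)]; exact hw2' p)
    (hWn w hw2 hw) (hWn w' hw2' hw') (FS_GTc hE hEc hs0 hs1 hZ hw hw') (Su_GTc hw hw')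
    (Dom_GTc hs0 hs1)
  have hfun : ∀ t : ℝ, ‖dp (GTc (el T) s0 s1 (zc (Yt T)) h w w' * RF η T s0 s1 h) t‖ ^ 2 =
      (‖Dp η T t‖ ^ s0 * ‖Dp η T (t + h)‖ ^ s1 * ‖eT (el T) (PVc (zc (Yt T)) w t)‖ *
        ‖eT (el T) (PVc (zc (Yt T)) w' (t + h))‖) ^ 2 := by
    intro t
    have hD : ∀ t, Dp η T t = dp (tr (el T) (sm (zc (Yt T)))) t *
        dp (ro (zc (Yt T)) (Nt η T)) t := by
      intro t
      unfold Dp dd
      exact dp_mul (hE (zc (Yt T)) (el T) 0 hZ (fun p => by simp)).2.2.1 (FS_ro _ _) t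
    rw [dp_mul (FS_GTc hE hEc (l := el T) (h := h) hs0 hs1 hZ hw hw')
      (FS_RF η T h hs0 hs1 (one_le_Nt hη hT.le)), dp_GTc hE hEc hZ hw hw', dp_RF, hD, hD]
    simp only [norm_mul, norm_pow]
    ring
  have hfun' : (fun t : ℝ => ‖dp (GTc (el T) s0 s1 (zc (Yt T)) h w w' * RF η T s0 s1 h) t‖ ^ 2) =
      fun t => (‖Dp η T t‖ ^ s0 * ‖Dp η T (t + h)‖ ^ s1 * ‖eT (el T) (PVc (zc (Yt T)) w t)‖ *
        ‖eT (el T) (PVc (zc (Yt T)) w' (t + h))‖) ^ 2 := funext hfun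
  rw [hfun'] at hres
  exact hres

end Pool.Agent.Q61.EW
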