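import Pool.Agent.Q80.EW.Stm
import Pool.Agent.Y96.SX.MV

/-! Job AV of the project EW of helper80: the part over the small primes. -/

set_option autoImplicit false

namespace Pool.Agent.Q61.EW

open Filter Topology MeasureTheory

/-! ### Sums over smooth numbers -/

/-- `n ↦ n^(-a)` -/
noncomputable def fR (a : ℝ) : ℕ →* ℝ where
  toFun n := (n : ℝ) ^ (-a)
  map_one' := by simp
  map_mul' m n := by
    rw [Nat.cast_mul, Real.mul_rpow (Nat.cast_nonneg m) (Nat.cast_nonneg n)]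

/-- `n ↦ n^(-1-ih)` -/
noncomputable def fC (h : ℝ) : ℕ →* ℂ where
  toFun n := (n : ℂ) ^ (-((1 : ℂ) + (h : ℂ) * Complex.I))
  map_one' := by simp
  map_mul' m n := by
    rw [Nat.cast_mul, Complex.natCast_mul_natCast_cpow]

theorem hasSum_fR (W : ℕ) {a : ℝ} (ha : 0 < a) :
    HasSum (Set.indicator (Nat.smoothNumbers W) fun n => (n : ℝ) ^ (-a))
      (∏ p ∈ Nat.primesBelow W, (1 - (p : ℝ) ^ (-a))⁻¹) := by
  have h := (EulerProduct.summable_and_hasSum_smoothNumbers_prod_primesBelow_geometric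
    (f := fR a) (fun {p} hp => ?_) W).2
  · exact hasSum_subtype_iff_indicator.1 h
  · change ‖(p : ℝ) ^ (-a)‖ < 1
    rw [Real.norm_of_nonneg (Real.rpow_nonneg (Nat.cast_nonneg p) _)]
    exact Real.rpow_lt_one_of_one_lt_of_neg (by exact_mod_cast hp.one_lt) (by linarith)

theorem norm_fC (h : ℝ) {n : ℕ} (hn : n ≠ 0) :
    ‖(n : ℂ) ^ (-((1 : ℂ) + (h : ℂ) * Complex.I))‖ = 1 / (n : ℝ) := by
  rw [Complex.norm_natCast_cpow_of_pos (Nat.pos_of_ne_zero hn)]
  simp [Real.rpow_neg_one]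

theorem hasSum_fC (W : ℕ) (h : ℝ) :
    HasSum (Set.indicator (Nat.smoothNumbers W)
      fun n => (n : ℂ) ^ (-((1 : ℂ) + (h : ℂ) * Complex.I)))
      (∏ p ∈ Nat.primesBelow W, (1 - (p : ℂ) ^ (-((1 : ℂ) + (h : ℂ) * Complex.I)))⁻¹) := by
  have hh := (EulerProduct.summable_and_hasSum_smoothNumbers_prod_primesBelow_geometric
    (f := fC h) (fun {p} hp => ?_) W).2
  · exact hasSum_subtype_iff_indicator.1 hh
  · change ‖(p : ℂ) ^ (-((1 : ℂ) + (h : ℂ) * Complex.I))‖ < 1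
    rw [norm_fC h hp.ne_zero, div_lt_one (by exact_mod_cast hp.pos)]
    exact_mod_cast hp.one_lt

theorem inv_le_exp {u : ℝ} (hu : u < 1) : (1 - u)⁻¹ ≤ Real.exp (u / (1 - u)) := by
  have h1 := Real.add_one_le_exp (u / (1 - u))
  have h2 : (1 - u)⁻¹ = u / (1 - u) + 1 := by
    have : 1 - u ≠ 0 := by linarith
    field_simp
    ring
  rw [h2]
  exact h1

theorem exp_half_lt : Real.exp (1 / 2) < 1.65 := by
  have h1 := Real.exp_one_lt_d9
  have h2 : Real.exp (1 / 2) * Real.exp (1 / 2) = Real.exp 1 := by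
    rw [← Real.exp_add]
    norm_num
  by_contra hcon
  rw [not_lt] at hcon
  nlinarith [Real.exp_pos (1 / 2)]

/-- the product over the primes with exponent one -/
theorem prod_one (W : ℕ) :
    ∏ p ∈ Nat.primesBelow W, (1 - (p : ℝ) ^ (-(1 : ℝ)))⁻¹ ≤
      Real.exp (2 * ∑ p ∈ Nat.primesBelow W, (1 : ℝ) / p) := by
  rw [Finset.mul_sum, Real.exp_sum]
  refine Finset.prod_le_prod (fun p hp => ?_) fun p hp => ?_
  · have hp2 : (2 : ℝ) ≤ p := by exact_mod_cast (Nat.prime_of_mem_primesBelow hp).two_le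
    rw [Real.rpow_neg_one]
    have : (p : ℝ)⁻¹ ≤ 1 := inv_le_one_of_one_le₀ (by linarith)
    exact inv_nonneg.2 (by linarith)
  · have hp2 : (2 : ℝ) ≤ p := by exact_mod_cast (Nat.prime_of_mem_primesBelow hp).two_le
    rw [Real.rpow_neg_one]
    have hu : (p : ℝ)⁻¹ ≤ 1 / 2 := by
      rw [inv_eq_one_div]
      exact one_div_le_one_div_of_le (by norm_num) hp2
    have hu0 : 0 ≤ (p : ℝ)⁻¹ := by positivity
    refine (inv_le_exp (by linarith)).trans (Real.exp_le_exp.2 ?_)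
    rw [div_le_iff₀ (by linarith), ← inv_eq_one_div]
    nlinarith

/-- the product over the primes with a slightly smaller exponent -/
theorem prod_rankin (W : ℕ) {b : ℝ} (hb : 0 < b) (hW : ∀ p : ℕ, p < W → (p : ℝ) ≤ Real.exp b) :
    ∏ p ∈ Nat.primesBelow W, (1 - (p : ℝ) ^ (-(1 - 1 / (2 * b))))⁻¹ ≤
      Real.exp (10 * ∑ p ∈ Nat.primesBelow W, (1 : ℝ) / p) := by
  rw [Finset.mul_sum, Real.exp_sum]
  have key : ∀ p ∈ Nat.primesBelow W, 0 ≤ (p : ℝ) ^ (-(1 - 1 / (2 * b))) ∧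
      (p : ℝ) ^ (-(1 - 1 / (2 * b))) ≤ 1.65 * (p : ℝ)⁻¹ ∧ (p : ℝ)⁻¹ ≤ 1 / 2 := by
    intro p hp
    have hp2 : (2 : ℝ) ≤ p := by exact_mod_cast (Nat.prime_of_mem_primesBelow hp).two_le
    have hp0 : (0 : ℝ) < p := by linarith
    have h1 := hW p (Nat.lt_of_mem_primesBelow hp)
    have h2 : Real.log p ≤ b := by
      rw [← Real.log_exp b]
      exact Real.log_le_log hp0 h1
    refine ⟨Real.rpow_nonneg hp0.le _, ?_, ?_⟩
    · rw [show -(1 - 1 / (2 * b)) = -1 + 1 / (2 * b) by ring, Real.rpow_add hp0,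
        Real.rpow_neg_one, mul_comm]
      refine mul_le_mul_of_nonneg_right ?_ (by positivity)
      rw [Real.rpow_def_of_pos hp0]
      refine (Real.exp_le_exp.2 ?_).trans exp_half_lt.le
      rw [mul_one_div, div_le_div_iff₀ (by positivity) (by norm_num)]
      linarith
    · rw [inv_eq_one_div]
      exact one_div_le_one_div_of_le (by norm_num) hp2
  refine Finset.prod_le_prod (fun p hp => ?_) fun p hp => ?_
  · obtain ⟨h1, h2, h3⟩ := key p hp
    exact inv_nonneg.2 (by linarith)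
  · obtain ⟨h1, h2, h3⟩ := key p hp
    have h4 : (p : ℝ) ^ (-(1 - 1 / (2 * b))) ≤ 0.825 := by linarith
    refine (inv_le_exp (by linarith)).trans (Real.exp_le_exp.2 ?_)
    have h5 : 0 ≤ (p : ℝ)⁻¹ := by linarith
    generalize (p : ℝ) ^ (-(1 - 1 / (2 * b))) = u at h1 h2 h4 ⊢
    rw [div_le_iff₀ (by linarith), ← inv_eq_one_div]
    nlinarith

/-! ### Truncation -/

/-- the truncated series -/
noncomputable def SM (W M : ℕ) (h : ℝ) : ℂ :=
  ∑ n ∈ Finset.range (M + 1), Set.indicator (Nat.smoothNumbers W)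
      (fun n => (n : ℂ) ^ (-((1 : ℂ) + (h : ℂ) * Complex.I))) n

theorem trunc (W M : ℕ) (h : ℝ) {b E : ℝ} (hb : 1 ≤ b)
    (hW : ∀ p : ℕ, p < W → (p : ℝ) ≤ Real.exp b) (hE : 0 < E) (hM : E ≤ (M : ℝ) + 1) :
    ‖(∏ p ∈ Nat.primesBelow W, (1 - (p : ℂ) ^ (-((1 : ℂ) + (h : ℂ) * Complex.I)))⁻¹) -
      SM W M h‖ ≤ E ^ (-(1 / (2 * b))) *
        Real.exp (10 * ∑ p ∈ Nat.primesBelow W, (1 : ℝ) / p) := by
  have hb0 : 0 < b := by linarith
  obtain ⟨σ, hσ⟩ : ∃ σ, σ = 1 / (2 * b) := ⟨_, rfl⟩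
  have hσ0 : 0 < σ := by rw [hσ]; positivity
  have hσ1 : σ ≤ 1 / 2 := by
    rw [hσ]
    exact one_div_le_one_div_of_le (by norm_num) (by linarith)
  have h1 := hasSum_fC W h
  have h2 := hasSum_fR W (a := 1 - σ) (by linarith)
  rw [← hσ]
  rw [← h1.tsum_eq, ← h1.summable.sum_add_tsum_nat_add (M + 1)]
  unfold SM
  rw [add_sub_cancel_left]
  have h3 : ∀ n : ℕ, ‖Set.indicator (Nat.smoothNumbers W)
      (fun n => (n : ℂ) ^ (-((1 : ℂ) + (h : ℂ) * Complex.I))) (n + (M + 1))‖ ≤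
      E ^ (-σ) * Set.indicator (Nat.smoothNumbers W) (fun n => (n : ℝ) ^ (-(1 - σ)))
        (n + (M + 1)) := by
    intro n
    by_cases hn : n + (M + 1) ∈ Nat.smoothNumbers W
    · rw [Set.indicator_of_mem hn, Set.indicator_of_mem hn, norm_fC h (by omega)]
      have hpos : (0 : ℝ) < ((n + (M + 1) : ℕ) : ℝ) := by
        have : 0 < n + (M + 1) := by omega
        exact_mod_cast this
      have hEn : E ≤ ((n + (M + 1) : ℕ) : ℝ) := by
        push_cast
        have : (0 : ℝ) ≤ n := Nat.cast_nonneg n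
        linarith
      have e1 : (1 : ℝ) / ((n + (M + 1) : ℕ) : ℝ) =
          ((n + (M + 1) : ℕ) : ℝ) ^ (-σ) * ((n + (M + 1) : ℕ) : ℝ) ^ (-(1 - σ)) := by
        rw [← Real.rpow_add hpos, show -σ + -(1 - σ) = -1 by ring, Real.rpow_neg_one, one_div]
      rw [e1]
      refine mul_le_mul_of_nonneg_right ?_ (Real.rpow_nonneg hpos.le _)
      exact Real.rpow_le_rpow_of_nonpos hE hEn (by linarith)
    · rw [Set.indicator_of_notMem hn, Set.indicator_of_notMem hn, norm_zero, mul_zero]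
  have h4 : Summable fun n : ℕ => E ^ (-σ) * Set.indicator (Nat.smoothNumbers W)
      (fun n => (n : ℝ) ^ (-(1 - σ))) (n + (M + 1)) :=
    ((summable_nat_add_iff (M + 1)).2 h2.summable).mul_left _
  refine (norm_tsum_le_tsum_norm (Summable.of_nonneg_of_le (fun _ => norm_nonneg _) h3 h4)).trans ?_
  refine (Summable.tsum_le_tsum h3 (Summable.of_nonneg_of_le (fun _ => norm_nonneg _) h3 h4)
    h4).trans ?_
  rw [tsum_mul_left]
  refine mul_le_mul_of_nonneg_left ?_ (Real.rpow_nonneg hE.le _)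
  have h5 : ∑' n : ℕ, Set.indicator (Nat.smoothNumbers W) (fun n => (n : ℝ) ^ (-(1 - σ)))
      (n + (M + 1)) ≤ ∑' n : ℕ, Set.indicator (Nat.smoothNumbers W)
      (fun n => (n : ℝ) ^ (-(1 - σ))) n := by
    rw [← h2.summable.sum_add_tsum_nat_add (M + 1)]
    refine le_add_of_nonneg_left (Finset.sum_nonneg fun n _ => ?_)
    exact Set.indicator_nonneg (fun n _ => Real.rpow_nonneg (Nat.cast_nonneg n) _) n
  refine h5.trans ?_
  rw [h2.tsum_eq, hσ]
  exact prod_rankin W hb0 hW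

/-- mean value of the truncated series -/
theorem SM_mean (W M : ℕ) {x : ℝ} (hx : 1 ≤ x) :
    ∫ h in (1 : ℝ)..x, ‖SM W M h‖ ^ 2 ≤
      x * (∏ p ∈ Nat.primesBelow W, (1 - 1 / (p : ℝ) ^ 2)⁻¹) +
        6 * (1 + Real.log M) * Real.exp (2 * ∑ p ∈ Nat.primesBelow W, (1 : ℝ) / p) := by
  have e0 : ∀ h : ℝ, SM W M h = ∑ n ∈ Finset.Icc 1 M,
      (Set.indicator (Nat.smoothNumbers W) (fun n : ℕ => ((1 / (n : ℝ) : ℝ) : ℂ)) n) *
        (n : ℂ) ^ (-(Complex.I * (h : ℂ))) := by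
    intro h
    unfold SM
    have e1 : Finset.range (M + 1) = insert 0 (Finset.Icc 1 M) := by
      ext n
      rw [Finset.mem_insert, Finset.mem_range, Finset.mem_Icc]
      omega
    rw [e1, Finset.sum_insert (by simp), Set.indicator_of_notMem, zero_add]
    · refine Finset.sum_congr rfl fun n hn => ?_
      have hn0 : n ≠ 0 := by
        have := (Finset.mem_Icc.1 hn).1
        omega
      by_cases hs : n ∈ Nat.smoothNumbers W
      · rw [Set.indicator_of_mem hs, Set.indicator_of_mem hs]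
        have hn1 : (n : ℂ) ≠ 0 := by exact_mod_cast hn0
        rw [neg_add, Complex.cpow_add _ _ hn1, Complex.cpow_neg_one, mul_comm (h : ℂ)]
        push_cast
        rw [one_div]
      · rw [Set.indicator_of_notMem hs, Set.indicator_of_notMem hs, zero_mul]
    · intro h0
      exact Nat.ne_zero_of_mem_smoothNumbers h0 rfl
  have e2 := Pool.Agent.Y96.SX.mv M x hx (fun n => Set.indicator (Nat.smoothNumbers W)
    (fun n : ℕ => ((1 / (n : ℝ) : ℝ) : ℂ)) n)
  simp only [e0]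
  refine e2.trans ?_
  have hnorm : ∀ n : ℕ, ‖Set.indicator (Nat.smoothNumbers W)
      (fun n : ℕ => ((1 / (n : ℝ) : ℝ) : ℂ)) n‖ =
      Set.indicator (Nat.smoothNumbers W) (fun n : ℕ => 1 / (n : ℝ)) n := by
    intro n
    by_cases hs : n ∈ Nat.smoothNumbers W
    · rw [Set.indicator_of_mem hs, Set.indicator_of_mem hs, Complex.norm_real,
        Real.norm_of_nonneg (by positivity)]
    · rw [Set.indicator_of_notMem hs, Set.indicator_of_notMem hs, norm_zero]
  simp only [hnorm]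
  refine add_le_add (mul_le_mul_of_nonneg_left ?_ (by linarith)) ?_
  · have h2 := hasSum_fR W (a := 2) two_pos
    have e3 : (∏ p ∈ Nat.primesBelow W, (1 - 1 / (p : ℝ) ^ 2)⁻¹) =
        ∏ p ∈ Nat.primesBelow W, (1 - (p : ℝ) ^ (-(2 : ℝ)))⁻¹ := by
      refine Finset.prod_congr rfl fun p _ => ?_
      rw [Real.rpow_neg (Nat.cast_nonneg p), one_div]
      norm_cast
    rw [e3, ← h2.tsum_eq]
    refine le_trans (le_of_eq ?_) (h2.summable.sum_le_tsum (Finset.Icc 1 M) fun n _ =>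
      Set.indicator_nonneg (fun n _ => Real.rpow_nonneg (Nat.cast_nonneg n) _) n)
    refine Finset.sum_congr rfl fun n _ => ?_
    by_cases hs : n ∈ Nat.smoothNumbers W
    · rw [Set.indicator_of_mem hs, Set.indicator_of_mem hs, Real.rpow_neg (Nat.cast_nonneg n),
        one_div, inv_pow]
      norm_cast
    · rw [Set.indicator_of_notMem hs, Set.indicator_of_notMem hs]
      simp
  · have h1 : ∑ k ∈ Finset.Icc 1 M, (1 : ℝ) / k ≤ 1 + Real.log M := by
      have := harmonic_le_one_add_log M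
      rw [harmonic_eq_sum_Icc] at this
      push_cast at this
      simpa only [one_div] using this
    have h2 := hasSum_fR W (a := 1) one_pos
    have h3 : ∑ n ∈ Finset.Icc 1 M, (n : ℝ) *
        (Set.indicator (Nat.smoothNumbers W) (fun n : ℕ => 1 / (n : ℝ)) n) ^ 2 ≤
        Real.exp (2 * ∑ p ∈ Nat.primesBelow W, (1 : ℝ) / p) := by
      refine le_trans ?_ (prod_one W)
      rw [← h2.tsum_eq]
      refine le_trans (le_of_eq ?_) (h2.summable.sum_le_tsum (Finset.Icc 1 M) fun n _ =>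
        Set.indicator_nonneg (fun n _ => Real.rpow_nonneg (Nat.cast_nonneg n) _) n)
      refine Finset.sum_congr rfl fun n hn => ?_
      have hn0 : (n : ℝ) ≠ 0 := by
        have := (Finset.mem_Icc.1 hn).1
        have : n ≠ 0 := by omega
        exact_mod_cast this
      by_cases hs : n ∈ Nat.smoothNumbers W
      · rw [Set.indicator_of_mem hs, Set.indicator_of_mem hs, Real.rpow_neg_one]
        field_simp
      · rw [Set.indicator_of_notMem hs, Set.indicator_of_notMem hs]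
        simp
    have h4 : 0 ≤ ∑ k ∈ Finset.Icc 1 M, (1 : ℝ) / k := Finset.sum_nonneg fun _ _ => by positivity
    have h5 : 0 ≤ ∑ n ∈ Finset.Icc 1 M, (n : ℝ) *
        (Set.indicator (Nat.smoothNumbers W) (fun n : ℕ => 1 / (n : ℝ)) n) ^ 2 :=
      Finset.sum_nonneg fun _ _ => by positivity
    exact mul_le_mul (by linarith) h3 h5 (by linarith)

end Pool.Agent.Q61.EW
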