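import Pool.Agent.Q61.EW.EXCc
import Pool.Agent.Q251.EW.DIF

/-! Job CMP of the project EWX of helper80. -/

set_option autoImplicit false

namespace Pool.Agent.Q61.EW

open Filter Topology Finset Pool.Agent.Q80.EW MeasureTheory

theorem eT_zero (l : ℕ) : eT l 0 = 1 := by
  unfold eT
  rw [Finset.sum_eq_single 0]
  · simp
  · intro k _ hk
    rw [zero_pow hk, zero_div]
  · intro h
    exact absurd (Finset.mem_range.2 (by omega)) h

theorem PV_zero (Z : ℕ) (t : ℝ) : PV Z 0 t = 0 := by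
  unfold PV
  simp

theorem GG_lo' (Z : ℕ) (a : ℝ) : GG 0 0 Z 0 (lo a) 0 = ex (lo a) := by
  unfold GG
  rw [pow_zero, pow_zero, one_mul, one_mul, sh_zero, ← ex_add, add_zero]

/-- `Λ² exp(-2δ√Λ)` is small -/
theorem small_pow (δ c : ℝ) (hδ : 0 < δ) (hc : 0 < c) : ∀ᶠ T : ℝ in atTop,
    La T ^ 2 * Real.exp (-(2 * δ * Real.sqrt (La T))) ≤ c := by
  have hsq : Tendsto (fun T => 2 * δ * Real.sqrt (La T)) atTop atTop :=
    (Real.tendsto_sqrt_atTop.comp tendsto_La).const_mul_atTop (by positivity)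
  have hev1 : ∀ᶠ T : ℝ in atTop, (2 * δ * Real.sqrt (La T)) ^ 4 *
      Real.exp (-(2 * δ * Real.sqrt (La T))) ≤ 16 * δ ^ 4 * c :=
    ((Real.tendsto_pow_mul_exp_neg_atTop_nhds_zero 4).comp hsq).eventually_le_const
      (by positivity)
  filter_upwards [hev1, tendsto_La.eventually_ge_atTop 1] with T h1 h2
  have h3 : (2 * δ * Real.sqrt (La T)) ^ 4 = 16 * δ ^ 4 * La T ^ 2 := by
    have e1 : Real.sqrt (La T) ^ 2 = La T := Real.sq_sqrt (by linarith)
    calc (2 * δ * Real.sqrt (La T)) ^ 4 = 16 * δ ^ 4 * (Real.sqrt (La T) ^ 2) ^ 2 := by ring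
      _ = 16 * δ ^ 4 * La T ^ 2 := by rw [e1]
  rw [h3, mul_assoc] at h1
  exact le_of_mul_le_mul_left h1 (by positivity)

theorem Yt_nonneg {T : ℝ} (h : 1 ≤ La T) : 0 ≤ Yt T := by
  unfold Yt
  have h1 : Real.log (La T) ≤ La T / 2 := by
    have h2 : Real.log (La T / 2) ≤ La T / 2 - 1 := Real.log_le_sub_one_of_pos (by linarith)
    have h3 : Real.log (La T) = Real.log (La T / 2) + Real.log 2 := by
      rw [← Real.log_mul (by linarith) (by norm_num)]
      congr 1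
      ring
    have h4 : Real.log 2 ≤ 1 := by
      have := Real.log_le_sub_one_of_pos (show (0 : ℝ) < 2 by norm_num)
      linarith
    linarith
  linarith

/-- the pointwise comparison -/
theorem cmp_pt {z b D P E : ℂ} {L ex2 V lam xs ds X : ℝ} (hb : ‖b‖ ≤ 2 * ‖D‖) (hL : 0 < L)
    (hX : X = P.re - V) (hE : ‖P‖ ≤ lam → Real.exp (2 * P.re) ≤ 2 * ‖E‖ ^ 2)
    (hex : ex2 = Real.exp xs * L)
    (hA : (‖z‖ ≤ ex2 ∧ xs + ds < X) ∨ (ex2 < ‖z‖ ∧ X ≤ xs - ds)) :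
    (lam < ‖P‖ ∧ ‖z‖ ^ 2 ≤ 4 * ‖z - b‖ ^ 2 + 8 * ‖D‖ ^ 2) ∨
    (‖P‖ ≤ lam ∧ X ≤ xs - ds ∧ ‖z‖ ^ 2 ≤ 4 * ‖z - b‖ ^ 2 + 256 / ex2 ^ 2 * (‖D‖ ^ 2 * ‖D‖ ^ 2)) ∨
    (‖z‖ ^ 2 ≤ 2 * L ^ 2 * Real.exp (-(2 * V) - 2 * ds) * ‖E‖ ^ 2) := by
  have hex0 : 0 < ex2 := by rw [hex]; positivity
  have hz : ‖z‖ ≤ ‖z - b‖ + ‖b‖ := by
    have := norm_add_le (z - b) b
    rwa [sub_add_cancel] at this
  have h0 := norm_nonneg z
  have h1 := norm_nonneg (z - b)
  have h2 := norm_nonneg D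
  have h3 := norm_nonneg b
  by_cases hP : lam < ‖P‖
  · left
    refine ⟨hP, ?_⟩
    have e1 : ‖z‖ ≤ ‖z - b‖ + 2 * ‖D‖ := by linarith
    have e2 : ‖z‖ ^ 2 ≤ (‖z - b‖ + 2 * ‖D‖) ^ 2 := pow_le_pow_left₀ h0 e1 2
    nlinarith [sq_nonneg (‖z - b‖ - 2 * ‖D‖), sq_nonneg ‖z - b‖]
  · push Not at hP
    right
    rcases hA with ⟨hA1, hA2⟩ | ⟨hA1, hA2⟩
    · right
      have e1 := hE hP
      have e2 : ‖z‖ ^ 2 ≤ ex2 ^ 2 := pow_le_pow_left₀ h0 hA1 2
      have e3 : ex2 ^ 2 = L ^ 2 * Real.exp (2 * xs) := by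
        rw [hex, mul_pow, ← Real.exp_nat_mul]
        push_cast
        ring
      have e4 : Real.exp (2 * xs) ≤ Real.exp (-(2 * V) - 2 * ds) * Real.exp (2 * P.re) := by
        rw [← Real.exp_add]
        refine Real.exp_le_exp.2 ?_
        rw [hX] at hA2
        linarith
      have e5 : Real.exp (-(2 * V) - 2 * ds) * Real.exp (2 * P.re) ≤
          Real.exp (-(2 * V) - 2 * ds) * (2 * ‖E‖ ^ 2) :=
        mul_le_mul_of_nonneg_left e1 (Real.exp_pos _).le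
      have e6 : L ^ 2 * Real.exp (2 * xs) ≤ L ^ 2 * (Real.exp (-(2 * V) - 2 * ds) * (2 * ‖E‖ ^ 2)) :=
        mul_le_mul_of_nonneg_left (e4.trans e5) (by positivity)
      calc ‖z‖ ^ 2 ≤ ex2 ^ 2 := e2
        _ = L ^ 2 * Real.exp (2 * xs) := e3
        _ ≤ _ := e6
        _ = _ := by ring
    · left
      refine ⟨hP, hA2, ?_⟩
      by_cases hzb : ‖z‖ ≤ 2 * ‖z - b‖
      · have e1 : ‖z‖ ^ 2 ≤ (2 * ‖z - b‖) ^ 2 := pow_le_pow_left₀ h0 hzb 2
        have e2 : 0 ≤ 256 / ex2 ^ 2 * (‖D‖ ^ 2 * ‖D‖ ^ 2) := by positivity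
        nlinarith
      · push Not at hzb
        have e1 : ‖z‖ ≤ 4 * ‖D‖ := by linarith
        have e2 : ‖z‖ ^ 2 ≤ 16 * ‖D‖ ^ 2 := by
          have := pow_le_pow_left₀ h0 e1 2
          nlinarith
        have e3 : ex2 ^ 2 ≤ 16 * ‖D‖ ^ 2 := by
          have := pow_le_pow_left₀ hex0.le (hA1.le.trans e1) 2
          nlinarith
        have e4 : 16 * ‖D‖ ^ 2 ≤ 256 / ex2 ^ 2 * (‖D‖ ^ 2 * ‖D‖ ^ 2) := by
          rw [div_mul_eq_mul_div, le_div_iff₀ (by positivity)]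
          have := mul_le_mul_of_nonneg_left e3 (show 0 ≤ 16 * ‖D‖ ^ 2 by positivity)
          nlinarith
        have e5 : 0 ≤ 4 * ‖z - b‖ ^ 2 := by positivity
        linarith

theorem t_CMP (hA1 : J_AP1) (hDD : J_DD) (hNR : J_NR) (hEXC : J_EXC) (hFF : J_FF) (hET : J_ET)
    (hV : J_MV) (hE : J_EXP) (hCH : J_CHERN) (hEU : J_EU) (hMT : J_MERT) : J_CMP := by
  obtain ⟨C1, hC1, hA1⟩ := hA1
  obtain ⟨CN, hCN, hNR⟩ := hNR
  obtain ⟨CV, hCV, hV⟩ := hV
  obtain ⟨CH, hCH0, hCH⟩ := hCH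
  obtain ⟨CE, hCE, hEU⟩ := hEU
  obtain ⟨CM, hMT⟩ := hMT
  refine ⟨4 * C1 + 3, by positivity, ?_⟩
  intro η hη0 hη x δ hδ
  obtain ⟨K3, hK3⟩ : ∃ K : ℝ, K = (3 + CV) * CH := ⟨_, rfl⟩
  have hK30 : 0 < K3 := by rw [hK3]; positivity
  have hel : Tendsto el atTop atTop := by
    unfold el
    exact tendsto_nat_ceil_atTop.comp (tendsto_La.const_mul_atTop (by norm_num))
  filter_upwards [hA1 η hη0 hη, hDD η hη0 hη, hNR η hη0 hη, hEXC η hη0 hη, hFF η hη0 hη,
    hel.eventually hET, grow 1 (show (0 : ℝ) < 1 by norm_num), eventually_gt_atTop 1,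
    tendsto_La.eventually_ge_atTop 1, small_pow δ (η / (2 * K3 * Real.exp (2 * CM))) hδ (by positivity),
    small_pow δ (η / (256 * CN)) hδ (by positivity),
    Real.tendsto_log_atTop.eventually_ge_atTop (8 / η), Real.tendsto_log_atTop.eventually_ge_atTop 1]
    with T hA1 hDD hNR hEXC hFF hET hg hT hLa hs1 hs2 hL8 hL1
  have hT0 : 0 < T := by linarith
  have hLa0 : 0 < La T := by linarith
  have hTT : T ≤ 4 * T := by linarith
  have hY0 := Yt_nonneg hLa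
  obtain ⟨d1, d2, d3⟩ := hDD
  have a1 := hA1 (dd η T) d1 d2 d3
  obtain ⟨L, hL⟩ : ∃ L, L = Real.log T := ⟨_, rfl⟩
  rw [← hL] at a1 hL8 hL1 hNR hEXC ⊢
  have hL0 : 0 < L := by linarith
  have hLe : L = Real.exp (La T) := by rw [hL]; exact log_eq hT
  obtain ⟨Y, hY⟩ : ∃ Y, Y = Yt T := ⟨_, rfl⟩
  rw [← hY] at hY0 hg hNR hEXC hFF ⊢
  have heY : Real.exp Y = L / La T ^ 2 := by rw [hY, exp_Yt hLa0, hLe]
  obtain ⟨s, hs⟩ : ∃ s, s = Real.sqrt (La T) := ⟨_, rfl⟩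
  rw [← hs] at hs1 hs2 ⊢
  obtain ⟨l, hl⟩ : ∃ l, l = el T := ⟨_, rfl⟩
  rw [← hl] at hET hg
  have hl2 : 400 * La T ≤ (l : ℝ) := by rw [hl]; exact le_el
  obtain ⟨Z, hZ⟩ : ∃ Z, Z = zc Y := ⟨_, rfl⟩
  have hZ1 : 1 ≤ Z := by
    have := two_le_zc Y
    omega
  -- continuity
  have hDc : Continuous (Dp η T) := Pool.Agent.Q251.EW.Dp_cont hE η T
  have hPc : Continuous (PP Y) := Pool.Agent.Q251.EW.PP_cont Y
  have hXc : Continuous (XX Y) := Pool.Agent.Q251.EW.XX_cont Y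
  obtain ⟨B, hB⟩ : ∃ B : ℝ → ℂ, B = fun u => Dp η T u + chi u * (starRingEnd ℂ) (Dp η T u) :=
    ⟨_, rfl⟩
  have hBc : Continuous B := by
    rw [hB]
    exact hDc.add (Pool.Agent.Q251.EW.chi_cont.mul (Complex.continuous_conj.comp hDc))
  have hBn : ∀ t, ‖B t‖ ≤ 2 * ‖Dp η T t‖ := by
    intro t
    rw [hB]
    refine (norm_add_le _ _).trans ?_
    rw [norm_mul, Pool.Agent.Q251.EW.chi_norm, one_mul, RCLike.norm_conj]
    linarith
  have a1' : ∫ t in T..(4 * T), ‖ze t - B t‖ ^ 2 ≤ C1 * η * T * L := by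
    refine le_trans (le_of_eq ?_) a1
    congr 1
    funext t
    rw [hB]
    simp only [Dp]
    rw [sub_sub]
  -- the exceptional part
  have hW0 : Wt (zc (Yt T)) 0 := fun p => by simp
  have a2 := hEXC 1 0 0 Y 0 0 le_rfl (by norm_num) hY0 le_rfl (fun p => by simp)
    (fun p => by simp) (by rw [hY]; exact hW0) (by rw [hY]; exact hW0)
  have hFd := (hFF.2 1 0 0 0 0 le_rfl (by norm_num) (by rw [hY]; exact hW0)
    (by rw [hY]; exact hW0)).2.1
  have hFd' : (fun t => ‖dp (FF η T 1 0 0 0 0) t‖ ^ 2) = fun t => ‖Dp η T t‖ ^ 2 := by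
    funext t
    rw [hFd t, PV_zero, PV_zero, eT_zero, pow_one, pow_zero, mul_one, mul_one, mul_one]
  rw [hFd'] at a2
  -- the fourth moment
  have a4 := hNR Y Y 0 ((x - δ) * s) hY0 le_rfl le_rfl le_rfl zero_le_one (Or.inr rfl)
  -- the exponential
  have hlo : Wt Z (lo Y) := Wt_lo (by rw [hZ])
  have hEl := hE Z l (lo Y) hZ1 hlo
  have hEU1 := hEU 0 0 Z 0 (lo Y) 0 (by norm_num) (by norm_num) hlo (fun p => by simp)
  have hCHa := hCH Y hY0
  rw [← hZ] at hCHa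
  have hDex : Dom (ex (lo Y)) (GG 0 0 Z 0 (lo Y) 0) := by
    rw [GG_lo']
    exact Dom_ex _ _ fun p => by rw [abs_of_nonneg (lo_nonneg Y p).1]
  have hn2 : nm (tr l (ex (lo Y))) ≤ CH * Real.exp Y := (nm_dom (hDex.tr l) hEU1.1).trans hCHa
  have a3 : ∫ t in T..(4 * T), ‖dp (tr l (ex (lo Y))) t‖ ^ 2 ≤ K3 * T * Real.exp Y := by
    have h1 := (abs_le.1 (hV _ _ hEl.1 T (4 * T) hTT)).2
    have h2 : ((Z ^ l : ℕ) : ℝ) ≤ T := by
      have := hg Y (by rw [hY])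
      rw [one_mul, Real.rpow_one, ← hZ] at this
      exact_mod_cast this
    have h3 := nm_nonneg (tr l (ex (lo Y)))
    have h4 : CV * ((Z ^ l : ℕ) : ℝ) * nm (tr l (ex (lo Y))) ≤ CV * T * nm (tr l (ex (lo Y))) :=
      mul_le_mul_of_nonneg_right (mul_le_mul_of_nonneg_left h2 hCV.le) h3
    have h5 : (3 + CV) * T * nm (tr l (ex (lo Y))) ≤ (3 + CV) * T * (CH * Real.exp Y) :=
      mul_le_mul_of_nonneg_left hn2 (by positivity)
    have h6 : (3 + CV) * T * (CH * Real.exp Y) = K3 * T * Real.exp Y := by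
      rw [hK3]
      ring
    linarith
  -- the pointwise bound
  obtain ⟨Ka, hKa⟩ : ∃ K : ℝ, K = 2 * L ^ 2 * Real.exp (-(2 * VV Y) - 2 * (δ * s)) := ⟨_, rfl⟩
  obtain ⟨Kb, hKb⟩ : ∃ K : ℝ, K = 256 / (Real.exp (x * s) * L) ^ 2 := ⟨_, rfl⟩
  have hKa0 : 0 ≤ Ka := by rw [hKa]; positivity
  have hKb0 : 0 ≤ Kb := by rw [hKb]; positivity
  obtain ⟨SE, hSE⟩ : ∃ S : Set ℝ, S = {t | 40 * La T < ‖PP Y t‖ ∨ 40 * La T < ‖PP Y (t + 0)‖} :=
    ⟨_, rfl⟩
  obtain ⟨SF, hSF⟩ : ∃ S : Set ℝ, S = {t | XX Y t ≤ (x - δ) * s ∧ ‖PP Y t‖ ≤ 40 * La T} :=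
    ⟨_, rfl⟩
  rw [← hSE] at a2
  rw [← hSF] at a4
  have hmSE : MeasurableSet SE := by
    rw [hSE]
    have h1 : Continuous fun t => ‖PP Y t‖ := hPc.norm
    have h2 : Continuous fun t => ‖PP Y (t + 0)‖ := (hPc.comp (continuous_id.add continuous_const)).norm
    exact ((isOpen_lt continuous_const h1).union (isOpen_lt continuous_const h2)).measurableSet
  have hmSF : MeasurableSet SF := by
    rw [hSF]
    exact ((isClosed_le hXc continuous_const).inter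
      (isClosed_le hPc.norm continuous_const)).measurableSet
  have hpt : ∀ t : ℝ, Set.indicator {s_1 | (‖ze s_1‖ ≤ Real.exp (x * s) * L ∧
      (x + δ) * s < XX Y s_1) ∨ (Real.exp (x * s) * L < ‖ze s_1‖ ∧ XX Y s_1 ≤ (x - δ) * s)}
      (fun s => ‖ze s‖ ^ 2) t ≤ (4 * ‖ze t - B t‖ ^ 2 + 8 * SE.indicator (fun t => ‖Dp η T t‖ ^ 2) t) +
        (Ka * ‖dp (tr l (ex (lo Y))) t‖ ^ 2 +
        Kb * SF.indicator (fun t => ‖Dp η T t‖ ^ 2 * ‖Dp η T (t + 0)‖ ^ 2) t) := by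
    intro t
    have n1 : 0 ≤ 4 * ‖ze t - B t‖ ^ 2 := by positivity
    have n2 : 0 ≤ 8 * SE.indicator (fun t => ‖Dp η T t‖ ^ 2) t :=
      mul_nonneg (by norm_num) (Set.indicator_nonneg (fun t _ => by positivity) t)
    have n3 : 0 ≤ Ka * ‖dp (tr l (ex (lo Y))) t‖ ^ 2 := by positivity
    have n4 : 0 ≤ Kb * SF.indicator (fun t => ‖Dp η T t‖ ^ 2 * ‖Dp η T (t + 0)‖ ^ 2) t :=
      mul_nonneg hKb0 (Set.indicator_nonneg (fun t _ => by positivity) t)
    by_cases ht : t ∈ {s_1 | (‖ze s_1‖ ≤ Real.exp (x * s) * L ∧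
      (x + δ) * s < XX Y s_1) ∨ (Real.exp (x * s) * L < ‖ze s_1‖ ∧ XX Y s_1 ≤ (x - δ) * s)}
    · rw [Set.indicator_of_mem ht]
      have hEb : ‖PP Y t‖ ≤ 40 * La T →
          Real.exp (2 * (PP Y t).re) ≤ 2 * ‖dp (tr l (ex (lo Y))) t‖ ^ 2 := by
        intro hP
        rw [(hEl.2.2.2 t).1, PV_lo (by rw [hZ])]
        have e1 := hET (PP Y t) (by linarith)
        have e2 := (abs_le.1 e1).1
        have e3 : Real.exp (-(l : ℝ)) ≤ 1 / 2 := by
          have e4 : Real.exp (-(l : ℝ)) ≤ Real.exp (-1) := Real.exp_le_exp.2 (by linarith)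
          refine e4.trans ?_
          rw [Real.exp_neg, inv_le_comm₀ (Real.exp_pos _) (by norm_num)]
          have := Real.add_one_le_exp (1 : ℝ)
          norm_num
          linarith
        have e5 : Real.exp (-(l : ℝ)) * Real.exp (2 * (PP Y t).re) ≤
            1 / 2 * Real.exp (2 * (PP Y t).re) :=
          mul_le_mul_of_nonneg_right e3 (Real.exp_pos _).le
        linarith
      have hAA : (‖ze t‖ ≤ Real.exp (x * s) * L ∧ x * s + δ * s < XX Y t) ∨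
          (Real.exp (x * s) * L < ‖ze t‖ ∧ XX Y t ≤ x * s - δ * s) := by
        rcases ht with ⟨h1, h2⟩ | ⟨h1, h2⟩
        · left
          exact ⟨h1, by linarith⟩
        · right
          exact ⟨h1, by linarith⟩
      rcases cmp_pt (P := PP Y t) (hBn t) hL0 rfl hEb rfl hAA with ⟨hP, hz⟩ | ⟨hP, hX, hz⟩ | hz
      · have hmem : t ∈ SE := by
          rw [hSE]
          exact Or.inl hP
        rw [Set.indicator_of_mem hmem] at n2 ⊢
        linarith
      · have hmem : t ∈ SF := by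
          rw [hSF]
          have hXX : XX Y t = (PP Y t).re - VV Y := rfl
          exact ⟨by linarith, hP⟩
        rw [Set.indicator_of_mem hmem] at n4 ⊢
        rw [add_zero] at n4 ⊢
        rw [← hKb] at hz
        linarith
      · rw [← hKa] at hz
        linarith
    · rw [Set.indicator_of_notMem ht]
      linarith
  -- integrate
  have c1 : Continuous fun t => 4 * ‖ze t - B t‖ ^ 2 :=
    continuous_const.mul ((Pool.Agent.Q251.EW.ze_cont.sub hBc).norm.pow 2)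
  have c3 : Continuous fun t => Ka * ‖dp (tr l (ex (lo Y))) t‖ ^ 2 :=
    continuous_const.mul ((dp_cont hEl.1).norm.pow 2)
  have c2 : Continuous fun t => ‖Dp η T t‖ ^ 2 := hDc.norm.pow 2
  have c4 : Continuous fun t => ‖Dp η T t‖ ^ 2 * ‖Dp η T (t + 0)‖ ^ 2 :=
    c2.mul ((hDc.comp (continuous_id.add continuous_const)).norm.pow 2)
  have i1 : IntervalIntegrable (fun t => 4 * ‖ze t - B t‖ ^ 2) volume T (4 * T) :=
    c1.intervalIntegrable _ _
  have i2 : IntervalIntegrable (fun t => 8 * SE.indicator (fun t => ‖Dp η T t‖ ^ 2) t)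
      volume T (4 * T) := by
    refine IntervalIntegrable.const_mul ?_ 8
    rw [intervalIntegrable_iff]
    exact (intervalIntegrable_iff.1 (c2.intervalIntegrable T (4 * T))).indicator hmSE
  have i3 : IntervalIntegrable (fun t => Ka * ‖dp (tr l (ex (lo Y))) t‖ ^ 2) volume T (4 * T) :=
    c3.intervalIntegrable _ _
  have i4 : IntervalIntegrable (fun t => Kb * SF.indicator
      (fun t => ‖Dp η T t‖ ^ 2 * ‖Dp η T (t + 0)‖ ^ 2) t) volume T (4 * T) := by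
    refine IntervalIntegrable.const_mul ?_ Kb
    rw [intervalIntegrable_iff]
    exact (intervalIntegrable_iff.1 (c4.intervalIntegrable T (4 * T))).indicator hmSF
  have hstep : ∫ t in T..(4 * T), Set.indicator {s_1 | (‖ze s_1‖ ≤ Real.exp (x * s) * L ∧
      (x + δ) * s < XX Y s_1) ∨ (Real.exp (x * s) * L < ‖ze s_1‖ ∧ XX Y s_1 ≤ (x - δ) * s)}
      (fun s => ‖ze s‖ ^ 2) t ≤ ∫ t in T..(4 * T),
        ((4 * ‖ze t - B t‖ ^ 2 + 8 * SE.indicator (fun t => ‖Dp η T t‖ ^ 2) t) +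
        (Ka * ‖dp (tr l (ex (lo Y))) t‖ ^ 2 +
        Kb * SF.indicator (fun t => ‖Dp η T t‖ ^ 2 * ‖Dp η T (t + 0)‖ ^ 2) t)) := by
    rw [intervalIntegral.integral_of_le hTT, intervalIntegral.integral_of_le hTT]
    refine integral_mono_of_nonneg (Eventually.of_forall fun t =>
      Set.indicator_nonneg (fun t _ => by positivity) t) ?_ (Eventually.of_forall hpt)
    exact ((i1.add i2).add (i3.add i4)).1
  refine hstep.trans ?_
  rw [intervalIntegral.integral_add (i1.add i2) (i3.add i4), intervalIntegral.integral_add i1 i2,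
    intervalIntegral.integral_add i3 i4, intervalIntegral.integral_const_mul,
    intervalIntegral.integral_const_mul, intervalIntegral.integral_const_mul,
    intervalIntegral.integral_const_mul]
  -- sizes
  have b2 : T / L ≤ η / 8 * T * L := by
    rw [div_le_iff₀ hL0]
    have h1 : 8 ≤ η * L := by
      rw [div_le_iff₀ hη0] at hL8
      linarith
    have h2 : 1 ≤ η / 8 * L := by linarith
    have h3 : 1 ≤ η / 8 * L * L := by nlinarith
    nlinarith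
  have hVV := (abs_le.1 (hMT Y hY0)).1
  have b3 : Ka * (K3 * T * Real.exp Y) ≤ η * T * L := by
    have h1 : Real.exp (-(2 * VV Y) - 2 * (δ * s)) ≤
        Real.exp (2 * CM) * Real.exp (-(2 * Y)) * Real.exp (-(2 * δ * s)) := by
      rw [← Real.exp_add, ← Real.exp_add]
      exact Real.exp_le_exp.2 (by linarith)
    have h2 : Real.exp (-(2 * Y)) * Real.exp Y = La T ^ 2 / L := by
      rw [← Real.exp_add, show -(2 * Y) + Y = -Y by ring, Real.exp_neg, heY, inv_div]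
    calc Ka * (K3 * T * Real.exp Y) ≤ (2 * L ^ 2 * (Real.exp (2 * CM) * Real.exp (-(2 * Y)) *
          Real.exp (-(2 * δ * s)))) * (K3 * T * Real.exp Y) := by
          rw [hKa]
          refine mul_le_mul_of_nonneg_right ?_ (by positivity)
          exact mul_le_mul_of_nonneg_left h1 (by positivity)
      _ = (2 * K3 * Real.exp (2 * CM)) * T * L ^ 2 * (Real.exp (-(2 * Y)) * Real.exp Y) *
          Real.exp (-(2 * δ * s)) := by ring
      _ = (2 * K3 * Real.exp (2 * CM)) * T * L * (La T ^ 2 * Real.exp (-(2 * δ * s))) := by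
          rw [h2]
          field_simp
      _ ≤ (2 * K3 * Real.exp (2 * CM)) * T * L * (η / (2 * K3 * Real.exp (2 * CM))) :=
          mul_le_mul_of_nonneg_left hs1 (by positivity)
      _ = η * T * L := by field_simp
  have b4 : Kb * (CN * T * L ^ 2 * La T ^ 4 * Real.exp (Y + 2 * (Y - Y) + 2 * ((x - δ) * s))) ≤
      η * T * L := by
    have h1 : Real.exp (Y + 2 * (Y - Y) + 2 * ((x - δ) * s)) =
        Real.exp Y * Real.exp (x * s) ^ 2 * Real.exp (-(2 * δ * s)) := by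
      rw [← Real.exp_nat_mul, ← Real.exp_add, ← Real.exp_add]
      congr 1
      push_cast
      ring
    have h2 : Kb * (CN * T * L ^ 2 * La T ^ 4 * Real.exp (Y + 2 * (Y - Y) + 2 * ((x - δ) * s))) =
        (256 * CN) * T * L * (La T ^ 2 * Real.exp (-(2 * δ * s))) := by
      rw [h1, hKb, heY]
      have h3 : Real.exp (x * s) ≠ 0 := (Real.exp_pos _).ne'
      field_simp
    rw [h2]
    calc (256 * CN) * T * L * (La T ^ 2 * Real.exp (-(2 * δ * s))) ≤
        (256 * CN) * T * L * (η / (256 * CN)) := mul_le_mul_of_nonneg_left hs2 (by positivity)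
      _ = η * T * L := by field_simp
  have m3 := mul_le_mul_of_nonneg_left a3 hKa0
  have m4 := mul_le_mul_of_nonneg_left a4 hKb0
  have hLa4 : 0 ≤ η * T * L := by positivity
  linarith

end Pool.Agent.Q61.EW
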