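import Pool.Agent.Q61.EW.DIFxb
import Pool.Agent.Q151.EW.Conx

set_option autoImplicit false

/-!
# Project EWX, job DIFx: comparison of zeta and the main polynomial in windows, with the end point restricted
-/

namespace Pool.Agent.Q61.EW

open Filter Topology MeasureTheory
open Pool.Agent.Q80.EW Pool.Agent.Q251.EW
open Pool.Agent.Q16.EW (NE_closed)
open Pool.Agent.Q151.EW (EXc ind_int)

/-- off the exceptional set -/
theorem off_NE {η T t : ℝ} (h : ¬ NE T 1 t) : ‖Dp η T t‖ ^ 2 ≤ Eo η 0 T t := by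
  set F : ℝ → ℝ := fun t => ‖Dp η T t‖ ^ 2 +
    ((‖Dp η T t‖ * ‖eT (el T) (PVc (zc (Yt T)) (wc T 0) t)‖) ^ 2 +
      (‖Dp η T t‖ * ‖eT (el T) (PVc (zc (Yt T)) (wc T (-0)) t)‖) ^ 2) with hF
  have hF0 : ∀ t, 0 ≤ F t := fun t => by rw [hF]; positivity
  have hFl : ‖Dp η T t‖ ^ 2 ≤ F t := by
    rw [hF]
    have h1 := sq_nonneg (‖Dp η T t‖ * ‖eT (el T) (PVc (zc (Yt T)) (wc T 0) t)‖)
    have h2 := sq_nonneg (‖Dp η T t‖ * ‖eT (el T) (PVc (zc (Yt T)) (wc T (-0)) t)‖)
    show ‖Dp η T t‖ ^ 2 ≤ _ + (_ + _)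
    linarith
  have hEo : Eo η 0 T t = 3 * Real.exp (-(el T : ℝ)) * ‖Dp η T t‖ ^ 2 +
    (Set.indicator {t | 40 * La T < ‖PP 0 t‖} F t + Set.indicator {t | 40 * La T < ‖PP (Yt T) t‖} F t) := rfl
  have i0 : 0 ≤ Set.indicator {t | 40 * La T < ‖PP 0 t‖} F t := Set.indicator_nonneg (fun t _ => hF0 t) t
  have iY : 0 ≤ Set.indicator {t | 40 * La T < ‖PP (Yt T) t‖} F t := Set.indicator_nonneg (fun t _ => hF0 t) t
  have h3 : 0 ≤ 3 * Real.exp (-(el T : ℝ)) * ‖Dp η T t‖ ^ 2 := by positivity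
  rw [hEo]
  rcases not_NE h with h | h
  · have hm : t ∈ {t | 40 * La T < ‖PP 0 t‖} := h
    have h4 : Set.indicator {t | 40 * La T < ‖PP 0 t‖} F t = F t := Set.indicator_of_mem hm F
    linarith
  · have hm : t ∈ {t | 40 * La T < ‖PP (Yt T) t‖} := h
    have h4 : Set.indicator {t | 40 * La T < ‖PP (Yt T) t‖} F t = F t := Set.indicator_of_mem hm F
    linarith

/-- the end point restriction against the approximation -/
theorem EX_app {T x r A s : ℝ} {φ : ℝ → ℂ} (hsq : 0 < Real.sqrt (La T)) (h2 : 2 < r * Real.sqrt (La T))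
    (hφ2 : ∀ s, ‖φ s‖ ≤ 2) (hs : 0 ≤ s)
    (hg : ∀ z, |z| ≤ A → r ≤ |z - x| → ‖(if z ≤ x then (1 : ℂ) else 0) - φ z‖ ≤ s) (t : ℝ) :
    ‖Set.indicator (EX x T) (fun _ => (1 : ℂ)) t - φ (De T 1 0 t)‖ ≤
      s + 3 * Set.indicator {t | De T 1 0 t ∈ BS A r x} (fun _ => (1 : ℝ)) t := by
  have hX : De T 1 0 t * Real.sqrt (La T) = XX (Yt T) t - XX 0 t := by
    unfold De
    rw [div_mul_cancel₀ _ hsq.ne']
    simp
  have hx0 := abs_le.1 (XX0 t)
  by_cases hb : De T 1 0 t ∈ BS A r x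
  · have hm : t ∈ {t | De T 1 0 t ∈ BS A r x} := hb
    rw [Set.indicator_of_mem hm]
    have h1 : ‖Set.indicator (EX x T) (fun _ => (1 : ℂ)) t‖ ≤ 1 := by
      by_cases h : t ∈ EX x T
      · rw [Set.indicator_of_mem h]; simp
      · rw [Set.indicator_of_notMem h]; simp
    have := norm_sub_le (Set.indicator (EX x T) (fun _ => (1 : ℂ)) t) (φ (De T 1 0 t))
    have := hφ2 (De T 1 0 t)
    linarith
  · have hm : t ∉ {t | De T 1 0 t ∈ BS A r x} := hb
    rw [Set.indicator_of_notMem hm, mul_zero, add_zero]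
    unfold BS at hb
    simp only [Set.mem_setOf_eq, not_or, not_lt] at hb
    obtain ⟨hb1, hb2⟩ := hb
    have h3 := hg _ hb1 hb2
    have e : Set.indicator (EX x T) (fun _ => (1 : ℂ)) t = if De T 1 0 t ≤ x then (1 : ℂ) else 0 := by
      by_cases hle : De T 1 0 t ≤ x
      · rw [if_pos hle]
        apply Set.indicator_of_mem
        show XX (Yt T) t ≤ x * Real.sqrt (La T)
        have h4 : De T 1 0 t ≤ x - r := by
          rw [abs_of_nonpos (by linarith)] at hb2
          linarith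
        have h5 := mul_le_mul_of_nonneg_right h4 hsq.le
        rw [hX] at h5
        nlinarith [hx0.2]
      · rw [if_neg hle]
        apply Set.indicator_of_notMem
        intro hmem
        have h6 : XX (Yt T) t ≤ x * Real.sqrt (La T) := hmem
        rw [not_le] at hle
        have h4 : x + r ≤ De T 1 0 t := by
          rw [abs_of_pos (by linarith)] at hb2
          linarith
        have h5 := mul_le_mul_of_nonneg_right h4 hsq.le
        rw [hX] at h5
        nlinarith [hx0.1]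
    rw [e]
    exact h3

/-- the algebra of the pointwise comparison -/
theorem pt_alg {z D B s i : ℝ} {I φ : ℂ} {c : ℂ} (hz : 0 ≤ z) (hD : 0 ≤ D) (hB : B = 2 * D + 2 * c.re) (hc : ‖c‖ = D)
    (hs0 : 0 ≤ s) (hs : s ≤ 1) (hi : i = 0 ∨ i = 1) (hφ : ‖φ‖ ≤ 2) (h : ‖I - φ‖ ≤ s + 3 * i) :
    ‖I * ((z - 2 * D : ℝ) : ℂ) - φ * ((2 * c.re : ℝ) : ℂ)‖ ≤ 6 * |z - B| + (6 * s * D + 18 * (i * D)) := by
  have e1 : I * ((z - 2 * D : ℝ) : ℂ) - φ * ((2 * c.re : ℝ) : ℂ) =
      (I - φ) * ((z - 2 * D : ℝ) : ℂ) + φ * ((z - B : ℝ) : ℂ) := by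
    rw [hB]; push_cast; ring
  rw [e1]
  refine (norm_add_le _ _).trans ?_
  rw [norm_mul, norm_mul, Complex.norm_real, Complex.norm_real, Real.norm_eq_abs, Real.norm_eq_abs]
  have hcr : |c.re| ≤ D := hc ▸ Complex.abs_re_le_norm c
  have hB4 : B ≤ 4 * D := by
    have := (abs_le.1 hcr).2
    linarith
  have hg := le_abs_self (z - B)
  have hg0 := abs_nonneg (z - B)
  have h1 : |z - 2 * D| ≤ |z - B| + 6 * D := by
    rw [abs_le]; constructor <;> linarith
  have h0 : 0 ≤ |z - 2 * D| := abs_nonneg _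
  have h2 : ‖I - φ‖ * |z - 2 * D| ≤ (s + 3 * i) * (|z - B| + 6 * D) :=
    mul_le_mul h h1 h0 (by rcases hi with h | h <;> rw [h] <;> linarith)
  have h3 : ‖φ‖ * |z - B| ≤ 2 * |z - B| := mul_le_mul_of_nonneg_right hφ hg0
  have h4 : (s + 3 * i) * |z - B| ≤ 4 * |z - B| := by
    apply mul_le_mul_of_nonneg_right _ hg0
    rcases hi with h | h <;> rw [h] <;> linarith
  nlinarith

set_option maxHeartbeats 4000000 in
theorem t_DIFx (hA1 : J_AP1) (hH : J_HLW) (hD : J_DD) (hE : J_EXP) (hMV : J_MV) (hMASS : J_MASS) (hFF : J_FF)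
    (hEXC : J_EXCc) (hET : J_ETc) (hAP : J_AP2c) (hTRG : J_TRG) (hG1 : J_G1) (hCL : J_CL) : J_DIFx := by
  obtain ⟨Cg, hCg, hg⟩ := g_int hA1 hH hD hE
  refine ⟨6 * Cg + 151, by positivity, ?_⟩
  intro η hη hη1 y x hy
  set s : ℝ := Real.sqrt η with hs
  have hs0 : 0 < s := Real.sqrt_pos.2 hη
  have hs1 : s ≤ 1 := by
    rw [hs, Real.sqrt_le_left (by norm_num)]; nlinarith
  obtain ⟨A, r, F, c, hA, hr, hφ2, hφg, hbad⟩ := hTRG x s hs0
  set φ : ℝ → ℂ := fun s => ∑ u ∈ F, c u * Complex.exp (((u * s : ℝ) : ℂ) * Complex.I) with hφ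
  set SC : ℝ := ∑ u ∈ F, ‖c u‖ with hSC
  have hSC0 : 0 ≤ SC := Finset.sum_nonneg fun _ _ => norm_nonneg _
  set ε' : ℝ := s / (2 * SC + 1) with hε'
  have hε'0 : 0 < ε' := by positivity
  have e1 : ∀ᶠ T : ℝ in atTop, ∀ u ∈ F,
      ∫ t in T..(3 * T), ‖∫ h in (0 : ℝ)..(UU y T), (starRingEnd ℂ) (chi (t + h)) * Dp η T (t + h) ^ 2 *
        Complex.exp (((u * De T 1 0 (t + h) : ℝ) : ℂ) * Complex.I)‖ ≤ ε' * (UU y T * T * Real.log T) := by
    rw [Filter.eventually_all_finset]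
    intro u _
    exact osw hE hMV hMASS hFF hEXC hET hAP η u y ε' hη hη1 hy hε'0
  have e2 : ∀ᶠ T : ℝ in atTop, ∀ u ∈ F,
      ∫ t in T..(3 * T), ‖∫ h in (0 : ℝ)..(UU y T), (starRingEnd ℂ) (chi (t + h)) * Dp η T (t + h) ^ 2 *
        Complex.exp (((-u * De T 1 0 (t + h) : ℝ) : ℂ) * Complex.I)‖ ≤ ε' * (UU y T * T * Real.log T) := by
    rw [Filter.eventually_all_finset]
    intro u _
    exact osw hE hMV hMASS hFF hEXC hET hAP η (-u) y ε' hη hη1 hy hε'0
  have e3 := (law1 hFF hG1 hCL η hη hη1 A r x).eventually (gt_mem_nhds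
    (show (gm 1 (Fin 1)).real {z : Fin 1 → ℝ | z 0 ∈ BS A r x} < 2 * s from by
      have : (gm 1 (Fin 1)).real {z : Fin 1 → ℝ | z 0 ∈ BS A r x} ≤ s := hbad
      linarith))
  have e4 : ∀ᶠ T : ℝ in atTop, 2 < r * Real.sqrt (La T) :=
    ((Real.tendsto_sqrt_atTop.comp tendsto_La).const_mul_atTop hr).eventually_gt_atTop 2
  have e5 : ∀ᶠ T : ℝ in atTop, UU y T ≤ s * T := by
    have h1 : ∀ᶠ T : ℝ in atTop, 1 ≤ s * T ^ (1 / 2 : ℝ) :=
      ((tendsto_rpow_atTop (by norm_num : (0 : ℝ) < 1 / 2)).const_mul_atTop hs0).eventually_ge_atTop 1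
    filter_upwards [ev_UU y (1 / 2) (by norm_num), h1, eventually_gt_atTop (0 : ℝ)] with T h2 h3 hT
    have h4 : T ^ (1 / 2 : ℝ) * T ^ (1 / 2 : ℝ) = T := by
      rw [← Real.rpow_add hT]; norm_num
    have h5 : 0 < T ^ (1 / 2 : ℝ) := Real.rpow_pos_of_pos hT _
    have h6 : UU y T ≤ T ^ (1 / 2 : ℝ) := h2
    calc UU y T ≤ T ^ (1 / 2 : ℝ) := h6
      _ ≤ (s * T ^ (1 / 2 : ℝ)) * T ^ (1 / 2 : ℝ) := le_mul_of_one_le_left h5.le h3
      _ = s * T := by rw [mul_assoc, h4]
  filter_upwards [hg η hη hη1, Dint hMV hMASS hFF hη hη1 hs0, Eo_int hE hMV hMASS hFF hEXC η 0 s hη hη1 hs0,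
    e1, e2, e3, e4, e5, Pool.Agent.Q237.EW.ev_Yt, eventually_ge_atTop 100, ev_nm_pos hFF hη hη1]
    with T hg hDi hEi e1 e2 e3 e4 e5 hYT hT100 hN0
  obtain ⟨hY0, hYL, hL1⟩ := hYT
  obtain ⟨hNL, hDi⟩ := hDi
  obtain ⟨hEi, hE0, hEb⟩ := hEi
  have hT0 : 0 < T := by linarith
  have hL : 0 < Real.log T := Real.log_pos (by linarith)
  have hsq : 0 < Real.sqrt (La T) := Real.sqrt_pos.2 (by linarith)
  set U : ℝ := UU y T with hU
  have hU1 : 1 ≤ U := Real.one_le_exp (by positivity)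
  have hU0 : 0 < U := by linarith
  have hUT : U ≤ T := e5.trans (by nlinarith)
  have hDc : Continuous (Dp η T) := Dp_cont hE η T
  have hD2c : Continuous fun t => ‖Dp η T t‖ ^ 2 := hDc.norm.pow 2
  set X : ℝ → ℝ := De T 1 0 with hX
  have hXc : Continuous X := De_cont T 1 0
  have mBd : MeasurableSet {t | X t ∈ BS A r x} := hXc.measurable (BS_meas A r x)
  have mNE : MeasurableSet {t : ℝ | NE T 1 t} := by
    have := (NE_closed T 1 0).measurableSet
    simpa using this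
  set S : Set ℝ := {t | NE T 1 t} ∩ {t | X t ∈ BS A r x} with hS
  have mS : MeasurableSet S := mNE.inter mBd
  -- the functions
  set cc : ℝ → ℂ := fun t => (starRingEnd ℂ) (chi t) * Dp η T t ^ 2 with hcc
  have hccc : Continuous cc := (Complex.continuous_conj.comp chi_cont).mul (hDc.pow 2)
  have hccn : ∀ t, ‖cc t‖ = ‖Dp η T t‖ ^ 2 := by
    intro t
    rw [hcc]
    simp only [norm_mul, norm_pow, RCLike.norm_conj, chi_norm, one_mul]
  have hBsq : ∀ t, ‖BB η T t‖ ^ 2 = 2 * ‖Dp η T t‖ ^ 2 + 2 * (cc t).re := fun t => sq_id (Dp η T t) (chi t) (chi_norm t)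
  set g : ℝ → ℝ := fun t => |‖ze t‖ ^ 2 - ‖BB η T t‖ ^ 2| with hg'
  have hgc : Continuous g := ((ze_cont.norm.pow 2).sub ((BB_cont hE η T).norm.pow 2)).abs
  set iD : ℝ → ℝ := Set.indicator S (fun t => ‖Dp η T t‖ ^ 2) with hiD
  have iDi : ∀ a b : ℝ, IntervalIntegrable iD volume a b := by
    intro a b
    rw [intervalIntegrable_iff]
    exact (intervalIntegrable_iff.1 (hD2c.intervalIntegrable a b)).indicator mS
  have iD0 : ∀ t, 0 ≤ iD t := fun t => Set.indicator_nonneg (fun t _ => sq_nonneg _) t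
  set G0 : ℝ → ℝ := fun t => 6 * g t + (6 * s * ‖Dp η T t‖ ^ 2 + 18 * (iD t + Eo η 0 T t)) with hG0
  have hk1 : ∀ a b : ℝ, IntervalIntegrable (fun t => 6 * g t) volume a b := fun a b =>
    (continuous_const.mul hgc).intervalIntegrable a b
  have hk2 : ∀ a b : ℝ, IntervalIntegrable (fun t => 6 * s * ‖Dp η T t‖ ^ 2) volume a b := fun a b =>
    (continuous_const.mul hD2c).intervalIntegrable a b
  have hk3 : ∀ a b : ℝ, IntervalIntegrable (fun t => 18 * (iD t + Eo η 0 T t)) volume a b := fun a b =>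
    ((iDi a b).add (hEi a b)).const_mul 18
  have hG0i : ∀ a b : ℝ, IntervalIntegrable G0 volume a b := fun a b => (hk1 a b).add ((hk2 a b).add (hk3 a b))
  have hG00 : ∀ t, 0 ≤ G0 t := by
    intro t
    have := abs_nonneg (‖ze t‖ ^ 2 - ‖BB η T t‖ ^ 2)
    have := iD0 t
    have := hE0 t
    rw [hG0]
    show 0 ≤ 6 * |‖ze t‖ ^ 2 - ‖BB η T t‖ ^ 2| + (6 * s * ‖Dp η T t‖ ^ 2 + 18 * (iD t + Eo η 0 T t))
    positivity
  -- the pointwise comparison
  set IE : ℝ → ℂ := Set.indicator (EX x T) (fun _ => (1 : ℂ)) with hIE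
  have hpt0 : ∀ t, ‖IE t * ((‖ze t‖ ^ 2 - 2 * ‖Dp η T t‖ ^ 2 : ℝ) : ℂ) - φ (X t) * ((2 * (cc t).re : ℝ) : ℂ)‖ ≤ G0 t := by
    intro t
    have h1 := EX_app hsq e4 hφ2 hs0.le hφg t
    have h2 := pt_alg (z := ‖ze t‖ ^ 2) (D := ‖Dp η T t‖ ^ 2) (B := ‖BB η T t‖ ^ 2) (s := s)
      (i := Set.indicator {t | X t ∈ BS A r x} (fun _ => (1 : ℝ)) t) (c := cc t) (sq_nonneg _) (sq_nonneg _)
      (hBsq t) (hccn t) hs0.le hs1 (by
        by_cases h : t ∈ {t | X t ∈ BS A r x}
        · right; exact Set.indicator_of_mem h _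
        · left; exact Set.indicator_of_notMem h _) (hφ2 (X t)) h1
    refine h2.trans ?_
    rw [hG0]
    show _ ≤ 6 * |‖ze t‖ ^ 2 - ‖BB η T t‖ ^ 2| + (6 * s * ‖Dp η T t‖ ^ 2 + 18 * (iD t + Eo η 0 T t))
    have h3 : Set.indicator {t | X t ∈ BS A r x} (fun _ => (1 : ℝ)) t * ‖Dp η T t‖ ^ 2 ≤ iD t + Eo η 0 T t := by
      by_cases h : t ∈ {t | X t ∈ BS A r x}
      · rw [Set.indicator_of_mem h, one_mul]
        by_cases hN : NE T 1 t
        · have hm : t ∈ S := ⟨hN, h⟩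
          rw [hiD, Set.indicator_of_mem hm]
          have := hE0 t
          linarith
        · have := off_NE (η := η) hN
          have := iD0 t
          linarith
      · rw [Set.indicator_of_notMem h, zero_mul]
        have := iD0 t
        have := hE0 t
        linarith
    linarith
  -- the characters
  set f : ℝ → ℝ → ℂ := fun u t => cc t * Complex.exp (((u * X t : ℝ) : ℂ) * Complex.I) with hf
  have hfc : ∀ u, Continuous (f u) := by
    intro u
    have c2 : Continuous fun t => ((u * X t : ℝ) : ℂ) :=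
      Complex.continuous_ofReal.comp (continuous_const.mul hXc)
    exact hccc.mul (Complex.continuous_exp.comp (c2.mul continuous_const))
  have hfch : ∀ u t, Continuous fun h => f u (t + h) := fun u t => (hfc u).comp (continuous_const.add continuous_id)
  have hfh : ∀ u t, ‖∫ h in (0 : ℝ)..U, (starRingEnd ℂ) (f u (t + h))‖ = ‖∫ h in (0 : ℝ)..U, f u (t + h)‖ := by
    intro u t
    have h1 : ∫ h in (0 : ℝ)..U, (starRingEnd ℂ) (f u (t + h)) = (starRingEnd ℂ) (∫ h in (0 : ℝ)..U, f u (t + h)) := by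
      rw [intervalIntegral, intervalIntegral, map_sub, ← integral_conj, ← integral_conj]
    rw [h1, RCLike.norm_conj]
  have hφf : ∀ t, φ (X t) * ((2 * (cc t).re : ℝ) : ℂ) = ∑ u ∈ F, c u * (f u t + (starRingEnd ℂ) (f (-u) t)) := by
    intro t
    have h1 : ((2 * (cc t).re : ℝ) : ℂ) = cc t + (starRingEnd ℂ) (cc t) := (Complex.add_conj (cc t)).symm
    rw [h1, hφ]
    simp only
    rw [Finset.sum_mul]
    refine Finset.sum_congr rfl fun u _ => ?_
    have h2 : (starRingEnd ℂ) (Complex.exp (((-u * X t : ℝ) : ℂ) * Complex.I)) =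
        Complex.exp (((u * X t : ℝ) : ℂ) * Complex.I) := by
      rw [← Complex.exp_conj, map_mul, Complex.conj_ofReal, Complex.conj_I]
      congr 1
      push_cast
      ring
    show c u * Complex.exp (((u * X t : ℝ) : ℂ) * Complex.I) * (cc t + (starRingEnd ℂ) (cc t)) =
      c u * (cc t * Complex.exp (((u * X t : ℝ) : ℂ) * Complex.I) +
        (starRingEnd ℂ) (cc t * Complex.exp (((-u * X t : ℝ) : ℂ) * Complex.I)))
    rw [map_mul (starRingEnd ℂ) (cc t) (Complex.exp (((-u * X t : ℝ) : ℂ) * Complex.I)), h2]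
    ring
  have hosc : ∀ t, ‖∫ h in (0 : ℝ)..U, φ (X (t + h)) * ((2 * (cc (t + h)).re : ℝ) : ℂ)‖ ≤
      ∑ u ∈ F, ‖c u‖ * (‖∫ h in (0 : ℝ)..U, f u (t + h)‖ + ‖∫ h in (0 : ℝ)..U, f (-u) (t + h)‖) := by
    intro t
    have h1 : ∫ h in (0 : ℝ)..U, φ (X (t + h)) * ((2 * (cc (t + h)).re : ℝ) : ℂ) =
        ∑ u ∈ F, c u * ((∫ h in (0 : ℝ)..U, f u (t + h)) + ∫ h in (0 : ℝ)..U, (starRingEnd ℂ) (f (-u) (t + h))) := by
      simp_rw [hφf]
      rw [intervalIntegral.integral_finsetSum]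
      · refine Finset.sum_congr rfl fun u _ => ?_
        rw [intervalIntegral.integral_const_mul, intervalIntegral.integral_add]
        · exact (hfch u t).intervalIntegrable _ _
        · exact (Complex.continuous_conj.comp (hfch (-u) t)).intervalIntegrable _ _
      · intro u _
        exact (continuous_const.mul ((hfch u t).add
          (Complex.continuous_conj.comp (hfch (-u) t)))).intervalIntegrable _ _
    rw [h1]
    refine (norm_sum_le _ _).trans (Finset.sum_le_sum fun u _ => ?_)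
    rw [norm_mul]
    refine mul_le_mul_of_nonneg_left ?_ (norm_nonneg _)
    refine (norm_add_le _ _).trans ?_
    rw [hfh]
  -- the window means
  have hz2c : Continuous fun t => ‖ze t‖ ^ 2 := ze_cont.norm.pow 2
  have hzi : ∀ t, IntervalIntegrable (fun h => Set.indicator (EX x T) (fun s => ‖ze s‖ ^ 2) (t + h)) volume 0 U := by
    intro t
    have := (ind_int hz2c (EXc x T) (t + 0) (t + U)).comp_add_left t
    simpa using this
  have hdi : ∀ t, IntervalIntegrable (fun h => Set.indicator (EX x T) (fun s => ‖Dp η T s‖ ^ 2) (t + h)) volume 0 U := by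
    intro t
    have := (ind_int hD2c (EXc x T) (t + 0) (t + U)).comp_add_left t
    simpa using this
  have hφc : Continuous φ := by
    rw [hφ]
    refine continuous_finsetSum _ fun u _ => continuous_const.mul (Complex.continuous_exp.comp ?_)
    fun_prop
  have hPc : Continuous fun t => φ (X t) * ((2 * (cc t).re : ℝ) : ℂ) :=
    (hφc.comp hXc).mul (Complex.continuous_ofReal.comp (continuous_const.mul (Complex.continuous_re.comp hccc)))
  have hpt : ∀ t : ℝ, |MXx y x T t - NNx η y x T t| ≤ 1 / (U * Real.log T) * ((∫ v in t..(t + U), G0 v) +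
      ∑ u ∈ F, ‖c u‖ * (‖∫ h in (0 : ℝ)..U, f u (t + h)‖ + ‖∫ h in (0 : ℝ)..U, f (-u) (t + h)‖)) := by
    intro t
    have h1 : MXx y x T t - NNx η y x T t = 1 / (U * Real.log T) * ∫ h in (0 : ℝ)..U,
        (Set.indicator (EX x T) (fun s => ‖ze s‖ ^ 2) (t + h) - 2 * Set.indicator (EX x T) (fun s => ‖Dp η T s‖ ^ 2) (t + h)) := by
      rw [intervalIntegral.integral_sub (hzi t) ((hdi t).const_mul 2), intervalIntegral.integral_const_mul]
      unfold MXx NNx
      ring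
    rw [h1, abs_mul, abs_of_nonneg (by positivity : 0 ≤ 1 / (U * Real.log T))]
    refine mul_le_mul_of_nonneg_left ?_ (by positivity)
    have h2 : ((∫ h in (0 : ℝ)..U, (Set.indicator (EX x T) (fun s => ‖ze s‖ ^ 2) (t + h) -
        2 * Set.indicator (EX x T) (fun s => ‖Dp η T s‖ ^ 2) (t + h)) : ℝ) : ℂ) =
        (∫ h in (0 : ℝ)..U, (IE (t + h) * ((‖ze (t + h)‖ ^ 2 - 2 * ‖Dp η T (t + h)‖ ^ 2 : ℝ) : ℂ) -
          φ (X (t + h)) * ((2 * (cc (t + h)).re : ℝ) : ℂ))) +
        ∫ h in (0 : ℝ)..U, φ (X (t + h)) * ((2 * (cc (t + h)).re : ℝ) : ℂ) := by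
      have h3 : ∀ v, IE v * ((‖ze v‖ ^ 2 - 2 * ‖Dp η T v‖ ^ 2 : ℝ) : ℂ) =
          ((Set.indicator (EX x T) (fun s => ‖ze s‖ ^ 2) v - 2 * Set.indicator (EX x T) (fun s => ‖Dp η T s‖ ^ 2) v : ℝ) : ℂ) := by
        intro v
        by_cases hv : v ∈ EX x T
        · rw [hIE, Set.indicator_of_mem hv, Set.indicator_of_mem hv, Set.indicator_of_mem hv, one_mul]
        · rw [hIE, Set.indicator_of_notMem hv, Set.indicator_of_notMem hv, Set.indicator_of_notMem hv]
          simp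
      have h4 : IntervalIntegrable (fun h => φ (X (t + h)) * ((2 * (cc (t + h)).re : ℝ) : ℂ)) volume 0 U :=
        (hPc.comp (continuous_const.add continuous_id)).intervalIntegrable _ _
      have h5 : IntervalIntegrable (fun h => IE (t + h) * ((‖ze (t + h)‖ ^ 2 - 2 * ‖Dp η T (t + h)‖ ^ 2 : ℝ) : ℂ)) volume 0 U := by
        simp_rw [h3]
        have h6 := (hzi t).sub ((hdi t).const_mul 2)
        exact ⟨Integrable.ofReal (𝕜 := ℂ) h6.1, Integrable.ofReal (𝕜 := ℂ) h6.2⟩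
      rw [intervalIntegral.integral_sub h5 h4, sub_add_cancel, ← intervalIntegral.integral_ofReal]
      simp_rw [h3]
    have h6 : |∫ h in (0 : ℝ)..U, (Set.indicator (EX x T) (fun s => ‖ze s‖ ^ 2) (t + h) -
        2 * Set.indicator (EX x T) (fun s => ‖Dp η T s‖ ^ 2) (t + h))| =
        ‖((∫ h in (0 : ℝ)..U, (Set.indicator (EX x T) (fun s => ‖ze s‖ ^ 2) (t + h) -
        2 * Set.indicator (EX x T) (fun s => ‖Dp η T s‖ ^ 2) (t + h)) : ℝ) : ℂ)‖ := by
      rw [Complex.norm_real, Real.norm_eq_abs]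
    rw [h6, h2]
    refine (norm_add_le _ _).trans (add_le_add ?_ (hosc t))
    rw [← win_eq]
    have hi : IntervalIntegrable (fun h => G0 (t + h)) volume 0 U := by
      have := (hG0i (t + 0) (t + U)).comp_add_left t
      simpa using this
    exact intervalIntegral.norm_integral_le_of_norm_le hU0.le (Eventually.of_forall fun h _ => hpt0 (t + h)) hi
  -- integration
  have hWG : Continuous fun t => ∫ v in t..(t + U), G0 v := win_cont _ hG0i U
  have hWf : ∀ u, Continuous fun t => ‖∫ h in (0 : ℝ)..U, f u (t + h)‖ := fun u => (winC_cont (f u) (hfc u) U).norm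
  have hWs : Continuous fun t => ∑ u ∈ F, ‖c u‖ * (‖∫ h in (0 : ℝ)..U, f u (t + h)‖ + ‖∫ h in (0 : ℝ)..U, f (-u) (t + h)‖) :=
    continuous_finsetSum _ fun u _ => continuous_const.mul ((hWf u).add (hWf (-u)))
  have hMc : Continuous fun t => |MXx y x T t - NNx η y x T t| := by
    obtain ⟨k1, k2, _, _⟩ := Pool.Agent.Q151.EW.t_CONx hE η y 1 x 1 T (by linarith)
    exact (k1.sub k2).abs
  have hmain : ∫ t in T..(3 * T), |MXx y x T t - NNx η y x T t| ≤ 1 / (U * Real.log T) *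
      ((∫ t in T..(3 * T), ∫ v in t..(t + U), G0 v) + ∑ u ∈ F, ‖c u‖ *
        ((∫ t in T..(3 * T), ‖∫ h in (0 : ℝ)..U, f u (t + h)‖) + ∫ t in T..(3 * T), ‖∫ h in (0 : ℝ)..U, f (-u) (t + h)‖)) := by
    have h1 : ∫ t in T..(3 * T), |MXx y x T t - NNx η y x T t| ≤ ∫ t in T..(3 * T), 1 / (U * Real.log T) *
        ((∫ v in t..(t + U), G0 v) + ∑ u ∈ F, ‖c u‖ * (‖∫ h in (0 : ℝ)..U, f u (t + h)‖ +
          ‖∫ h in (0 : ℝ)..U, f (-u) (t + h)‖)) :=
      intervalIntegral.integral_mono_on (by linarith) (hMc.intervalIntegrable _ _)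
        ((continuous_const.mul (hWG.add hWs)).intervalIntegrable _ _) fun t _ => hpt t
    refine h1.trans (le_of_eq ?_)
    rw [intervalIntegral.integral_const_mul, intervalIntegral.integral_add (hWG.intervalIntegrable _ _)
      (hWs.intervalIntegrable _ _), intervalIntegral.integral_finsetSum]
    · congr 2
      refine Finset.sum_congr rfl fun u _ => ?_
      rw [intervalIntegral.integral_const_mul, intervalIntegral.integral_add ((hWf u).intervalIntegrable _ _)
        ((hWf (-u)).intervalIntegrable _ _)]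
    · intro u _
      exact (continuous_const.mul ((hWf u).add (hWf (-u)))).intervalIntegrable _ _
  have hsl := slide' hG0i hG00 (A := T) (B := 3 * T) hU0.le
  -- the total error
  have hTL : 0 < T * Real.log T := by positivity
  have q1 : ∫ t in T..(3 * T + U), g t ≤ Cg * s * T * Real.log T := by
    refine le_trans ?_ hg
    exact intervalIntegral.integral_mono_interval le_rfl (by linarith) (by linarith)
      (Eventually.of_forall fun t => abs_nonneg _) (hgc.intervalIntegrable _ _)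
  have q2 : ∫ t in T..(3 * T + U), ‖Dp η T t‖ ^ 2 ≤ 4 * (T * Real.log T) := by
    refine (hDi T (3 * T + U) (by linarith)).trans ?_
    have : (3 * T + U - T + s * T) * Real.log T = (2 * T + U + s * T) * Real.log T := by ring
    rw [this]
    have h1 : 2 * T + U + s * T ≤ 4 * T := by nlinarith
    calc (2 * T + U + s * T) * Real.log T ≤ (4 * T) * Real.log T := by gcongr
      _ = 4 * (T * Real.log T) := by ring
  have q3 : ∫ t in T..(3 * T), iD t ≤ 4 * s * (T * Real.log T) := by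
    have h1 : 0 < 2 * T * nm (dd η T) := by positivity
    rw [div_lt_iff₀ h1] at e3
    have h2 : ∫ t in T..(3 * T), iD t ≤ 2 * s * (2 * T * nm (dd η T)) := e3.le
    calc ∫ t in T..(3 * T), iD t ≤ 2 * s * (2 * T * nm (dd η T)) := h2
      _ ≤ 2 * s * (2 * T * Real.log T) := by gcongr
      _ = 4 * s * (T * Real.log T) := by ring
  have q4 : ∫ t in (3 * T)..(3 * T + U), iD t ≤ 2 * s * (T * Real.log T) := by
    have h1 : ∫ t in (3 * T)..(3 * T + U), iD t ≤ ∫ t in (3 * T)..(3 * T + U), ‖Dp η T t‖ ^ 2 :=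
      intervalIntegral.integral_mono_on (by linarith) (iDi _ _) (hD2c.intervalIntegrable _ _) fun t _ =>
        Set.indicator_le_self' (fun x _ => by positivity) t
    refine h1.trans ((hDi _ _ (by linarith)).trans ?_)
    have h2 : 3 * T + U - 3 * T + s * T ≤ 2 * s * T := by linarith
    calc (3 * T + U - 3 * T + s * T) * Real.log T ≤ (2 * s * T) * Real.log T := by gcongr
      _ = 2 * s * (T * Real.log T) := by ring
  have q5 : ∫ t in T..(3 * T + U), Eo η 0 T t ≤ s * (T * Real.log T) := by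
    refine le_trans ?_ (hEb.trans (le_of_eq (by ring)))
    exact intervalIntegral.integral_mono_interval le_rfl (by linarith) (by linarith)
      (Eventually.of_forall fun t => hE0 t) (hEi _ _)
  have q6 : ∫ t in T..(3 * T + U), iD t = (∫ t in T..(3 * T), iD t) + ∫ t in (3 * T)..(3 * T + U), iD t :=
    (intervalIntegral.integral_add_adjacent_intervals (iDi _ _) (iDi _ _)).symm
  have q7 : ∫ t in T..(3 * T + U), G0 t ≤ (6 * Cg + 150) * s * (T * Real.log T) := by
    rw [hG0, intervalIntegral.integral_add (hk1 _ _) ((hk2 _ _).add (hk3 _ _)),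
      intervalIntegral.integral_add (hk2 _ _) (hk3 _ _), intervalIntegral.integral_const_mul,
      intervalIntegral.integral_const_mul, intervalIntegral.integral_const_mul,
      intervalIntegral.integral_add (iDi _ _) (hEi _ _), q6]
    have h1 : 6 * s * ∫ t in T..(3 * T + U), ‖Dp η T t‖ ^ 2 ≤ 6 * s * (4 * (T * Real.log T)) :=
      mul_le_mul_of_nonneg_left q2 (by positivity)
    nlinarith
  have q8 : ∑ u ∈ F, ‖c u‖ * ((∫ t in T..(3 * T), ‖∫ h in (0 : ℝ)..U, f u (t + h)‖) +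
      ∫ t in T..(3 * T), ‖∫ h in (0 : ℝ)..U, f (-u) (t + h)‖) ≤ U * (s * (T * Real.log T)) := by
    have h1 : ∑ u ∈ F, ‖c u‖ * ((∫ t in T..(3 * T), ‖∫ h in (0 : ℝ)..U, f u (t + h)‖) +
      ∫ t in T..(3 * T), ‖∫ h in (0 : ℝ)..U, f (-u) (t + h)‖) ≤ ∑ u ∈ F, ‖c u‖ * (2 * (ε' * (U * T * Real.log T))) := by
      refine Finset.sum_le_sum fun u hu => mul_le_mul_of_nonneg_left ?_ (norm_nonneg _)
      have h2 : ∫ t in T..(3 * T), ‖∫ h in (0 : ℝ)..U, f u (t + h)‖ ≤ ε' * (U * T * Real.log T) := e1 u hu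
      have h3 : ∫ t in T..(3 * T), ‖∫ h in (0 : ℝ)..U, f (-u) (t + h)‖ ≤ ε' * (U * T * Real.log T) := e2 u hu
      linarith
    rw [← Finset.sum_mul, ← hSC] at h1
    refine h1.trans ?_
    have h4 : SC * (2 * ε') ≤ s := by
      rw [hε', ← mul_div_assoc, ← mul_div_assoc, div_le_iff₀ (by positivity)]
      nlinarith
    calc SC * (2 * (ε' * (U * T * Real.log T))) = SC * (2 * ε') * (U * (T * Real.log T)) := by ring
      _ ≤ s * (U * (T * Real.log T)) := by gcongr
      _ = U * (s * (T * Real.log T)) := by ring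
  refine hmain.trans ?_
  have q9 : (∫ t in T..(3 * T), ∫ v in t..(t + U), G0 v) + ∑ u ∈ F, ‖c u‖ *
        ((∫ t in T..(3 * T), ‖∫ h in (0 : ℝ)..U, f u (t + h)‖) + ∫ t in T..(3 * T), ‖∫ h in (0 : ℝ)..U, f (-u) (t + h)‖) ≤
      U * ((6 * Cg + 150) * s * (T * Real.log T)) + U * (s * (T * Real.log T)) :=
    add_le_add (hsl.trans (mul_le_mul_of_nonneg_left q7 hU0.le)) q8
  calc 1 / (U * Real.log T) * _ ≤ 1 / (U * Real.log T) *
        (U * ((6 * Cg + 150) * s * (T * Real.log T)) + U * (s * (T * Real.log T))) :=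
        mul_le_mul_of_nonneg_left q9 (by positivity)
    _ = (6 * Cg + 151) * s * T := by
        field_simp
        ring

end Pool.Agent.Q61.EW
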