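import Pool.Agent.Q80.EW.Stm6
import Pool.Agent.Q251.EW.OSM
import Pool.Agent.Q251.EW.DIFD

set_option autoImplicit false

/-!
# Project EWX, job DIFx, preparations: oscillation in windows, law of the walk at one point
-/

namespace Pool.Agent.Q61.EW

open Filter Topology MeasureTheory
open Pool.Agent.Q80.EW Pool.Agent.Q251.EW
open Pool.Agent.Q16.EW (NE_closed PV_bd Ms Ms_int Ms_fin Ms_integrable Ms_real dd_one ev_Nt nm_ge_one)

/-- short intervals -/
theorem Dint (hMV : J_MV) (hMASS : J_MASS) (hFF : J_FF) {η : ℝ} (hη : 0 < η) (hη1 : η ≤ 1 / 100)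
    {κ : ℝ} (hκ : 0 < κ) : ∀ᶠ T : ℝ in atTop, nm (dd η T) ≤ Real.log T ∧ ∀ a b : ℝ, a ≤ b →
      ∫ t in a..b, ‖Dp η T t‖ ^ 2 ≤ ((b - a) + κ * T) * Real.log T := by
  obtain ⟨CV, hCV, hMV⟩ := hMV
  have ev3 : ∀ᶠ T : ℝ in atTop, nm (dd η T) / Real.log T < 1 :=
    (hMASS η hη hη1).eventually (gt_mem_nhds (by linarith))
  have ev4 : ∀ᶠ T : ℝ in atTop, CV ≤ κ * T ^ (1 / 2 : ℝ) :=
    ((tendsto_rpow_atTop (by norm_num : (0 : ℝ) < 1 / 2)).const_mul_atTop hκ).eventually_ge_atTop CV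
  filter_upwards [ev3, ev4, hFF η hη hη1, eventually_gt_atTop (3 : ℝ)] with T e3 e4 hFT hT
  have hT0 : 0 < T := by linarith
  have hL : 0 < Real.log T := Real.log_pos (by linarith)
  rw [div_lt_one hL] at e3
  have hN0 : 0 ≤ nm (dd η T) := tsum_nonneg fun n => by positivity
  refine ⟨e3.le, fun a b hab => ?_⟩
  have h8 := hMV _ (dd η T) hFT.1 a b hab
  have h9 := (abs_le.1 h8).2
  have h10 : (⌊T ^ (1 / 2 - η)⌋₊ : ℝ) ≤ T ^ (1 / 2 : ℝ) := by
    refine (Nat.floor_le (by positivity)).trans ?_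
    exact Real.rpow_le_rpow_of_exponent_le (by linarith) (by linarith)
  have h11 : T ^ (1 / 2 : ℝ) * T ^ (1 / 2 : ℝ) = T := by
    rw [← Real.rpow_add hT0]; norm_num
  have h12 : CV * (⌊T ^ (1 / 2 - η)⌋₊ : ℝ) ≤ κ * T := by
    calc CV * (⌊T ^ (1 / 2 - η)⌋₊ : ℝ) ≤ (κ * T ^ (1 / 2 : ℝ)) * T ^ (1 / 2 : ℝ) := by gcongr
      _ = κ * T := by rw [mul_assoc, h11]
  have h14 : ∫ x in a..b, ‖Dp η T x‖ ^ 2 = ∫ t in a..b, ‖dp (dd η T) t‖ ^ 2 := rfl
  rw [h14]
  calc ∫ t in a..b, ‖dp (dd η T) t‖ ^ 2 ≤ (b - a) * nm (dd η T) + CV * (⌊T ^ (1 / 2 - η)⌋₊ : ℝ) * nm (dd η T) := by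
        linarith
    _ = ((b - a) + CV * (⌊T ^ (1 / 2 - η)⌋₊ : ℝ)) * nm (dd η T) := by ring
    _ ≤ ((b - a) + κ * T) * nm (dd η T) := by gcongr
    _ ≤ ((b - a) + κ * T) * Real.log T := by
        have : 0 ≤ b - a := by linarith
        gcongr

/-- the mass is positive -/
theorem ev_nm_pos (hFF : J_FF) {η : ℝ} (hη : 0 < η) (hη1 : η ≤ 1 / 100) : ∀ᶠ T : ℝ in atTop, 0 < nm (dd η T) := by
  filter_upwards [hFF η hη hη1, ev_Nt hη1] with T h1 h2
  have := nm_ge_one h1.1 (dd_one h2)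
  linarith

/-- the law of the walk at one point, for sets of the end value -/
theorem law1 (hFF : J_FF) (hG1 : J_G1) (hCL : J_CL) (η : ℝ) (hη : 0 < η) (hη1 : η ≤ 1 / 100) (A r b : ℝ) :
    Tendsto (fun T : ℝ => (∫ t in T..(3 * T), Set.indicator ({t | NE T 1 t} ∩ {t | De T 1 0 t ∈ BS A r b})
      (fun t => ‖Dp η T t‖ ^ 2) t) / (2 * T * nm (dd η T))) atTop
      (𝓝 ((gm 1 (Fin 1)).real {x | x 0 ∈ BS A r b})) := by
  have hff := hFF η hη hη1
  have hN := ev_Nt hη1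
  let N : ℝ → ℝ := fun T => 2 * T * nm (dd η T)
  have hev : ∀ᶠ T : ℝ in atTop, 0 < T ∧ FS ⌊T ^ (1 / 2 - η)⌋₊ (dd η T) ∧ 0 < N T := by
    filter_upwards [hff, hN, eventually_gt_atTop (0 : ℝ)] with T h1 h2 h3
    refine ⟨h3, h1.1, ?_⟩
    have := nm_ge_one h1.1 (dd_one h2)
    show 0 < 2 * T * nm (dd η T)
    positivity
  have hNE : ∀ T, MeasurableSet {t : ℝ | NE T 1 t} := by
    intro T
    have := (NE_closed T 1 0).measurableSet
    simpa using this
  have key := hCL ℝ ℝ (Fin 1) atTop (fun T => Ms T (3 * T) (N T) {t | NE T 1 t} (fun t => ‖Dp η T t‖ ^ 2))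
    (fun T i t => De T 1 i t) 1 le_rfl ?_ ?_ ?_ {x : Fin 1 → ℝ | x 0 ∈ BS A r b}
    ((measurable_pi_apply _) (BS_meas A r b)) (bad_frontier _ _ A r b)
  · refine Tendsto.congr' ?_ key
    filter_upwards [hev] with T hT
    obtain ⟨h1, h2, h3⟩ := hT
    have hc : Continuous fun t => ‖Dp η T t‖ ^ 2 := (dp_cont h2).norm.pow 2
    have hA : MeasurableSet {t : ℝ | De T 1 0 t ∈ BS A r b} := (De_cont T 1 0).measurable (BS_meas A r b)
    show (Ms T (3 * T) (N T) {t | NE T 1 t} (fun t => ‖Dp η T t‖ ^ 2)).real {t : ℝ | De T 1 0 t ∈ BS A r b} = _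
    rw [Ms_real (by linarith) h3 (hNE T) hc (fun t => by positivity) hA]
  · filter_upwards [hev] with T hT
    exact Ms_fin (hNE T) ((dp_cont hT.2.1).norm.pow 2)
  · exact Eventually.of_forall fun T j => (De_cont T 1 j).measurable
  · intro u
    constructor
    · filter_upwards [hev] with T hT
      refine Ms_integrable (hNE T) ((dp_cont hT.2.1).norm.pow 2) ?_
      exact Real.continuous_exp.comp (continuous_finsetSum _ fun i _ => continuous_const.mul (De_cont T 1 i))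
    · refine Tendsto.congr' ?_ (hG1 η 1 u hη hη1 le_rfl)
      filter_upwards [hev] with T hT
      obtain ⟨h1, h2, h3⟩ := hT
      have hc : Continuous fun t => ‖Dp η T t‖ ^ 2 := (dp_cont h2).norm.pow 2
      rw [Ms_int (by linarith) h3 (hNE T) hc (fun t => by positivity)]

/-- the character of the walk -/
theorem char1 {T : ℝ} (hY : 0 ≤ Yt T) (u t : ℝ) :
    Complex.exp (((u * De T 1 0 t : ℝ) : ℂ) * Complex.I) =
    Complex.exp (((-(vu T 1 fun _ => u) : ℝ) : ℂ) * Complex.I) *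
      (Complex.exp (PVc (zc (Yt T)) (wc T u) t) *
      (starRingEnd ℂ) (Complex.exp (PVc (zc (Yt T)) (wc T (-u)) t))) := by
  rw [PVc_neg, PVc_wc]
  set P := PV (zc (Yt T)) (wu T 1 fun _ => u) t with hP
  rw [exp_pair, ← Complex.exp_add]
  congr 1
  rw [De_one hY u t, ← hP]
  push_cast
  ring

theorem ev_pow_UU (C y ε : ℝ) (hy : 0 < y) (hε : 0 < ε) : ∀ᶠ T : ℝ in atTop,
    C * La T ^ 5 ≤ ε * UU y T := by
  have h1 : Tendsto (fun x : ℝ => x ^ 10 / Real.exp (y * x)) atTop (𝓝 0) := by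
    have h2 := (isLittleO_pow_exp_pos_mul_atTop 10 hy).tendsto_div_nhds_zero
    exact h2
  have h3 := (h1.const_mul |C|).comp (Real.tendsto_sqrt_atTop.comp tendsto_La')
  rw [mul_zero] at h3
  filter_upwards [h3.eventually (gt_mem_nhds hε), tendsto_La'.eventually_ge_atTop 1] with T h4 h5
  simp only [Function.comp_apply] at h4
  have hU : 0 < UU y T := Real.exp_pos _
  have e1 : Real.sqrt (La T) ^ 10 = La T ^ 5 := by
    have : Real.sqrt (La T) ^ 10 = (Real.sqrt (La T) ^ 2) ^ 5 := by ring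
    rw [this, Real.sq_sqrt (by linarith)]
  have e2 : Real.exp (y * Real.sqrt (La T)) = UU y T := rfl
  rw [e1, e2, ← mul_div_assoc, div_lt_iff₀ hU] at h4
  have h6 : C * La T ^ 5 ≤ |C| * La T ^ 5 := mul_le_mul_of_nonneg_right (le_abs_self C) (by positivity)
  linarith

end Pool.Agent.Q61.EW
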