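import Pool.Agent.Q61.EW.DIFxa

set_option autoImplicit false

/-!
# Project EWX, job DIFx: oscillation in windows
-/

namespace Pool.Agent.Q61.EW

open Filter Topology MeasureTheory
open Pool.Agent.Q80.EW Pool.Agent.Q251.EW
open Pool.Agent.Q16.EW (NE_closed PV_bd)

/-- the error between the character and the product of the truncated exponentials -/
noncomputable def Eo (η u T t : ℝ) : ℝ := 3 * Real.exp (-(el T : ℝ)) * ‖Dp η T t‖ ^ 2 +
  (Set.indicator {t | 40 * La T < ‖PP 0 t‖} (fun t => ‖Dp η T t‖ ^ 2 +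
    ((‖Dp η T t‖ * ‖eT (el T) (PVc (zc (Yt T)) (wc T u) t)‖) ^ 2 +
      (‖Dp η T t‖ * ‖eT (el T) (PVc (zc (Yt T)) (wc T (-u)) t)‖) ^ 2)) t +
  Set.indicator {t | 40 * La T < ‖PP (Yt T) t‖} (fun t => ‖Dp η T t‖ ^ 2 +
    ((‖Dp η T t‖ * ‖eT (el T) (PVc (zc (Yt T)) (wc T u) t)‖) ^ 2 +
      (‖Dp η T t‖ * ‖eT (el T) (PVc (zc (Yt T)) (wc T (-u)) t)‖) ^ 2)) t)

theorem exc_one {T a : ℝ} {X : ℝ → ℝ} (hX : Continuous X)
    (hI : ∫ t in T..(4 * T), Set.indicator {t | 40 * La T < ‖PP a t‖ ∨ 40 * La T < ‖PP a (t + 0)‖} X t ≤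
      T / Real.log T) :
    (∀ x y : ℝ, IntervalIntegrable (Set.indicator {t | 40 * La T < ‖PP a t‖} X) volume x y) ∧
    ∫ t in T..(4 * T), Set.indicator {t | 40 * La T < ‖PP a t‖} X t ≤ T / Real.log T := by
  have mS : MeasurableSet {t | 40 * La T < ‖PP a t‖} :=
    (isOpen_lt continuous_const (PP_cont a).norm).measurableSet
  have e : {t | 40 * La T < ‖PP a t‖ ∨ 40 * La T < ‖PP a (t + 0)‖} = {t | 40 * La T < ‖PP a t‖} := by
    ext t; simp
  rw [e] at hI
  refine ⟨fun x y => ?_, hI⟩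
  rw [intervalIntegrable_iff]
  exact (intervalIntegrable_iff.1 (hX.intervalIntegrable x y)).indicator mS

theorem eT_zero' (l : ℕ) : eT l 0 = 1 := by
  unfold eT
  rw [Finset.sum_range_succ']
  simp

theorem PVc_zero' (Z : ℕ) (t : ℝ) : PVc Z (fun _ => 0) t = 0 := by
  unfold PVc
  simp

/-- the integral of the error -/
theorem Eo_int (hE : J_EXP) (hMV : J_MV) (hMASS : J_MASS) (hFF : J_FF) (hEXC : J_EXCc) (η u ε : ℝ) (hη : 0 < η)
    (hη1 : η ≤ 1 / 100) (hε : 0 < ε) : ∀ᶠ T : ℝ in atTop, (∀ a b : ℝ, IntervalIntegrable (Eo η u T) volume a b) ∧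
      (∀ t, 0 ≤ Eo η u T t) ∧ ∫ t in T..(4 * T), Eo η u T t ≤ ε * T * Real.log T := by
  have s6 : ∀ᶠ T : ℝ in atTop, (|u| + 1) ≤ Real.sqrt (La T) :=
    (Real.tendsto_sqrt_atTop.comp tendsto_La).eventually_ge_atTop _
  have s7 : ∀ᶠ T : ℝ in atTop, 24 / ε ≤ La T := tendsto_La.eventually_ge_atTop _
  have s8 : ∀ᶠ T : ℝ in atTop, 12 / ε + 1 ≤ Real.log T := Real.tendsto_log_atTop.eventually_ge_atTop _
  filter_upwards [Dint hMV hMASS hFF hη hη1 one_pos, hEXC η hη hη1, s6, s7, s8, Pool.Agent.Q237.EW.ev_Yt,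
    eventually_ge_atTop 100] with T hD eex s6 s7 s8 hYT hT100
  obtain ⟨hY0, hYL, hL1⟩ := hYT
  obtain ⟨-, hD⟩ := hD
  have hT0 : 0 < T := by linarith
  have hL : 0 < Real.log T := Real.log_pos (by linarith)
  set Z := zc (Yt T) with hZ
  have hDc : Continuous (Dp η T) := Dp_cont hE η T
  have cE : ∀ w : ℝ, Continuous fun t => eT (el T) (PVc Z (wc T w) t) := fun w => (eT_cont (el T)).comp (PVc_cont _ _)
  have hsq0 : 0 < Real.sqrt (La T) := by have := abs_nonneg u; linarith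
  have hwn : ∀ w : ℝ, |w| ≤ |u| → ∀ p, ‖wc T w p‖ ≤ 1 / 2 := by
    intro w hw p
    refine (wc_norm T w p).trans ?_
    rw [div_le_iff₀ (by linarith)]
    linarith
  have hz : ∀ (w : ℝ) (p : ℕ), Z ≤ p → wc T w p = 0 := fun w p hp => wc_zero T w p hp
  -- the three functions
  set X0 : ℝ → ℝ := fun t => ‖Dp η T t‖ ^ 2 with hX0
  set X1 : ℝ → ℝ → ℝ := fun w t => (‖Dp η T t‖ * ‖eT (el T) (PVc Z (wc T w) t)‖) ^ 2 with hX1
  have hX0c : Continuous X0 := hDc.norm.pow 2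
  have hX1c : ∀ w, Continuous (X1 w) := fun w => (hDc.norm.mul (cE w).norm).pow 2
  have hb0 : ∀ a : ℝ, 0 ≤ a → a ≤ Yt T →
      (∀ x y : ℝ, IntervalIntegrable (Set.indicator {t | 40 * La T < ‖PP a t‖} X0) volume x y) ∧
      ∫ t in T..(4 * T), Set.indicator {t | 40 * La T < ‖PP a t‖} X0 t ≤ T / Real.log T := by
    intro a ha0 ha1
    refine exc_one hX0c ?_
    have := eex 1 0 0 a (fun _ => 0) (fun _ => 0) le_rfl (by norm_num) ha0 ha1 (fun p => by simp) (fun p => by simp)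
      fun p _ => ⟨rfl, rfl⟩
    simp only [PVc_zero', eT_zero', pow_one, pow_zero, norm_one, mul_one] at this
    exact this
  have hb1 : ∀ w : ℝ, |w| ≤ |u| → ∀ a : ℝ, 0 ≤ a → a ≤ Yt T →
      (∀ x y : ℝ, IntervalIntegrable (Set.indicator {t | 40 * La T < ‖PP a t‖} (X1 w)) volume x y) ∧
      ∫ t in T..(4 * T), Set.indicator {t | 40 * La T < ‖PP a t‖} (X1 w) t ≤ T / Real.log T := by
    intro w hw a ha0 ha1
    refine exc_one (hX1c w) ?_
    have := eex 1 0 0 a (wc T w) (fun _ => 0) le_rfl (by norm_num) ha0 ha1 (hwn w hw) (fun p => by simp)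
      fun p hp => ⟨hz w p hp, rfl⟩
    simp only [PVc_zero', eT_zero', pow_one, pow_zero, norm_one, mul_one] at this
    exact this
  obtain ⟨i00, b00⟩ := hb0 0 le_rfl hY0
  obtain ⟨i0Y, b0Y⟩ := hb0 (Yt T) hY0 le_rfl
  obtain ⟨i10, b10⟩ := hb1 u le_rfl 0 le_rfl hY0
  obtain ⟨i1Y, b1Y⟩ := hb1 u le_rfl (Yt T) hY0 le_rfl
  obtain ⟨i20, b20⟩ := hb1 (-u) (abs_neg u).le 0 le_rfl hY0
  obtain ⟨i2Y, b2Y⟩ := hb1 (-u) (abs_neg u).le (Yt T) hY0 le_rfl
  set δ : ℝ := Real.exp (-(el T : ℝ)) with hδ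
  have hEo : ∀ t, Eo η u T t = 3 * δ * X0 t +
      ((Set.indicator {t | 40 * La T < ‖PP 0 t‖} X0 t + (Set.indicator {t | 40 * La T < ‖PP 0 t‖} (X1 u) t +
        Set.indicator {t | 40 * La T < ‖PP 0 t‖} (X1 (-u)) t)) +
      (Set.indicator {t | 40 * La T < ‖PP (Yt T) t‖} X0 t + (Set.indicator {t | 40 * La T < ‖PP (Yt T) t‖} (X1 u) t +
        Set.indicator {t | 40 * La T < ‖PP (Yt T) t‖} (X1 (-u)) t))) := by
    intro t
    unfold Eo
    congr 1
    congr 1
    · by_cases ht : t ∈ {t | 40 * La T < ‖PP 0 t‖}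
      · simp only [Set.indicator_of_mem ht]
        rfl
      · simp only [Set.indicator_of_notMem ht, add_zero]
    · by_cases ht : t ∈ {t | 40 * La T < ‖PP (Yt T) t‖}
      · simp only [Set.indicator_of_mem ht]
        rfl
      · simp only [Set.indicator_of_notMem ht, add_zero]
  have hEf : Eo η u T = fun t => 3 * δ * X0 t +
      ((Set.indicator {t | 40 * La T < ‖PP 0 t‖} X0 t + (Set.indicator {t | 40 * La T < ‖PP 0 t‖} (X1 u) t +
        Set.indicator {t | 40 * La T < ‖PP 0 t‖} (X1 (-u)) t)) +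
      (Set.indicator {t | 40 * La T < ‖PP (Yt T) t‖} X0 t + (Set.indicator {t | 40 * La T < ‖PP (Yt T) t‖} (X1 u) t +
        Set.indicator {t | 40 * La T < ‖PP (Yt T) t‖} (X1 (-u)) t))) := funext hEo
  have iX0 : ∀ a b : ℝ, IntervalIntegrable (fun t => 3 * δ * X0 t) volume a b := fun a b =>
    (continuous_const.mul hX0c).intervalIntegrable a b
  have j0 : ∀ a b : ℝ, IntervalIntegrable (fun t => Set.indicator {t | 40 * La T < ‖PP 0 t‖} X0 t +
      (Set.indicator {t | 40 * La T < ‖PP 0 t‖} (X1 u) t +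
        Set.indicator {t | 40 * La T < ‖PP 0 t‖} (X1 (-u)) t)) volume a b := fun a b =>
    (i00 a b).add ((i10 a b).add (i20 a b))
  have jY : ∀ a b : ℝ, IntervalIntegrable (fun t => Set.indicator {t | 40 * La T < ‖PP (Yt T) t‖} X0 t +
      (Set.indicator {t | 40 * La T < ‖PP (Yt T) t‖} (X1 u) t +
        Set.indicator {t | 40 * La T < ‖PP (Yt T) t‖} (X1 (-u)) t)) volume a b := fun a b =>
    (i0Y a b).add ((i1Y a b).add (i2Y a b))
  refine ⟨fun a b => ?_, fun t => ?_, ?_⟩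
  · rw [hEf]
    exact (iX0 a b).add ((j0 a b).add (jY a b))
  · rw [hEo]
    have hx0 : ∀ t, 0 ≤ X0 t := fun t => sq_nonneg _
    have hx1 : ∀ w t, 0 ≤ X1 w t := fun w t => sq_nonneg _
    have a1 : ∀ a, 0 ≤ Set.indicator {t | 40 * La T < ‖PP a t‖} X0 t := fun a =>
      Set.indicator_nonneg (fun t _ => hx0 t) t
    have a2 : ∀ a w, 0 ≤ Set.indicator {t | 40 * La T < ‖PP a t‖} (X1 w) t := fun a w =>
      Set.indicator_nonneg (fun t _ => hx1 w t) t
    have := a1 0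
    have := a1 (Yt T)
    have := a2 0 u
    have := a2 0 (-u)
    have := a2 (Yt T) u
    have := a2 (Yt T) (-u)
    have := hx0 t
    have : 0 ≤ δ := (Real.exp_pos _).le
    positivity
  · rw [hEf, intervalIntegral.integral_add (iX0 _ _) ((j0 _ _).add (jY _ _)),
      intervalIntegral.integral_add (j0 _ _) (jY _ _),
      intervalIntegral.integral_add (i00 _ _) ((i10 _ _).add (i20 _ _)),
      intervalIntegral.integral_add (i10 _ _) (i20 _ _),
      intervalIntegral.integral_add (i0Y _ _) ((i1Y _ _).add (i2Y _ _)),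
      intervalIntegral.integral_add (i1Y _ _) (i2Y _ _), intervalIntegral.integral_const_mul]
    have h1 := hD T (4 * T) (by linarith)
    have h2 : δ * (24 / ε) ≤ 1 := by
      have h3 : 24 / ε ≤ (el T : ℝ) := by
        have := le_el (T := T)
        linarith
      have h4 : (24 / ε) ≤ Real.exp (el T : ℝ) := by
        have := Real.add_one_le_exp (el T : ℝ)
        linarith
      calc δ * (24 / ε) ≤ δ * Real.exp (el T : ℝ) := mul_le_mul_of_nonneg_left h4 (Real.exp_pos _).le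
        _ = 1 := by rw [hδ, ← Real.exp_add]; simp
    have h5 : δ ≤ ε / 24 := by
      rw [← le_div_iff₀ (by positivity)] at h2
      calc δ ≤ 1 / (24 / ε) := h2
        _ = ε / 24 := by field_simp
    have h6 : 3 * δ * ∫ t in T..(4 * T), X0 t ≤ ε / 2 * T * Real.log T := by
      have h7 : ∫ t in T..(4 * T), X0 t ≤ 4 * T * Real.log T := by
        refine h1.trans (le_of_eq ?_)
        ring
      have h8 : 0 ≤ 3 * δ := by have := (Real.exp_pos (-(el T : ℝ))).le; positivity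
      calc 3 * δ * ∫ t in T..(4 * T), X0 t ≤ 3 * δ * (4 * T * Real.log T) := mul_le_mul_of_nonneg_left h7 h8
        _ ≤ 3 * (ε / 24) * (4 * T * Real.log T) := by gcongr
        _ = ε / 2 * T * Real.log T := by ring
    have h9 : 6 * (T / Real.log T) ≤ ε / 2 * T * Real.log T := by
      have hL1' : 1 ≤ Real.log T := by
        have : 0 < 12 / ε := by positivity
        linarith
      have h10 : 12 / ε ≤ Real.log T * Real.log T := by
        have : 12 / ε ≤ Real.log T := by linarith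
        nlinarith
      rw [div_le_iff₀ hε] at h10
      rw [← mul_div_assoc, div_le_iff₀ hL]
      nlinarith
    linarith

/-- the pointwise error -/
theorem Eo_pt (hET : J_ETc) (η u : ℝ) : ∀ᶠ T : ℝ in atTop, ∀ t : ℝ,
    ‖(starRingEnd ℂ) (chi t) * Dp η T t ^ 2 * Complex.exp (((u * De T 1 0 t : ℝ) : ℂ) * Complex.I) -
      Complex.exp (((-(vu T 1 fun _ => u) : ℝ) : ℂ) * Complex.I) * ((starRingEnd ℂ) (chi t) * Dp η T t ^ 2 *
        (eT (el T) (PVc (zc (Yt T)) (wc T u) t) *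
          (starRingEnd ℂ) (eT (el T) (PVc (zc (Yt T)) (wc T (-u)) t))))‖ ≤ Eo η u T t := by
  have s6 : ∀ᶠ T : ℝ in atTop, (|u| + 1) ≤ Real.sqrt (La T) :=
    (Real.tendsto_sqrt_atTop.comp tendsto_La).eventually_ge_atTop _
  filter_upwards [tendsto_el.eventually hET, s6, Pool.Agent.Q237.EW.ev_Yt] with T eet s6 hYT t
  obtain ⟨hY0, hYL, hL1⟩ := hYT
  have hL0 : 0 < La T := by linarith
  set Z := zc (Yt T) with hZ
  set E1 := eT (el T) (PVc Z (wc T u) t) with hE1
  set E3 := eT (el T) (PVc Z (wc T (-u)) t) with hE3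
  set c : ℂ := Complex.exp (((-(vu T 1 fun _ => u) : ℝ) : ℂ) * Complex.I) with hc
  have hc1 : ‖c‖ = 1 := Complex.norm_exp_ofReal_mul_I _
  set ex := Complex.exp (((u * De T 1 0 t : ℝ) : ℂ) * Complex.I) with hex
  have hex1 : ‖ex‖ = 1 := Complex.norm_exp_ofReal_mul_I _
  have hid : (starRingEnd ℂ) (chi t) * Dp η T t ^ 2 * ex - c * ((starRingEnd ℂ) (chi t) * Dp η T t ^ 2 *
      (E1 * (starRingEnd ℂ) E3)) = ((starRingEnd ℂ) (chi t) * Dp η T t ^ 2) * (ex - c * (E1 * (starRingEnd ℂ) E3)) := by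
    ring
  rw [hid, norm_mul, norm_mul, RCLike.norm_conj, chi_norm, one_mul, norm_pow]
  have hD0 : 0 ≤ ‖Dp η T t‖ ^ 2 := sq_nonneg _
  set F : ℝ → ℝ := fun t => ‖Dp η T t‖ ^ 2 +
    ((‖Dp η T t‖ * ‖eT (el T) (PVc Z (wc T u) t)‖) ^ 2 +
      (‖Dp η T t‖ * ‖eT (el T) (PVc Z (wc T (-u)) t)‖) ^ 2) with hF
  have hF0 : ∀ t, 0 ≤ F t := fun t => by rw [hF]; positivity
  have hEo : Eo η u T t = 3 * Real.exp (-(el T : ℝ)) * ‖Dp η T t‖ ^ 2 +
    (Set.indicator {t | 40 * La T < ‖PP 0 t‖} F t + Set.indicator {t | 40 * La T < ‖PP (Yt T) t‖} F t) := rfl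
  have i0 : 0 ≤ Set.indicator {t | 40 * La T < ‖PP 0 t‖} F t := Set.indicator_nonneg (fun t _ => hF0 t) t
  have iY : 0 ≤ Set.indicator {t | 40 * La T < ‖PP (Yt T) t‖} F t := Set.indicator_nonneg (fun t _ => hF0 t) t
  by_cases hNE : NE T 1 t
  · have hPn : ∀ (w : ℝ), |w| ≤ Real.sqrt (La T) → ‖PVc Z (wc T w) t‖ ≤ (el T : ℝ) / 10 := by
      intro w hw
      rw [PVc_wc, norm_mul, Complex.norm_I, one_mul]
      have h1 := PV_bd (m := 1) le_rfl hY0 hL0 (fun _ => w) (by rwa [Fin.sum_univ_one]) hNE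
      have h2 := le_el (T := T)
      linarith
    have r1 := eet _ (hPn u (by linarith))
    have r3 := eet _ (hPn (-u) (by rw [abs_neg]; linarith))
    set e1 := Complex.exp (PVc Z (wc T u) t) with he1
    set e3 := Complex.exp (PVc Z (wc T (-u)) t) with he3
    set δ : ℝ := Real.exp (-(el T : ℝ)) with hδ
    have hδ0 : 0 ≤ δ := (Real.exp_pos _).le
    have hδ1 : δ ≤ 1 := Real.exp_le_one_iff.2 (by have := Nat.cast_nonneg (α := ℝ) (el T); linarith)
    have r3' : ‖(starRingEnd ℂ) E3 - (starRingEnd ℂ) e3‖ ≤ δ * ‖(starRingEnd ℂ) e3‖ := by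
      rw [← map_sub, RCLike.norm_conj, RCLike.norm_conj]; exact r3
    have r5 := two_le hδ0 r1 r3'
    have hch : ex = c * (e1 * (starRingEnd ℂ) e3) := char1 hY0 u t
    have hn1 : ‖e1 * (starRingEnd ℂ) e3‖ = 1 := by
      have h1 : ‖c * (e1 * (starRingEnd ℂ) e3)‖ = 1 := by rw [← hch, hex1]
      rwa [norm_mul, hc1, one_mul] at h1
    rw [hn1, mul_one] at r5
    have h6 : ‖ex - c * (E1 * (starRingEnd ℂ) E3)‖ ≤ 3 * δ := by
      have h7 : ex - c * (E1 * (starRingEnd ℂ) E3) = -(c * (E1 * (starRingEnd ℂ) E3 - e1 * (starRingEnd ℂ) e3)) := by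
        rw [hch]; ring
      rw [h7, norm_neg, norm_mul, hc1, one_mul]
      refine r5.trans ?_
      nlinarith
    rw [hEo]
    have h8 := mul_le_mul_of_nonneg_left h6 hD0
    linarith
  · have hFt : ‖Dp η T t‖ ^ 2 * ‖ex - c * (E1 * (starRingEnd ℂ) E3)‖ ≤ F t := by
      have h1 : ‖ex - c * (E1 * (starRingEnd ℂ) E3)‖ ≤ 1 + ‖E1‖ * ‖E3‖ := by
        refine (norm_sub_le _ _).trans ?_
        rw [hex1, norm_mul, hc1, one_mul, norm_mul, RCLike.norm_conj]
      have h2 : ‖E1‖ * ‖E3‖ ≤ ‖E1‖ ^ 2 + ‖E3‖ ^ 2 := by nlinarith [sq_nonneg (‖E1‖ - ‖E3‖), sq_nonneg (‖E1‖ + ‖E3‖)]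
      calc ‖Dp η T t‖ ^ 2 * ‖ex - c * (E1 * (starRingEnd ℂ) E3)‖ ≤ ‖Dp η T t‖ ^ 2 * (1 + (‖E1‖ ^ 2 + ‖E3‖ ^ 2)) :=
            mul_le_mul_of_nonneg_left (by linarith) hD0
        _ = F t := by rw [hF]; ring
    have h3 : 0 ≤ 3 * Real.exp (-(el T : ℝ)) * ‖Dp η T t‖ ^ 2 := by positivity
    rw [hEo]
    rcases not_NE hNE with h | h
    · have hm : t ∈ {t | 40 * La T < ‖PP 0 t‖} := h
      have h4 : Set.indicator {t | 40 * La T < ‖PP 0 t‖} F t = F t := Set.indicator_of_mem hm F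
      linarith
    · have hm : t ∈ {t | 40 * La T < ‖PP (Yt T) t‖} := h
      have h4 : Set.indicator {t | 40 * La T < ‖PP (Yt T) t‖} F t = F t := Set.indicator_of_mem hm F
      linarith

/-- oscillation in windows with a character -/
theorem osw (hE : J_EXP) (hMV : J_MV) (hMASS : J_MASS) (hFF : J_FF) (hEXC : J_EXCc) (hET : J_ETc) (hAP : J_AP2c)
    (η u y ε : ℝ) (hη : 0 < η) (hη1 : η ≤ 1 / 100) (hy : 0 < y) (hε : 0 < ε) : ∀ᶠ T : ℝ in atTop,
    ∫ t in T..(3 * T), ‖∫ h in (0 : ℝ)..(UU y T), (starRingEnd ℂ) (chi (t + h)) * Dp η T (t + h) ^ 2 *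
      Complex.exp (((u * De T 1 0 (t + h) : ℝ) : ℂ) * Complex.I)‖ ≤ ε * (UU y T * T * Real.log T) := by
  obtain ⟨CA, hAP⟩ := hAP η u hη hη1
  filter_upwards [hAP, Eo_int hE hMV hMASS hFF hEXC η u (ε / 2) hη hη1 (by positivity), Eo_pt hET η u,
    ev_UU y (1 / 10) (by norm_num), ev_pow_UU CA y (ε / 2) hy (by positivity), Pool.Agent.Q237.EW.ev_Yt,
    eventually_ge_atTop 100] with T hAP hEi hEp hU10 hpow hYT hT100
  obtain ⟨hEi, hE0, hEb⟩ := hEi
  obtain ⟨hY0, hYL, hL1⟩ := hYT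
  have hT0 : 0 < T := by linarith
  have hL : 0 < Real.log T := Real.log_pos (by linarith)
  set U : ℝ := UU y T with hU
  have hU1 : 1 ≤ U := Real.one_le_exp (by positivity)
  have hU0 : 0 < U := by linarith
  have hUT' : U ≤ T ^ (1 / 10 : ℝ) := hU10
  have hUT : U ≤ T := hUT'.trans (by
    calc T ^ (1 / 10 : ℝ) ≤ T ^ (1 : ℝ) := Real.rpow_le_rpow_of_exponent_le (by linarith) (by norm_num)
      _ = T := Real.rpow_one T)
  have a1 := hAP U hU1 hUT'
  have hDc : Continuous (Dp η T) := Dp_cont hE η T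
  set Z := zc (Yt T) with hZ
  have cE : ∀ w : ℝ, Continuous fun t => eT (el T) (PVc Z (wc T w) t) := fun w => (eT_cont (el T)).comp (PVc_cont _ _)
  have cC : Continuous fun t => (starRingEnd ℂ) (chi t) * Dp η T t ^ 2 :=
    (Complex.continuous_conj.comp chi_cont).mul (hDc.pow 2)
  set f : ℝ → ℂ := fun t => (starRingEnd ℂ) (chi t) * Dp η T t ^ 2 *
    Complex.exp (((u * De T 1 0 t : ℝ) : ℂ) * Complex.I) with hf
  set g : ℝ → ℂ := fun t => (starRingEnd ℂ) (chi t) * Dp η T t ^ 2 *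
    (eT (el T) (PVc Z (wc T u) t) * (starRingEnd ℂ) (eT (el T) (PVc Z (wc T (-u)) t))) with hg
  have hfc : Continuous f := by
    have c2 : Continuous fun t => ((u * De T 1 0 t : ℝ) : ℂ) :=
      Complex.continuous_ofReal.comp (continuous_const.mul (De_cont T 1 0))
    exact cC.mul (Complex.continuous_exp.comp (c2.mul continuous_const))
  have hgc : Continuous g := cC.mul ((cE u).mul (Complex.continuous_conj.comp (cE (-u))))
  set c : ℂ := Complex.exp (((-(vu T 1 fun _ => u) : ℝ) : ℂ) * Complex.I) with hc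
  have hc1 : ‖c‖ = 1 := Complex.norm_exp_ofReal_mul_I _
  have hE0' : ∀ t, ‖f t - c * g t‖ ≤ Eo η u T t := fun t => hEp t
  have hpt : ∀ t : ℝ, ‖∫ h in (0 : ℝ)..U, f (t + h)‖ ≤ ‖∫ h in (0 : ℝ)..U, g (t + h)‖ +
      ∫ s in t..(t + U), Eo η u T s := by
    intro t
    have cf : Continuous fun h => f (t + h) := hfc.comp (continuous_const.add continuous_id)
    have cg : Continuous fun h => g (t + h) := hgc.comp (continuous_const.add continuous_id)
    have ccg : Continuous fun h => c * g (t + h) := continuous_const.mul cg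
    have e1 : ∫ h in (0 : ℝ)..U, f (t + h) = c * (∫ h in (0 : ℝ)..U, g (t + h)) +
        ∫ h in (0 : ℝ)..U, (f (t + h) - c * g (t + h)) := by
      rw [intervalIntegral.integral_sub (cf.intervalIntegrable _ _) (ccg.intervalIntegrable _ _),
        intervalIntegral.integral_const_mul]
      ring
    rw [e1]
    refine (norm_add_le _ _).trans ?_
    rw [norm_mul, hc1, one_mul]
    refine add_le_add le_rfl ?_
    rw [← win_eq]
    have hi : IntervalIntegrable (fun h => Eo η u T (t + h)) volume 0 U := by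
      have := (hEi (t + 0) (t + U)).comp_add_left t
      simpa using this
    refine (intervalIntegral.norm_integral_le_integral_norm hU0.le).trans ?_
    refine intervalIntegral.integral_mono_on hU0.le ?_ hi fun h _ => hE0' (t + h)
    exact ((cf.sub (continuous_const.mul cg)).norm).intervalIntegrable _ _
  have hWf : Continuous fun t => ‖∫ h in (0 : ℝ)..U, f (t + h)‖ := (winC_cont f hfc U).norm
  have hWg : Continuous fun t => ‖∫ h in (0 : ℝ)..U, g (t + h)‖ := (winC_cont g hgc U).norm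
  have hWe : Continuous fun t => ∫ s in t..(t + U), Eo η u T s := win_cont _ hEi U
  have h1 : ∫ t in T..(3 * T), ‖∫ h in (0 : ℝ)..U, f (t + h)‖ ≤
      (∫ t in T..(3 * T), ‖∫ h in (0 : ℝ)..U, g (t + h)‖) + ∫ t in T..(3 * T), ∫ s in t..(t + U), Eo η u T s := by
    rw [← intervalIntegral.integral_add (hWg.intervalIntegrable _ _) (hWe.intervalIntegrable _ _)]
    exact intervalIntegral.integral_mono_on (by linarith) (hWf.intervalIntegrable _ _)
      ((hWg.add hWe).intervalIntegrable _ _) fun t _ => hpt t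
  have h2 := slide' hEi hE0 (A := T) (B := 3 * T) hU0.le
  have h3 : ∫ s in T..(3 * T + U), Eo η u T s ≤ ∫ s in T..(4 * T), Eo η u T s := by
    have e1 := intervalIntegral.integral_add_adjacent_intervals (hEi T (3 * T + U)) (hEi (3 * T + U) (4 * T))
    have e2 : 0 ≤ ∫ u_1 in (3 * T + U)..(4 * T), Eo η u T u_1 :=
      intervalIntegral.integral_nonneg (by linarith) fun u _ => hE0 _
    linarith
  have h4 : U * ∫ s in T..(3 * T + U), Eo η u T s ≤ U * (ε / 2 * T * Real.log T) :=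
    mul_le_mul_of_nonneg_left (h3.trans hEb) hU0.le
  have h5 : CA * T * La T ^ 5 * Real.log T ≤ ε / 2 * U * (T * Real.log T) := by
    have := mul_le_mul_of_nonneg_right hpow (by positivity : 0 ≤ T * Real.log T)
    calc CA * T * La T ^ 5 * Real.log T = CA * La T ^ 5 * (T * Real.log T) := by ring
      _ ≤ _ := this
  have h6 : ∫ t in T..(3 * T), ‖∫ h in (0 : ℝ)..U, g (t + h)‖ ≤ CA * T * La T ^ 5 * Real.log T := a1
  calc ∫ t in T..(3 * T), ‖∫ h in (0 : ℝ)..U, f (t + h)‖ ≤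
        ε / 2 * U * (T * Real.log T) + U * (ε / 2 * T * Real.log T) := by linarith
    _ = ε * (U * T * Real.log T) := by ring

end Pool.Agent.Q61.EW
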