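import Pool.Agent.Q61.EW.Loc

/-! Job EU of the project EW of helper80: the Euler product. -/

set_option autoImplicit false

namespace Pool.Agent.Q61.EW

open Filter Topology Finset
open Pool.Agent.Q80.EW

/-! ### Values at prime powers -/

theorem conv_pow (f g : ArithmeticFunction ℂ) {p : ℕ} (hp : p.Prime) (k : ℕ) :
    (f * g) (p ^ k) = ∑ x ∈ antidiagonal k, f (p ^ x.1) * g (p ^ x.2) := by
  rw [ArithmeticFunction.mul_apply]
  symm
  refine Finset.sum_bij (fun x _ => (p ^ x.1, p ^ x.2)) ?_ ?_ ?_ ?_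
  · rintro ⟨i, j⟩ h
    rw [Nat.mem_divisorsAntidiagonal]
    refine ⟨?_, pow_ne_zero _ hp.ne_zero⟩
    change p ^ i * p ^ j = p ^ k
    rw [← pow_add, HasAntidiagonal.mem_antidiagonal.1 h]
  · rintro ⟨i, j⟩ _ ⟨i', j'⟩ _ h
    have h1 : p ^ i = p ^ i' := congrArg Prod.fst h
    have h2 : p ^ j = p ^ j' := congrArg Prod.snd h
    rw [Nat.pow_right_injective hp.two_le h1, Nat.pow_right_injective hp.two_le h2]
  · rintro ⟨a, b⟩ h
    rw [Nat.mem_divisorsAntidiagonal] at h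
    obtain ⟨h1, -⟩ := h
    obtain ⟨i, -, hi⟩ := (Nat.dvd_prime_pow hp).1 (Dvd.intro _ h1)
    obtain ⟨j, -, hj⟩ := (Nat.dvd_prime_pow hp).1 (Dvd.intro_left _ h1)
    refine ⟨(i, j), ?_, ?_⟩
    · rw [HasAntidiagonal.mem_antidiagonal]
      change i + j = k
      apply Nat.pow_right_injective hp.two_le
      change p ^ (i + j) = p ^ k
      rw [pow_add, ← hi, ← hj]
      exact h1
    · change (p ^ i, p ^ j) = (a, b)
      rw [← hi, ← hj]
  · rintro ⟨i, j⟩ _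
    rfl

section

variable {p : ℕ} {f g : ArithmeticFunction ℂ}

theorem LB_one (hp : p.Prime) (hf : ∀ k, ‖f (p ^ k)‖ ≤ 1) (hg : ∀ k, ‖g (p ^ k)‖ ≤ 1) (k : ℕ) :
    ‖(f * g) (p ^ k)‖ ≤ 1 * ((k : ℝ) + 1) := by
  rw [conv_pow f g hp]
  refine (norm_sum_le _ _).trans ?_
  have h1 : ∀ x ∈ antidiagonal k, ‖f (p ^ x.1) * g (p ^ x.2)‖ ≤ (1 : ℝ) := by
    intro x _
    rw [norm_mul]
    exact mul_le_one₀ (hf _) (norm_nonneg _) (hg _)
  refine (Finset.sum_le_sum h1).trans (le_of_eq ?_)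
  rw [Finset.sum_const, Finset.Nat.card_antidiagonal, nsmul_eq_mul]
  push_cast
  ring

theorem LB_mul (hp : p.Prime) {A B : ℝ} (hA : 0 ≤ A) (hf : ∀ k : ℕ, ‖f (p ^ k)‖ ≤ A * ((k : ℝ) + 1))
    (hg : Summable fun k => ‖g (p ^ k)‖) (hB : ∑' k, ‖g (p ^ k)‖ ≤ B) (k : ℕ) :
    ‖(f * g) (p ^ k)‖ ≤ A * B * ((k : ℝ) + 1) := by
  rw [conv_pow f g hp]
  refine (norm_sum_le _ _).trans ?_
  have h1 : ∀ x ∈ antidiagonal k, ‖f (p ^ x.1) * g (p ^ x.2)‖ ≤
      A * ((k : ℝ) + 1) * ‖g (p ^ x.2)‖ := by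
    intro x hx
    rw [norm_mul]
    refine mul_le_mul_of_nonneg_right ((hf _).trans ?_) (norm_nonneg _)
    refine mul_le_mul_of_nonneg_left ?_ hA
    have h2 : x.1 ≤ k := by
      have := HasAntidiagonal.mem_antidiagonal.1 hx
      omega
    have h3 : (x.1 : ℝ) ≤ k := by exact_mod_cast h2
    linarith
  refine (Finset.sum_le_sum h1).trans ?_
  rw [← Finset.mul_sum]
  have h2 : ∑ x ∈ antidiagonal k, ‖g (p ^ x.2)‖ ≤ B := by
    have h3 : ∑ x ∈ antidiagonal k, ‖g (p ^ x.2)‖ = ∑ j ∈ range (k + 1), ‖g (p ^ j)‖ := by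
      rw [← Finset.Nat.sum_antidiagonal_swap, Finset.Nat.sum_antidiagonal_eq_sum_range_succ_mk]
      rfl
    rw [h3]
    exact (hg.sum_le_tsum _ fun _ _ => norm_nonneg _).trans hB
  have h4 : 0 ≤ A * ((k : ℝ) + 1) := by positivity
  calc A * ((k : ℝ) + 1) * ∑ x ∈ antidiagonal k, ‖g (p ^ x.2)‖ ≤ A * ((k : ℝ) + 1) * B :=
        mul_le_mul_of_nonneg_left h2 h4
    _ = A * B * ((k : ℝ) + 1) := by ring

theorem val_one_mul (f g : ArithmeticFunction ℂ) : (f * g) 1 = f 1 * g 1 := by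
  rw [ArithmeticFunction.mul_apply, Nat.divisorsAntidiagonal_one, Finset.sum_singleton]

theorem val_prime_mul (hp : p.Prime) (hf : f 1 = 1) (hg : g 1 = 1) :
    (f * g) p = f p + g p := by
  have h := conv_pow f g hp 1
  rw [pow_one] at h
  rw [h, Finset.Nat.antidiagonal_succ]
  simp [hf, hg]
  ring

end

/-! ### The factors -/

theorem norm_npow (h : ℝ) (n : ℕ) (hn : n ≠ 0) : ‖(n : ℂ) ^ (-((h : ℂ) * Complex.I))‖ = 1 := by
  rw [Complex.norm_natCast_cpow_of_pos (Nat.pos_of_ne_zero hn)]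
  simp

theorem sh_apply (h : ℝ) (f : ArithmeticFunction ℂ) (n : ℕ) :
    sh h f n = f n * (n : ℂ) ^ (-((h : ℂ) * Complex.I)) := rfl

theorem sm_apply (Z n : ℕ) : sm Z n = if n ∈ Nat.smoothNumbers Z then 1 else 0 := rfl

theorem sub_apply' (f g : ArithmeticFunction ℂ) (n : ℕ) : (f - g) n = f n - g n := by
  rw [sub_eq_add_neg, ArithmeticFunction.add_apply, ArithmeticFunction.neg_apply, sub_eq_add_neg]

theorem ex_apply (v : ℕ → ℝ) (n : ℕ) : ex v n = if n = 0 then 0 else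
    ((n.factorization.prod fun p a => v p ^ a / (a.factorial : ℝ) : ℝ) : ℂ) := rfl

theorem norm_sh (h : ℝ) (f : ArithmeticFunction ℂ) (n : ℕ) : ‖sh h f n‖ = ‖f n‖ := by
  rw [sh_apply, norm_mul]
  by_cases hn : n = 0
  · rw [hn, ArithmeticFunction.map_zero, norm_zero, zero_mul]
  · rw [norm_npow h n hn, mul_one]

theorem norm_sm (Z n : ℕ) : ‖sm Z n‖ ≤ 1 := by
  rw [sm_apply]
  split_ifs
  · simp
  · simp

theorem norm_sm_pow (Z s n : ℕ) (hs : s ≤ 1) : ‖(sm Z ^ s) n‖ ≤ 1 := by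
  interval_cases s
  · rw [pow_zero, ArithmeticFunction.one_apply]
    split_ifs
    · simp
    · simp
  · rw [pow_one]
    exact norm_sm Z n

theorem norm_shsm_pow (h : ℝ) (Z s n : ℕ) (hs : s ≤ 1) : ‖(sh h (sm Z) ^ s) n‖ ≤ 1 := by
  interval_cases s
  · rw [pow_zero, ArithmeticFunction.one_apply]
    split_ifs
    · simp
    · simp
  · rw [pow_one, norm_sh]
    exact norm_sm Z n

theorem ex_pow (v : ℕ → ℝ) {p : ℕ} (hp : p.Prime) (k : ℕ) :
    ex v (p ^ k) = ((v p ^ k / (k.factorial : ℝ) : ℝ) : ℂ) := by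
  rw [ex_apply, if_neg (pow_ne_zero _ hp.ne_zero), hp.factorization_pow,
    Finsupp.prod_single_index (by simp)]

theorem norm_ex_pow (v : ℕ → ℝ) {p : ℕ} (hp : p.Prime) (k : ℕ) :
    ‖ex v (p ^ k)‖ = |v p| ^ k / (k.factorial : ℝ) := by
  rw [ex_pow v hp, Complex.norm_real, Real.norm_eq_abs, abs_div, abs_pow, Nat.abs_cast]

theorem hasSum_exp' (t : ℝ) : HasSum (fun k : ℕ => t ^ k / (k.factorial : ℝ)) (Real.exp t) := by
  rw [Real.exp_eq_exp_ℝ]
  exact NormedSpace.expSeries_div_hasSum_exp t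

theorem summ_ex (v : ℕ → ℝ) {p : ℕ} (hp : p.Prime) : HasSum (fun k => ‖ex v (p ^ k)‖)
    (Real.exp |v p|) := by
  have h := hasSum_exp' |v p|
  refine h.congr_fun fun k => ?_
  exact norm_ex_pow v hp k

theorem exp_le_of {t : ℝ} (h : |t| ≤ 2) : Real.exp |t| ≤ Real.exp 2 := Real.exp_le_exp.2 h

/-- the function `ex v - 1` -/
theorem summ_ex1 (v : ℕ → ℝ) {p : ℕ} (hp : p.Prime) (hv : |v p| ≤ 2) :
    Summable (fun k => ‖(ex v - 1) (p ^ k)‖) ∧
      ∑' k, ‖(ex v - 1) (p ^ k)‖ ≤ |v p| * Real.exp 2 := by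
  have h0 : ∀ k, ‖(ex v - 1) (p ^ (k + 1))‖ = |v p| ^ (k + 1) / ((k + 1).factorial : ℝ) := by
    intro k
    have h1 : (ex v - 1) (p ^ (k + 1)) = ex v (p ^ (k + 1)) := by
      rw [sub_apply', ArithmeticFunction.one_apply_ne, sub_zero]
      exact (Nat.one_lt_pow (Nat.succ_ne_zero k) hp.one_lt).ne'
    rw [h1, norm_ex_pow v hp]
  have h00 : ‖(ex v - 1) (p ^ 0)‖ = 0 := by
    rw [sub_apply', ex_pow v hp]
    simp
  have hs : Summable fun k => ‖(ex v - 1) (p ^ k)‖ := by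
    rw [← summable_nat_add_iff 1]
    have h2 := (summable_nat_add_iff 1).2 (hasSum_exp' |v p|).summable
    exact h2.congr fun k => (h0 k).symm
  refine ⟨hs, ?_⟩
  rw [hs.tsum_eq_zero_add, h00, zero_add]
  have h3 : ∑' k, ‖(ex v - 1) (p ^ (k + 1))‖ = Real.exp |v p| - 1 := by
    have h4 := (hasSum_exp' |v p|).summable.tsum_eq_zero_add
    rw [(hasSum_exp' |v p|).tsum_eq] at h4
    have h5 : ∑' k, ‖(ex v - 1) (p ^ (k + 1))‖ =
        ∑' k : ℕ, |v p| ^ (k + 1) / ((k + 1).factorial : ℝ) := tsum_congr h0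
    rw [h5, h4]
    simp
  rw [h3]
  have h6 : Real.exp |v p| - 1 ≤ |v p| * Real.exp |v p| := by
    have h7 := Real.add_one_le_exp (-|v p|)
    have h8 : Real.exp (-|v p|) * Real.exp |v p| = 1 := by
      rw [← Real.exp_add]
      simp
    nlinarith [Real.exp_pos |v p|]
  exact h6.trans (mul_le_mul_of_nonneg_left (exp_le_of hv) (abs_nonneg _))

theorem mult_sm (Z : ℕ) : (sm Z).IsMultiplicative := by
  refine ⟨?_, fun {m n} hmn => ?_⟩
  · rw [sm_apply, if_pos (Nat.mem_smoothNumbers'.2 fun p hp h => absurd (Nat.dvd_one.1 h) hp.ne_one)]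
  · rw [sm_apply, sm_apply, sm_apply]
    by_cases h1 : m ∈ Nat.smoothNumbers Z
    · by_cases h2 : n ∈ Nat.smoothNumbers Z
      · rw [if_pos h1, if_pos h2, if_pos (Nat.mul_mem_smoothNumbers h1 h2), mul_one]
      · rw [if_neg h2, mul_zero, if_neg fun h => h2 (Nat.mem_smoothNumbers_of_dvd h
          (Dvd.intro_left _ rfl))]
    · rw [if_neg h1, zero_mul, if_neg fun h => h1 (Nat.mem_smoothNumbers_of_dvd h
          (Dvd.intro _ rfl))]

theorem mult_sh (h : ℝ) {f : ArithmeticFunction ℂ} (hf : f.IsMultiplicative) :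
    (sh h f).IsMultiplicative := by
  refine ⟨?_, fun {m n} hmn => ?_⟩
  · rw [sh_apply, hf.map_one]
    simp
  · rw [sh_apply, sh_apply, sh_apply, hf.map_mul_of_coprime hmn, Nat.cast_mul,
      Complex.natCast_mul_natCast_cpow]
    ring

theorem mult_ex (v : ℕ → ℝ) : (ex v).IsMultiplicative := by
  rw [ArithmeticFunction.IsMultiplicative.iff_ne_zero]
  refine ⟨?_, fun {m n} hm hn hmn => ?_⟩
  · rw [ex_apply]
    simp
  · rw [ex_apply, ex_apply, ex_apply, if_neg hm, if_neg hn, if_neg (mul_ne_zero hm hn),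
      Nat.factorization_mul_of_coprime hmn, Finsupp.prod_add_index_of_disjoint
        (by simpa using hmn.disjoint_primeFactors), Complex.ofReal_mul]

theorem mult_GG (s0 s1 Z : ℕ) (h : ℝ) (v v' : ℕ → ℝ) : (GG s0 s1 Z h v v').IsMultiplicative :=
  ((((mult_sm Z).pow).mul ((mult_sh h (mult_sm Z)).pow)).mul (mult_ex v)).mul
    (mult_sh h (mult_ex v'))

theorem ex_zero : ex 0 = 1 := by
  ext n
  by_cases h : n = 0
  · rw [h]
    simp
  by_cases h1 : n = 1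
  · rw [h1, (mult_ex 0).map_one, ArithmeticFunction.one_one]
  · rw [ArithmeticFunction.one_apply_ne h1, ex_apply, if_neg h]
    norm_cast
    obtain ⟨p, hp, hpn⟩ := Nat.exists_prime_and_dvd h1
    refine Finset.prod_eq_zero (i := p) ?_ ?_
    · rw [Nat.support_factorization]
      exact Nat.mem_primeFactors.2 ⟨hp, hpn, h⟩
    · have h2 : n.factorization p ≠ 0 := by
        rw [← Nat.pos_iff_ne_zero]
        exact hp.factorization_pos_of_dvd h hpn
      simp [h2]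

theorem sh_one (h : ℝ) : sh h 1 = 1 := by
  ext n
  rw [sh_apply]
  by_cases h1 : n = 1
  · rw [h1]
    simp
  · rw [ArithmeticFunction.one_apply_ne h1, zero_mul]

theorem GG_zero (s0 s1 Z : ℕ) (h : ℝ) : GG s0 s1 Z h 0 0 = sm Z ^ s0 * sh h (sm Z) ^ s1 := by
  unfold GG
  rw [ex_zero, sh_one, mul_one, mul_one]

theorem sh_sub (h : ℝ) (f g : ArithmeticFunction ℂ) : sh h (f - g) = sh h f - sh h g := by
  ext n
  rw [sub_apply', sh_apply, sh_apply, sh_apply, sub_apply']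
  ring

/-! ### Local bounds -/

section

variable {s0 s1 Z : ℕ} {h : ℝ} {v v' : ℕ → ℝ} {p : ℕ}

theorem base_bound (hs0 : s0 ≤ 1) (hs1 : s1 ≤ 1) (hp : p.Prime) (k : ℕ) :
    ‖(sm Z ^ s0 * sh h (sm Z) ^ s1) (p ^ k)‖ ≤ 1 * ((k : ℝ) + 1) :=
  LB_one hp (fun _ => norm_sm_pow Z s0 _ hs0) (fun _ => norm_shsm_pow h Z s1 _ hs1) k

theorem summ_shex (hp : p.Prime) (hv : |v' p| ≤ 2) :
    Summable (fun k => ‖sh h (ex v') (p ^ k)‖) ∧
      ∑' k, ‖sh h (ex v') (p ^ k)‖ ≤ Real.exp 2 := by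
  simp only [norm_sh]
  refine ⟨(summ_ex v' hp).summable, ?_⟩
  rw [(summ_ex v' hp).tsum_eq]
  exact exp_le_of hv

theorem summ_exb (hp : p.Prime) (hv : |v p| ≤ 2) :
    Summable (fun k => ‖ex v (p ^ k)‖) ∧ ∑' k, ‖ex v (p ^ k)‖ ≤ Real.exp 2 := by
  refine ⟨(summ_ex v hp).summable, ?_⟩
  rw [(summ_ex v hp).tsum_eq]
  exact exp_le_of hv

theorem GG_bound (hs0 : s0 ≤ 1) (hs1 : s1 ≤ 1) (hp : p.Prime) (hv : |v p| ≤ 2)
    (hv' : |v' p| ≤ 2) (k : ℕ) :
    ‖GG s0 s1 Z h v v' (p ^ k)‖ ≤ Real.exp 4 * ((k : ℝ) + 1) := by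
  have h1 := fun k => LB_mul hp zero_le_one
    (fun k => base_bound (Z := Z) (h := h) hs0 hs1 hp k) (summ_exb hp hv).1 (summ_exb hp hv).2 k
  have h2 := LB_mul hp (by positivity) h1 (summ_shex (h := h) hp hv').1 (summ_shex hp hv').2 k
  refine h2.trans (le_of_eq ?_)
  rw [one_mul, ← Real.exp_add]
  norm_num

theorem GG_diff (hs0 : s0 ≤ 1) (hs1 : s1 ≤ 1) (hp : p.Prime) (hv : |v p| ≤ 2)
    (hv' : |v' p| ≤ 2) (k : ℕ) :
    ‖GG s0 s1 Z h v v' (p ^ k) - GG s0 s1 Z h 0 0 (p ^ k)‖ ≤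
      Real.exp 4 * (|v p| + |v' p|) * ((k : ℝ) + 1) := by
  have e1 : GG s0 s1 Z h v v' - GG s0 s1 Z h 0 0 =
      (sm Z ^ s0 * sh h (sm Z) ^ s1) * (ex v - 1) * sh h (ex v') +
        (sm Z ^ s0 * sh h (sm Z) ^ s1) * sh h (ex v' - 1) := by
    rw [GG_zero, sh_sub, sh_one]
    unfold GG
    ring
  have e2 : GG s0 s1 Z h v v' (p ^ k) - GG s0 s1 Z h 0 0 (p ^ k) =
      (GG s0 s1 Z h v v' - GG s0 s1 Z h 0 0) (p ^ k) :=
    (sub_apply' _ _ _).symm
  rw [e2, e1, ArithmeticFunction.add_apply]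
  refine (norm_add_le _ _).trans ?_
  have h1 := fun k => LB_mul hp zero_le_one
    (fun k => base_bound (Z := Z) (h := h) hs0 hs1 hp k) (summ_ex1 v hp hv).1
      (summ_ex1 v hp hv).2 k
  have h2 := LB_mul hp (by positivity) h1 (summ_shex (h := h) hp hv').1 (summ_shex hp hv').2 k
  have h3 := LB_mul (g := sh h (ex v' - 1)) (B := |v' p| * Real.exp 2) hp zero_le_one
    (fun k => base_bound (Z := Z) (h := h) hs0 hs1 hp k)
      (by simp only [norm_sh]; exact (summ_ex1 v' hp hv').1)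
      (by simp only [norm_sh]; exact (summ_ex1 v' hp hv').2) k
  have h4 : Real.exp 2 ≤ Real.exp 4 := Real.exp_le_exp.2 (by norm_num)
  have h5 : Real.exp 2 * Real.exp 2 = Real.exp 4 := by
    rw [← Real.exp_add]
    norm_num
  calc _ ≤ 1 * (|v p| * Real.exp 2) * Real.exp 2 * ((k : ℝ) + 1) +
        1 * (|v' p| * Real.exp 2) * ((k : ℝ) + 1) := add_le_add h2 h3
    _ = |v p| * (Real.exp 2 * Real.exp 2) * ((k : ℝ) + 1) +
        |v' p| * Real.exp 2 * ((k : ℝ) + 1) := by ring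
    _ ≤ |v p| * Real.exp 4 * ((k : ℝ) + 1) + |v' p| * Real.exp 4 * ((k : ℝ) + 1) := by
        rw [h5]
        refine add_le_add le_rfl ?_
        exact mul_le_mul_of_nonneg_right (mul_le_mul_of_nonneg_left h4 (abs_nonneg _))
          (by positivity)
    _ = _ := by ring

theorem GG_prime (hs0 : s0 ≤ 1) (hs1 : s1 ≤ 1) (hp : p.Prime) (hpZ : p < Z) :
    ‖GG s0 s1 Z h v v' p‖ ^ 2 = c1 s0 s1 h v v' p := by
  have hsmp : sm Z p = 1 := by
    rw [sm_apply, if_pos (Nat.mem_smoothNumbers'.2 fun q hq hqp => by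
      rw [(Nat.prime_dvd_prime_iff_eq hq hp).1 hqp]
      exact hpZ)]
  have hexp : ∀ w : ℕ → ℝ, ex w p = (w p : ℂ) := by
    intro w
    have := ex_pow w hp 1
    rw [pow_one] at this
    rw [this]
    simp
  have h0 : (sm Z ^ s0) p = (s0 : ℂ) := by
    interval_cases s0
    · rw [pow_zero, ArithmeticFunction.one_apply_ne hp.ne_one]
      simp
    · rw [pow_one, hsmp]
      simp
  have h1 : (sh h (sm Z) ^ s1) p = (s1 : ℂ) * (p : ℂ) ^ (-((h : ℂ) * Complex.I)) := by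
    interval_cases s1
    · rw [pow_zero, ArithmeticFunction.one_apply_ne hp.ne_one]
      simp
    · rw [pow_one, sh_apply, hsmp]
      simp
  have m0 : (sm Z ^ s0) 1 = 1 := ((mult_sm Z).pow).map_one
  have m1 : (sh h (sm Z) ^ s1) 1 = 1 := ((mult_sh h (mult_sm Z)).pow).map_one
  have m2 : ex v 1 = 1 := (mult_ex v).map_one
  have m3 : sh h (ex v') 1 = 1 := (mult_sh h (mult_ex v')).map_one
  have m01 : (sm Z ^ s0 * sh h (sm Z) ^ s1) 1 = 1 := by rw [val_one_mul, m0, m1, mul_one]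
  have m012 : (sm Z ^ s0 * sh h (sm Z) ^ s1 * ex v) 1 = 1 := by rw [val_one_mul, m01, m2, mul_one]
  have key : GG s0 s1 Z h v v' p = ((s0 : ℂ) + (v p : ℂ)) +
      ((s1 : ℂ) + (v' p : ℂ)) * (p : ℂ) ^ (-((h : ℂ) * Complex.I)) := by
    unfold GG
    rw [val_prime_mul hp m012 m3, val_prime_mul hp m01 m2, val_prime_mul hp m0 m1, h0, h1, hexp,
      sh_apply, hexp]
    ring
  rw [key]
  rfl

theorem GG_smooth (hv : Wt Z v) (hv' : Wt Z v') (n : ℕ) (hn : n ∉ Nat.smoothNumbers Z) :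
    GG s0 s1 Z h v v' n = 0 := by
  by_cases h0 : n = 0
  · rw [h0, ArithmeticFunction.map_zero]
  -- the set of functions supported on the smooth numbers
  have hmul : ∀ f g : ArithmeticFunction ℂ, (∀ m, m ∉ Nat.smoothNumbers Z → f m = 0) →
      (∀ m, m ∉ Nat.smoothNumbers Z → g m = 0) → ∀ m, m ∉ Nat.smoothNumbers Z → (f * g) m = 0 := by
    intro f g hf hg m hm
    rw [ArithmeticFunction.mul_apply]
    refine Finset.sum_eq_zero fun x hx => ?_
    by_cases h1 : x.1 ∈ Nat.smoothNumbers Z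
    · by_cases h2 : x.2 ∈ Nat.smoothNumbers Z
      · exact absurd ((Nat.mem_divisorsAntidiagonal.1 hx).1 ▸ Nat.mul_mem_smoothNumbers h1 h2) hm
      · rw [hg _ h2, mul_zero]
    · rw [hf _ h1, zero_mul]
  have hone : ∀ m, m ∉ Nat.smoothNumbers Z → (1 : ArithmeticFunction ℂ) m = 0 := by
    intro m hm
    refine ArithmeticFunction.one_apply_ne ?_
    rintro rfl
    exact hm (Nat.mem_smoothNumbers'.2 fun p hp h => absurd (Nat.dvd_one.1 h) hp.ne_one)
  have hpow : ∀ (f : ArithmeticFunction ℂ), (∀ m, m ∉ Nat.smoothNumbers Z → f m = 0) → ∀ s,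
      ∀ m, m ∉ Nat.smoothNumbers Z → (f ^ s) m = 0 := by
    intro f hf s
    induction s with
    | zero => rw [pow_zero]; exact hone
    | succ s ih => rw [pow_succ]; exact hmul _ _ ih hf
  have hsm : ∀ m, m ∉ Nat.smoothNumbers Z → sm Z m = 0 := by
    intro m hm
    rw [sm_apply, if_neg hm]
  have hsh : ∀ (f : ArithmeticFunction ℂ), (∀ m, m ∉ Nat.smoothNumbers Z → f m = 0) →
      ∀ m, m ∉ Nat.smoothNumbers Z → sh h f m = 0 := by
    intro f hf m hm
    rw [sh_apply, hf m hm, zero_mul]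
  have hex : ∀ w : ℕ → ℝ, Wt Z w → ∀ m, m ∉ Nat.smoothNumbers Z → ex w m = 0 := by
    intro w hw m hm
    rw [ex_apply]
    split_ifs with h1
    · rfl
    · have h2 : ∃ p, p.Prime ∧ p ∣ m ∧ Z ≤ p := by
        by_contra hcon
        push Not at hcon
        exact hm (Nat.mem_smoothNumbers'.2 fun p hp hpm => hcon p hp hpm)
      obtain ⟨p, hp, hpm, hZp⟩ := h2
      have h3 : (m.factorization.prod fun p a => w p ^ a / (a.factorial : ℝ)) = 0 := by
        refine Finset.prod_eq_zero (i := p) ?_ ?_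
        · rw [Nat.support_factorization]
          exact Nat.mem_primeFactors.2 ⟨hp, hpm, h1⟩
        · have h2 : m.factorization p ≠ 0 := by
            rw [← Nat.pos_iff_ne_zero]
            exact hp.factorization_pos_of_dvd h1 hpm
          change w p ^ m.factorization p / _ = 0
          rw [(hw p).2 hZp, zero_pow h2, zero_div]
      rw [h3]
      simp
  exact hmul _ _ (hmul _ _ (hmul _ _ (hpow _ hsm s0) (hpow _ (hsh _ hsm) s1)) (hex v hv))
    (hsh _ (hex v' hv')) n hn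

/-- the Euler product -/
theorem euler (hs0 : s0 ≤ 1) (hs1 : s1 ≤ 1) (hv : Wt Z v) (hv' : Wt Z v') :
    Summable (fun n : ℕ => ‖GG s0 s1 Z h v v' n‖ ^ 2 / (n : ℝ)) ∧
    nm (GG s0 s1 Z h v v') =
      ∏ p ∈ Nat.primesBelow Z, LF (fun k => GG s0 s1 Z h v v' (p ^ k)) p := by
  obtain ⟨F, hF⟩ : ∃ F : ℕ → ℝ, F = fun n : ℕ => ‖GG s0 s1 Z h v v' n‖ ^ 2 / (n : ℝ) := ⟨_, rfl⟩
  have hF1 : F 1 = 1 := by
    rw [hF]
    simp [(mult_GG s0 s1 Z h v v').map_one]
  have hFm : ∀ {m n : ℕ}, m.Coprime n → F (m * n) = F m * F n := by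
    intro m n hmn
    rw [hF]
    simp only
    rw [(mult_GG s0 s1 Z h v v').map_mul_of_coprime hmn, norm_mul, mul_pow, Nat.cast_mul]
    rw [mul_div_mul_comm]
  have hFp : ∀ p k : ℕ, F (p ^ k) = ‖GG s0 s1 Z h v v' (p ^ k)‖ ^ 2 / (p : ℝ) ^ k := by
    intro p k
    rw [hF]
    simp only
    rw [Nat.cast_pow]
  have hFn : ∀ n, 0 ≤ F n := by
    intro n
    rw [hF]
    simp only
    positivity
  have hsum : ∀ {p : ℕ}, p.Prime → Summable fun n : ℕ => ‖F (p ^ n)‖ := by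
    intro p hp
    have h1 := LF_summ (G := fun k => GG s0 s1 Z h v v' (p ^ k)) (K := Real.exp 4) (q := (p : ℝ))
      (by exact_mod_cast hp.two_le) (fun k => GG_bound hs0 hs1 hp (hv p).1 (hv' p).1 k)
    refine h1.congr fun k => ?_
    rw [Real.norm_of_nonneg (hFn _), hFp]
  obtain ⟨k1, k2⟩ := EulerProduct.summable_and_hasSum_smoothNumbers_prod_primesBelow_tsum hF1 hFm
    hsum Z
  have hsupp : Function.support F ⊆ Nat.smoothNumbers Z := by
    intro n hn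
    by_contra hcon
    apply hn
    rw [hF]
    simp only
    rw [GG_smooth hv hv' n hcon]
    simp
  have k3 : HasSum F (∏ p ∈ Nat.primesBelow Z, ∑' n : ℕ, F (p ^ n)) :=
    (hasSum_subtype_iff_of_support_subset hsupp).1 k2
  have k4 := k3.summable
  rw [hF] at k4
  refine ⟨k4, ?_⟩
  have k5 := k3.tsum_eq
  have k6 : nm (GG s0 s1 Z h v v') = ∑' n, F n := by
    rw [hF]
    rfl
  rw [k6, k5]
  refine Finset.prod_congr rfl fun p _ => ?_
  exact tsum_congr fun k => hFp p k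

end

theorem Wt_zero (Z : ℕ) : Wt Z 0 := by
  intro p
  simp

/-- JOB EU. -/
theorem t_EU : J_EU := by
  obtain ⟨C1, hC1⟩ : ∃ C, C = 2 * Real.exp 4 ^ 4 * (4 + SS) ^ 2 + 2 * Real.exp 4 ^ 2 * SS :=
    ⟨_, rfl⟩
  have hS := SS_nonneg
  have hC1p : 0 < C1 := by rw [hC1]; positivity
  obtain ⟨S2, hS2⟩ : ∃ S, S = ∑' n : ℕ, (1 : ℝ) / (n : ℝ) ^ 2 := ⟨_, rfl⟩
  have hsum2 : Summable fun n : ℕ => (1 : ℝ) / (n : ℝ) ^ 2 :=
    Real.summable_one_div_nat_pow.2 one_lt_two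
  have hS2p : 0 ≤ S2 := by
    rw [hS2]
    exact tsum_nonneg fun n => by positivity
  refine ⟨C1 * (S2 + 1), by positivity, fun s0 s1 Z h v v' hs0 hs1 hv hv' => ?_⟩
  obtain ⟨e1, e2⟩ := euler (s0 := s0) (s1 := s1) (h := h) hs0 hs1 hv hv'
  obtain ⟨-, e3⟩ := euler (s0 := s0) (s1 := s1) (h := h) hs0 hs1 (Wt_zero Z) (Wt_zero Z)
  have hloc : ∀ p ∈ Nat.primesBelow Z, _ := fun p hp =>
    local_est (G := fun k => GG s0 s1 Z h v v' (p ^ k)) (G0 := fun k => GG s0 s1 Z h 0 0 (p ^ k))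
      (K := Real.exp 4) (q := (p : ℝ)) (D := |v p| + |v' p|) (Real.exp_pos 4).le
      (by exact_mod_cast (Nat.prime_of_mem_primesBelow hp).two_le) (by positivity)
      (fun k => GG_bound hs0 hs1 (Nat.prime_of_mem_primesBelow hp) (hv p).1 (hv' p).1 k)
      (fun k => GG_bound hs0 hs1 (Nat.prime_of_mem_primesBelow hp) (Wt_zero Z p).1
        (Wt_zero Z p).1 k)
      (fun k => GG_diff hs0 hs1 (Nat.prime_of_mem_primesBelow hp) (hv p).1 (hv' p).1 k)
      (by simp only [pow_zero]; exact (mult_GG s0 s1 Z h v v').map_one)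
      (by simp only [pow_zero]; exact (mult_GG s0 s1 Z h 0 0).map_one)
  have hloc0 : ∀ p ∈ Nat.primesBelow Z, _ := fun p hp =>
    local_est (G := fun k => GG s0 s1 Z h 0 0 (p ^ k)) (G0 := fun k => GG s0 s1 Z h 0 0 (p ^ k))
      (K := Real.exp 4) (q := (p : ℝ)) (D := 0) (Real.exp_pos 4).le
      (by exact_mod_cast (Nat.prime_of_mem_primesBelow hp).two_le) le_rfl
      (fun k => GG_bound hs0 hs1 (Nat.prime_of_mem_primesBelow hp) (Wt_zero Z p).1
        (Wt_zero Z p).1 k)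
      (fun k => GG_bound hs0 hs1 (Nat.prime_of_mem_primesBelow hp) (Wt_zero Z p).1
        (Wt_zero Z p).1 k)
      (fun k => by simp)
      (by simp only [pow_zero]; exact (mult_GG s0 s1 Z h 0 0).map_one)
      (by simp only [pow_zero]; exact (mult_GG s0 s1 Z h 0 0).map_one)
  rw [← hC1] at hloc hloc0
  have hpr : ∀ p ∈ Nat.primesBelow Z, ‖GG s0 s1 Z h v v' (p ^ 1)‖ ^ 2 = c1 s0 s1 h v v' p := by
    intro p hp
    rw [pow_one]
    exact GG_prime hs0 hs1 (Nat.prime_of_mem_primesBelow hp) (Nat.lt_of_mem_primesBelow hp)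
  have hpr0 : ∀ p ∈ Nat.primesBelow Z, ‖GG s0 s1 Z h 0 0 (p ^ 1)‖ ^ 2 = c1 s0 s1 h 0 0 p := by
    intro p hp
    rw [pow_one]
    exact GG_prime hs0 hs1 (Nat.prime_of_mem_primesBelow hp) (Nat.lt_of_mem_primesBelow hp)
  have hlog : Real.log (nm (GG s0 s1 Z h v v')) =
      ∑ p ∈ Nat.primesBelow Z, Real.log (LF (fun k => GG s0 s1 Z h v v' (p ^ k)) p) := by
    rw [e2, Real.log_prod]
    intro p hp
    have := (hloc p hp).1
    positivity
  have hlog0 : Real.log (nm (GG s0 s1 Z h 0 0)) =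
      ∑ p ∈ Nat.primesBelow Z, Real.log (LF (fun k => GG s0 s1 Z h 0 0 (p ^ k)) p) := by
    rw [e3, Real.log_prod]
    intro p hp
    have := (hloc0 p hp).1
    positivity
  refine ⟨e1, ?_, ?_, ?_⟩
  · rw [e2]
    calc (1 : ℝ) = ∏ _p ∈ Nat.primesBelow Z, (1 : ℝ) := by simp
      _ ≤ _ := Finset.prod_le_prod (fun _ _ => zero_le_one) fun p hp => (hloc p hp).1
  · rw [hlog, ← Finset.sum_sub_distrib]
    refine (Finset.abs_sum_le_sum_abs _ _).trans ?_
    have h1 : ∀ p ∈ Nat.primesBelow Z,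
        |Real.log (LF (fun k => GG s0 s1 Z h v v' (p ^ k)) p) - c1 s0 s1 h v v' p / (p : ℝ)| ≤
          C1 * (1 / (p : ℝ) ^ 2) := by
      intro p hp
      have := (hloc p hp).2.1
      rw [hpr p hp] at this
      exact this
    refine (Finset.sum_le_sum h1).trans ?_
    rw [← Finset.mul_sum]
    refine mul_le_mul_of_nonneg_left ?_ hC1p.le
    have h2 : ∑ p ∈ Nat.primesBelow Z, (1 : ℝ) / (p : ℝ) ^ 2 ≤ S2 := by
      rw [hS2]
      exact hsum2.sum_le_tsum _ fun _ _ => by positivity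
    linarith
  · rw [hlog, hlog0, ← Finset.sum_sub_distrib, ← Finset.sum_sub_distrib]
    refine (Finset.abs_sum_le_sum_abs _ _).trans ?_
    have h1 : ∀ p ∈ Nat.primesBelow Z,
        |Real.log (LF (fun k => GG s0 s1 Z h v v' (p ^ k)) p) -
          Real.log (LF (fun k => GG s0 s1 Z h 0 0 (p ^ k)) p) -
          (c1 s0 s1 h v v' p - c1 s0 s1 h 0 0 p) / (p : ℝ)| ≤
          C1 * ((|v p| + |v' p|) / (p : ℝ) ^ 2) := by
      intro p hp
      have := (hloc p hp).2.2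
      rw [hpr p hp, hpr0 p hp] at this
      exact this
    refine (Finset.sum_le_sum h1).trans ?_
    rw [← Finset.mul_sum]
    refine mul_le_mul_of_nonneg_right ?_ (Finset.sum_nonneg fun p _ => by positivity)
    nlinarith

end Pool.Agent.Q61.EW
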