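import Pool.Agent.Q61.EW.FF

/-! Job EXC of the project EW of helper80. -/

set_option autoImplicit false

namespace Pool.Agent.Q61.EW

open Filter Topology Finset Pool.Agent.Q80.EW MeasureTheory

theorem fact_bound {x : ℝ} (hx : 1 ≤ x) :
    (((⌈20 * x⌉₊).factorial : ℝ) / (40 * x) ^ ⌈20 * x⌉₊) ^ 2 ≤ Real.exp (-(20 * x)) := by
  obtain ⟨k, hk⟩ : ∃ k, k = ⌈20 * x⌉₊ := ⟨_, rfl⟩
  rw [← hk]
  have h1 : (k : ℝ) ≤ 24 * x := by
    have := (Nat.ceil_lt_add_one (by linarith : 0 ≤ 20 * x)).le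
    rw [← hk] at this
    linarith
  have h2 : 20 * x ≤ (k : ℝ) := by
    rw [hk]
    exact Nat.le_ceil _
  have hx0 : 0 < 40 * x := by linarith
  have h3 : ((k.factorial : ℕ) : ℝ) ≤ (k : ℝ) ^ k := by exact_mod_cast Nat.factorial_le_pow k
  have h4 : (k.factorial : ℝ) / (40 * x) ^ k ≤ (3 / 5 : ℝ) ^ k := by
    rw [div_le_iff₀ (pow_pos hx0 _), ← mul_pow]
    refine h3.trans (pow_le_pow_left₀ (by positivity) ?_ _)
    linarith
  have h5 : (3 / 5 : ℝ) ≤ Real.exp (-(1 / 2)) := by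
    have e1 : Real.exp (1 / 2 : ℝ) ^ 2 = Real.exp 1 := by
      rw [← Real.exp_nat_mul]
      congr 1
      norm_num
    have e2 := Real.exp_one_lt_d9
    have e3 : Real.exp (1 / 2 : ℝ) ≤ 5 / 3 := by
      by_contra hc
      push Not at hc
      have : (5 / 3 : ℝ) ^ 2 < Real.exp (1 / 2 : ℝ) ^ 2 := pow_lt_pow_left₀ hc (by norm_num) (by norm_num)
      rw [e1] at this
      norm_num at this
      linarith
    rw [Real.exp_neg, le_inv_comm₀ (by norm_num) (Real.exp_pos _)]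
    linarith
  have h6 : (3 / 5 : ℝ) ^ k ≤ Real.exp (-(1 / 2)) ^ k := pow_le_pow_left₀ (by norm_num) h5 k
  have h7 : ((k.factorial : ℝ) / (40 * x) ^ k) ^ 2 ≤ (Real.exp (-(1 / 2)) ^ k) ^ 2 :=
    pow_le_pow_left₀ (by positivity) (h4.trans h6) 2
  refine h7.trans ?_
  rw [← Real.exp_nat_mul, ← Real.exp_nat_mul]
  refine Real.exp_le_exp.2 ?_
  push_cast
  linarith

/-! ### exponentials of sums -/

theorem mult_ex' (v : ℕ → ℝ) : (ex v).IsMultiplicative := by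
  rw [ArithmeticFunction.IsMultiplicative.iff_ne_zero]
  refine ⟨?_, fun {m n} hm hn hmn => ?_⟩
  · rw [ex_apply]
    simp
  · rw [ex_apply, ex_apply, ex_apply, if_neg hm, if_neg hn, if_neg (mul_ne_zero hm hn),
      Nat.factorization_mul_of_coprime hmn]
    rw [Finsupp.prod_add_index_of_disjoint (Nat.Coprime.disjoint_primeFactors hmn)]
    push_cast
    ring

theorem ex_prime_pow (v : ℕ → ℝ) {p : ℕ} (hp : p.Prime) (k : ℕ) :
    ex v (p ^ k) = ((v p ^ k / (k.factorial : ℝ) : ℝ) : ℂ) := by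
  rw [ex_apply, if_neg (pow_ne_zero _ hp.ne_zero), hp.factorization_pow,
    Finsupp.prod_single_index (by simp)]

theorem ex_add (v w : ℕ → ℝ) : ex (v + w) = ex v * ex w := by
  rw [ArithmeticFunction.IsMultiplicative.eq_iff_eq_on_prime_powers _ (mult_ex' _) _
    ((mult_ex' v).mul (mult_ex' w))]
  intro p k hp
  rw [ex_prime_pow _ hp, ArithmeticFunction.mul_apply,
    Nat.sum_divisorsAntidiagonal (f := fun a b => ex v a * ex w b), Nat.sum_divisors_prime_pow hp]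
  have h1 : ∀ i ∈ Finset.range (k + 1), ex v (p ^ i) * ex w (p ^ k / p ^ i) =
      ((v p ^ i / (i.factorial : ℝ) * (w p ^ (k - i) / ((k - i).factorial : ℝ)) : ℝ) : ℂ) := by
    intro i hi
    have hi' : i ≤ k := by
      have := Finset.mem_range.1 hi
      omega
    rw [Nat.pow_div hi' hp.pos, ex_prime_pow _ hp, ex_prime_pow _ hp]
    push_cast
    ring
  rw [Finset.sum_congr rfl h1, ← Complex.ofReal_sum]
  congr 1
  rw [Pi.add_apply, add_pow, Finset.sum_div]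
  refine Finset.sum_congr rfl fun i hi => ?_
  have hi' : i ≤ k := by
    have := Finset.mem_range.1 hi
    omega
  have h2 : ((k.choose i : ℕ) : ℝ) * (i.factorial : ℝ) * ((k - i).factorial : ℝ) = (k.factorial : ℝ) := by
    exact_mod_cast Nat.choose_mul_factorial_mul_factorial hi'
  have h3 : (i.factorial : ℝ) ≠ 0 := by exact_mod_cast Nat.factorial_ne_zero i
  have h4 : ((k - i).factorial : ℝ) ≠ 0 := by exact_mod_cast Nat.factorial_ne_zero (k - i)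
  have h5 : (k.factorial : ℝ) ≠ 0 := by exact_mod_cast Nat.factorial_ne_zero k
  rw [div_mul_div_comm, div_eq_div_iff h5 (mul_ne_zero h3 h4), ← h2]
  ring

theorem Dom_one_sm (Z : ℕ) : Dom 1 (sm Z) := by
  intro n
  by_cases h : n = 1
  · subst h
    refine ⟨1, ?_, by simp⟩
    show (if (1 : ℕ) ∈ Nat.smoothNumbers Z then (1 : ℂ) else 0) = ((1 : ℝ) : ℂ)
    rw [if_pos (Cl_smooth Z).1]
    simp
  · obtain ⟨r, hr, hr'⟩ := Dom_sm Z n
    refine ⟨r, hr, ?_⟩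
    rw [ArithmeticFunction.one_apply_ne h, norm_zero]
    exact (norm_nonneg _).trans hr'

theorem Dom_pow_sm {Z s : ℕ} (hs : s ≤ 1) {f : ArithmeticFunction ℂ} (hf : Dom f (sm Z)) :
    Dom (f ^ s) (sm Z) := by
  interval_cases s
  · rw [pow_zero]; exact Dom_one_sm Z
  · rw [pow_one]; exact hf

/-- the weight `lo a` -/
theorem Wt_lo {Z : ℕ} {a : ℝ} (h : zc a ≤ Z) : Wt Z (lo a) := by
  intro p
  unfold lo
  constructor
  · split_ifs <;> norm_num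
  · intro hp
    rw [if_neg]
    rintro ⟨_, h2⟩
    omega

theorem lo_nonneg (a : ℝ) (p : ℕ) : 0 ≤ lo a p ∧ lo a p ≤ 1 := by
  unfold lo
  split_ifs <;> norm_num

theorem PV_lo {Z : ℕ} {a : ℝ} (h : zc a ≤ Z) (t : ℝ) : PV Z (lo a) t = PP a t := by
  unfold PV PP
  symm
  have h1 : ∀ p ∈ Nat.primesBelow (zc a), (p : ℂ) ^ (-((1 / 2 : ℂ) + (t : ℂ) * Complex.I)) =
      (lo a p : ℂ) * (p : ℂ) ^ (-((1 / 2 : ℂ) + (t : ℂ) * Complex.I)) := by
    intro p hp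
    have h2 := Nat.mem_primesBelow.1 hp
    unfold lo
    rw [if_pos ⟨h2.2, h2.1⟩]
    simp
  rw [Finset.sum_congr rfl h1]
  refine Finset.sum_subset ?_ ?_
  · intro p hp
    have h2 := Nat.mem_primesBelow.1 hp
    exact Nat.mem_primesBelow.2 ⟨h2.1.trans_le h, h2.2⟩
  · intro p hp hp'
    have h2 := Nat.mem_primesBelow.1 hp
    have h3 : lo a p = 0 := by
      unfold lo
      rw [if_neg]
      rintro ⟨_, h4⟩
      exact hp' (Nat.mem_primesBelow.2 ⟨h4, h2.2⟩)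
    rw [h3]
    simp

theorem Dom_GTP {l s0 s1 Z : ℕ} {h a : ℝ} {v v' : ℕ → ℝ} (hs0 : s0 ≤ 1) (hs1 : s1 ≤ 1)
    {g : ArithmeticFunction ℂ} (hg : Dom g (ex (lo a))) :
    Dom (GT l s0 s1 Z h v v' * g)
      (GG 1 1 Z 0 (fun p => |v p|) ((fun p => |v' p|) + lo a)) := by
  have h1 : GG 1 1 Z 0 (fun p => |v p|) ((fun p => |v' p|) + lo a) =
      sm Z * sm Z * ex (fun p => |v p|) * ex (fun p => |v' p|) * ex (lo a) := by
    unfold GG
    rw [sh_zero, sh_zero, pow_one, ex_add, mul_assoc (sm Z * sm Z * ex (fun p => |v p|))]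
  rw [h1]
  have hv : Dom (tr l (ex v)) (ex (fun p => |v p|)) := (Dom_ex v _ fun p => le_rfl).tr l
  have hv' : Dom (sh h (tr l (ex v'))) (ex (fun p => |v' p|)) :=
    ((Dom_ex v' _ fun p => le_rfl).tr l).sh h
  exact ((((Dom_pow_sm hs0 ((Dom_sm Z).tr l)).mul
    (Dom_pow_sm hs1 (((Dom_sm Z).tr l).sh h))).mul hv).mul hv').mul hg

theorem c1_le {v v' : ℕ → ℝ} {a : ℝ} (hv : ∀ p, |v p| ≤ 1 / 2) (hv' : ∀ p, |v' p| ≤ 1 / 2)
    {p : ℕ} : c1 1 1 0 (fun p => |v p|) ((fun p => |v' p|) + lo a) p ≤ 16 := by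
  unfold c1
  have h1 := hv p
  have h2 := hv' p
  have h3 := lo_nonneg a p
  have h4 : ‖((1 : ℕ) : ℂ) + ((|v p| : ℝ) : ℂ) +
      (((1 : ℕ) : ℂ) + ((((fun p => |v' p|) + lo a) p : ℝ) : ℂ)) *
        (p : ℂ) ^ (-(((0 : ℝ) : ℂ) * Complex.I))‖ ≤ 4 := by
    have e1 : (p : ℂ) ^ (-(((0 : ℝ) : ℂ) * Complex.I)) = 1 := by simp
    rw [e1, mul_one]
    have e2 : ((1 : ℕ) : ℂ) + ((|v p| : ℝ) : ℂ) +
      (((1 : ℕ) : ℂ) + ((((fun p => |v' p|) + lo a) p : ℝ) : ℂ)) =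
        ((1 + |v p| + (1 + (|v' p| + lo a p)) : ℝ) : ℂ) := by
      rw [Pi.add_apply]
      push_cast
      ring
    have e3 := abs_nonneg (v p)
    have e4 := abs_nonneg (v' p)
    rw [e2, Complex.norm_real, Real.norm_eq_abs, abs_of_nonneg (by linarith)]
    linarith
  calc _ ≤ (4 : ℝ) ^ 2 := pow_le_pow_left₀ (norm_nonneg _) h4 2
    _ = 16 := by norm_num

theorem nm_one : nm 1 = 1 := by
  rw [nm_eq FS_one]
  simp

theorem one_le_nm {f : ArithmeticFunction ℂ} {X : ℕ} (hX : 1 ≤ X) (hf : FS X f) (h1 : f 1 = 1) :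
    1 ≤ nm f := by
  rw [nm_eq hf]
  have h2 : ‖f 1‖ ^ 2 / ((1 : ℕ) : ℝ) ≤ ∑ n ∈ Finset.Icc 1 X, ‖f n‖ ^ 2 / (n : ℝ) :=
    Finset.single_le_sum (f := fun n : ℕ => ‖f n‖ ^ 2 / (n : ℝ)) (fun n _ => by positivity)
      (Finset.mem_Icc.2 ⟨le_rfl, hX⟩)
  rw [h1] at h2
  simpa using h2

theorem one_le_nm_ro {Z X : ℕ} (hX : 1 ≤ X) : 1 ≤ nm (ro Z X) := by
  classical
  refine one_le_nm hX (FS_ro Z X) ?_
  rw [ro_apply, if_pos]
  exact ⟨one_ne_zero, hX, fun p hp h => absurd (Nat.dvd_one.1 h) hp.ne_one⟩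

theorem nm_RF_le (hR : J_FR2) {η T h : ℝ} {s0 s1 : ℕ} (hs0 : s0 ≤ 1) (hs1 : s1 ≤ 1)
    (hN : 1 ≤ Nt η T) : nm (RF η T s0 s1 h) ≤ nm (ro (zc (Yt T)) (Nt η T)) ^ 4 := by
  have h1 := one_le_nm_ro (Z := zc (Yt T)) hN
  have h2 : nm (ro (zc (Yt T)) (Nt η T)) ≤ nm (ro (zc (Yt T)) (Nt η T)) ^ 4 :=
    le_self_pow₀ h1 (by norm_num)
  unfold RF
  interval_cases s0 <;> interval_cases s1
  · rw [pow_zero, pow_zero, one_mul, nm_one]
    exact one_le_pow₀ h1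
  · rw [pow_zero, pow_one, one_mul, nm_sh]
    exact h2
  · rw [pow_zero, pow_one, mul_one]
    exact h2
  · rw [pow_one, pow_one]
    exact hR _ _ _

theorem exc_mean (hV : J_MV) (hE : J_EXP) (hM : J_MULT) (hEU : J_EU) (hMT : J_MERT) (hR : J_FR2)
    (hRHO : J_RHO) (hFF : J_FF) : ∃ C : ℝ, 0 < C ∧ ∀ η : ℝ, 0 < η → η ≤ 1 / 100 →
    ∀ᶠ T : ℝ in atTop, ∀ (s0 s1 : ℕ) (h a : ℝ) (v v' : ℕ → ℝ) (g : ArithmeticFunction ℂ),
    s0 ≤ 1 → s1 ≤ 1 → 0 ≤ a → a ≤ Yt T →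
    (∀ p, |v p| ≤ 1 / 2) → (∀ p, |v' p| ≤ 1 / 2) → Wt (zc (Yt T)) v → Wt (zc (Yt T)) v' →
    FS (zc (Yt T) ^ el T) g → Su (fun n => n ∈ Nat.smoothNumbers (zc (Yt T))) g →
    Dom g (ex (lo a)) →
    ∫ t in T..(4 * T), ‖dp (FF η T s0 s1 h v v' * g) t‖ ^ 2 ≤
      C * T * Real.exp (16 * La T) * La T ^ 8 := by
  obtain ⟨CV, hCV, hV⟩ := hV
  obtain ⟨CE, hCE, hEU⟩ := hEU
  obtain ⟨CM, hMT⟩ := hMT
  obtain ⟨CR, hRHO⟩ := hRHO
  refine ⟨(3 + CV) * (Real.exp (16 * CM + CE) * (CR ^ 4 + 1)), by positivity, ?_⟩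
  intro η hη0 hη
  filter_upwards [hRHO η hη0 hη, hFF η hη0 hη, grow 4 hη0, eventually_gt_atTop 1,
    tendsto_La.eventually_ge_atTop 1] with T hrho hFF hg hT hLa s0 s1 h a v v' g hs0 hs1 ha0 ha
    hv2 hv2' hv hv' hgF hgS hgD
  have hg := hg (Yt T) le_rfl
  have hT0 : 0 < T := by linarith
  obtain ⟨Z, hZ⟩ : ∃ Z, Z = zc (Yt T) := ⟨_, rfl⟩
  have hZ2 : 2 ≤ Z := by rw [hZ]; exact two_le_zc _
  have hF := hFF.2 s0 s1 h v v' hs0 hs1 hv hv'
  have hN := one_le_Nt hη hT.le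
  -- the norm
  have hWt : Wt Z (fun p => |v p|) := by
    intro p
    refine ⟨?_, fun hp => ?_⟩
    · change |(|v p|)| ≤ 2
      rw [abs_abs]
      linarith [hv2 p]
    · change |v p| = 0
      rw [(hv p).2 (hZ ▸ hp), abs_zero]
  have hlo : Wt Z (lo a) := Wt_lo (by rw [hZ]; exact zc_mono ha)
  have hWt' : Wt Z ((fun p => |v' p|) + lo a) := by
    intro p
    refine ⟨?_, fun hp => ?_⟩
    · rw [Pi.add_apply]
      have h1 := lo_nonneg a p
      have h2 := abs_nonneg (v' p)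
      rw [abs_of_nonneg (by linarith)]
      linarith [hv2' p]
    · rw [Pi.add_apply]
      rw [(hv' p).2 (hZ ▸ hp), abs_zero, (hlo p).2 hp, add_zero]
  have hEU1 := hEU 1 1 Z 0 _ _ le_rfl le_rfl hWt hWt'
  have hD := Dom_GTP (l := el T) (Z := Z) (h := h) (v := v) (v' := v') hs0 hs1 hgD
  have hn1 : nm (GT (el T) s0 s1 Z h v v' * g) ≤
      nm (GG 1 1 Z 0 (fun p => |v p|) ((fun p => |v' p|) + lo a)) := nm_dom hD hEU1.1
  have hVV : VV (Yt T) ≤ La T + CM := by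
    have h1 := abs_le.1 (hMT (Yt T) (ha0.trans ha))
    have h2 : 0 ≤ Real.log (La T) := Real.log_nonneg hLa
    have h3 : Yt T ≤ La T := by
      unfold Yt
      linarith
    linarith [h1.2]
  have hn2 : nm (GG 1 1 Z 0 (fun p => |v p|) ((fun p => |v' p|) + lo a)) ≤
      Real.exp (16 * La T) * Real.exp (16 * CM + CE) := by
    have h0 := hEU1.2.1
    have h1 := (abs_le.1 hEU1.2.2.1).2
    have h2 : ∑ p ∈ Nat.primesBelow Z, c1 1 1 0 (fun p => |v p|) ((fun p => |v' p|) + lo a) p /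
        (p : ℝ) ≤ 16 * VV (Yt T) := by
      unfold VV
      rw [Finset.mul_sum, hZ]
      refine Finset.sum_le_sum fun p hp => ?_
      rw [mul_one_div]
      exact div_le_div_of_nonneg_right (c1_le hv2 hv2') (by positivity)
    rw [← Real.exp_add, ← Real.log_le_iff_le_exp (by linarith)]
    linarith
  have hn3 : nm (RF η T s0 s1 h) ≤ (CR ^ 4 + 1) * La T ^ 8 := by
    refine (nm_RF_le hR hs0 hs1 hN).trans ?_
    have h1 : nm (ro (zc (Yt T)) (Nt η T)) ^ 4 ≤ (CR * La T ^ 2) ^ 4 :=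
      pow_le_pow_left₀ (nm_nonneg _) hrho 4
    refine h1.trans ?_
    rw [mul_pow, ← pow_mul]
    exact mul_le_mul_of_nonneg_right (by linarith) (by positivity)
  have hFSG : FS (zc (Yt T) ^ (4 * el T) * zc (Yt T) ^ el T)
      (GT (el T) s0 s1 (zc (Yt T)) h v v' * g) :=
    FS_mul (FS_GT hE hs0 hs1 (by omega) hv hv') hgF
  have hfac : FF η T s0 s1 h v v' * g = (GT (el T) s0 s1 (zc (Yt T)) h v v' * g) * RF η T s0 s1 h := by
    unfold FF
    ring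
  have hnm : nm (FF η T s0 s1 h v v' * g) =
      nm (GT (el T) s0 s1 (zc (Yt T)) h v v' * g) * nm (RF η T s0 s1 h) := by
    rw [hfac]
    exact hM (zc (Yt T)) _ _ _ _ hFSG (FS_RF η T h hs0 hs1 hN)
      ((Su_GT hv hv').mul (Cl_smooth _) hgS) (Su_RF η T s0 s1 h)
  have hnb : nm (FF η T s0 s1 h v v' * g) ≤
      Real.exp (16 * La T) * Real.exp (16 * CM + CE) * ((CR ^ 4 + 1) * La T ^ 8) := by
    rw [hnm, ← hZ]
    exact mul_le_mul (hn1.trans hn2) hn3 (nm_nonneg _) (by positivity)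
  have hFS := FS_mul hF.1 hgF
  have hmv := (abs_le.1 (hV _ _ hFS T (4 * T) (by linarith))).2
  have hX : ((⌊T ^ (1 - 3 * η)⌋₊ * zc (Yt T) ^ el T : ℕ) : ℝ) ≤ T := by
    push_cast
    have h1 : (⌊T ^ (1 - 3 * η)⌋₊ : ℝ) ≤ T ^ (1 - 3 * η) :=
      Nat.floor_le (Real.rpow_pos_of_pos hT0 _).le
    have hZ1 : (1 : ℝ) ≤ ((zc (Yt T) : ℕ) : ℝ) := by
      have : 1 ≤ zc (Yt T) := by omega
      exact_mod_cast this
    have h2 : ((zc (Yt T) : ℕ) : ℝ) ^ el T ≤ T ^ η :=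
      (pow_le_pow_right₀ hZ1 (by omega)).trans hg
    calc (⌊T ^ (1 - 3 * η)⌋₊ : ℝ) * ((zc (Yt T) : ℕ) : ℝ) ^ el T ≤ T ^ (1 - 3 * η) * T ^ η :=
          mul_le_mul h1 h2 (by positivity) (by positivity)
      _ = T ^ (1 - 2 * η) := by
        rw [← Real.rpow_add hT0]
        congr 1
        ring
      _ ≤ T ^ (1 : ℝ) := Real.rpow_le_rpow_of_exponent_le hT.le (by linarith)
      _ = T := Real.rpow_one T
  have hnn := nm_nonneg (FF η T s0 s1 h v v' * g)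
  have h5 : CV * ((⌊T ^ (1 - 3 * η)⌋₊ * zc (Yt T) ^ el T : ℕ) : ℝ) *
      nm (FF η T s0 s1 h v v' * g) ≤ CV * T * nm (FF η T s0 s1 h v v' * g) :=
    mul_le_mul_of_nonneg_right (mul_le_mul_of_nonneg_left hX hCV.le) hnn
  have h6 : ∫ t in T..(4 * T), ‖dp (FF η T s0 s1 h v v' * g) t‖ ^ 2 ≤
      (3 + CV) * T * nm (FF η T s0 s1 h v v' * g) := by
    linarith
  refine h6.trans ?_
  have h7 : (3 + CV) * T * nm (FF η T s0 s1 h v v' * g) ≤ (3 + CV) * T *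
      (Real.exp (16 * La T) * Real.exp (16 * CM + CE) * ((CR ^ 4 + 1) * La T ^ 8)) :=
    mul_le_mul_of_nonneg_left hnb (by positivity)
  refine h7.trans (le_of_eq ?_)
  ring

/-- JOB EXC. -/
theorem t_EXC (hV : J_MV) (hE : J_EXP) (hM : J_MULT) (hEU : J_EU) (hMT : J_MERT) (hR : J_FR2)
    (hRHO : J_RHO) (hFF : J_FF) : J_EXC := by
  obtain ⟨C, hC, hmean⟩ := exc_mean hV hE hM hEU hMT hR hRHO hFF
  intro η hη0 hη
  have hev : ∀ᶠ T : ℝ in atTop, La T ^ 8 * Real.exp (-La T) ≤ 1 / (2 * C) :=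
    ((Real.tendsto_pow_mul_exp_neg_atTop_nhds_zero 8).comp tendsto_La).eventually_le_const
      (by positivity)
  filter_upwards [hmean η hη0 hη, hFF η hη0 hη, eventually_gt_atTop 1,
    tendsto_La.eventually_ge_atTop 1, hev] with T hmean hFF hT hLa hev s0 s1 h a v v' hs0 hs1 ha0 ha
    hv2 hv2' hv hv'
  have hT0 : 0 < T := by linarith
  have hL0 : 0 < La T := by linarith
  have hF := hFF.2 s0 s1 h v v' hs0 hs1 hv hv'
  have hZ : 1 ≤ zc (Yt T) := by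
    have := two_le_zc (Yt T)
    omega
  have hZa : zc a ≤ zc (Yt T) := zc_mono ha
  have hlo : Wt (zc (Yt T)) (lo a) := Wt_lo hZa
  obtain ⟨k, hk⟩ : ∃ k, k = ⌈20 * La T⌉₊ := ⟨_, rfl⟩
  have hkl : k ≤ el T := by
    rw [hk]
    unfold el
    exact Nat.ceil_mono (by linarith)
  have hEk := hE (zc (Yt T)) k (lo a) hZ hlo
  have hpkF : FS (zc (Yt T) ^ el T) (pk k (ex (lo a))) :=
    hEk.2.1.mono (Nat.pow_le_pow_right hZ hkl)
  have hpkS : Su (fun n => n ∈ Nat.smoothNumbers (zc (Yt T))) (pk k (ex (lo a))) :=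
    (Su_ex hlo).pk k
  have hpkD : Dom (pk k (ex (lo a))) (ex (lo a)) := (Dom_ex _ _ fun p => by
    rw [abs_of_nonneg (lo_nonneg a p).1]).pk k
  have hI1 := hmean s0 s1 h a v v' _ hs0 hs1 ha0 ha hv2 hv2' hv hv' hpkF hpkS hpkD
  have hI2 := hmean s0 s1 h a v v' _ hs0 hs1 ha0 ha hv2 hv2' hv hv' (FS_sh h hpkF) (hpkS.sh h)
    (hpkD.sh h)
  obtain ⟨F, hFd⟩ : ∃ F, F = FF η T s0 s1 h v v' := ⟨_, rfl⟩
  rw [← hFd] at hI1 hI2 hF ⊢
  obtain ⟨r, hr⟩ : ∃ r : ℝ, r = ((k.factorial : ℝ) / (40 * La T) ^ k) ^ 2 := ⟨_, rfl⟩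
  have hr0 : 0 ≤ r := by rw [hr]; positivity
  have hrb : r ≤ Real.exp (-(20 * La T)) := by
    rw [hr, hk]
    exact fact_bound hLa
  -- pointwise
  have hpt : ∀ x : ℂ, 40 * La T < ‖x‖ → 1 ≤ r * ‖x ^ k / (k.factorial : ℂ)‖ ^ 2 := by
    intro x hx
    rw [hr, norm_div, norm_pow, Complex.norm_natCast, ← mul_pow]
    have h3 : (k.factorial : ℝ) ≠ 0 := by exact_mod_cast Nat.factorial_ne_zero k
    have h1 : (k.factorial : ℝ) / (40 * La T) ^ k * (‖x‖ ^ k / (k.factorial : ℝ)) =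
        (‖x‖ / (40 * La T)) ^ k := by
      rw [div_pow]
      field_simp
    rw [h1]
    refine one_le_pow₀ (one_le_pow₀ ?_)
    rw [le_div_iff₀ (by positivity)]
    linarith
  have hle : ∀ t : ℝ, Set.indicator {t | 40 * La T < ‖PP a t‖ ∨ 40 * La T < ‖PP a (t + h)‖}
      (fun t => ‖dp F t‖ ^ 2) t ≤ r * ‖dp (F * pk k (ex (lo a))) t‖ ^ 2 +
        r * ‖dp (F * sh h (pk k (ex (lo a)))) t‖ ^ 2 := by
    intro t
    rw [dp_mul hF.1 hpkF, dp_mul hF.1 (FS_sh h hpkF), dp_sh hpkF, (hEk.2.2.2 t).2,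
      (hEk.2.2.2 (t + h)).2, PV_lo hZa, PV_lo hZa, norm_mul, norm_mul, mul_pow, mul_pow]
    have e1 : 0 ≤ ‖dp F t‖ ^ 2 := by positivity
    have e2 : 0 ≤ r * (‖dp F t‖ ^ 2 * ‖PP a t ^ k / (k.factorial : ℂ)‖ ^ 2) := by positivity
    have e3 : 0 ≤ r * (‖dp F t‖ ^ 2 * ‖PP a (t + h) ^ k / (k.factorial : ℂ)‖ ^ 2) := by
      positivity
    by_cases ht : t ∈ {t | 40 * La T < ‖PP a t‖ ∨ 40 * La T < ‖PP a (t + h)‖}
    · rw [Set.indicator_of_mem ht]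
      rcases ht with ht | ht
      · have e4 := hpt _ ht
        have e5 : ‖dp F t‖ ^ 2 ≤ r * (‖dp F t‖ ^ 2 * ‖PP a t ^ k / (k.factorial : ℂ)‖ ^ 2) := by
          calc ‖dp F t‖ ^ 2 = ‖dp F t‖ ^ 2 * 1 := (mul_one _).symm
            _ ≤ ‖dp F t‖ ^ 2 * (r * ‖PP a t ^ k / (k.factorial : ℂ)‖ ^ 2) :=
                mul_le_mul_of_nonneg_left e4 e1
            _ = _ := by ring
        linarith
      · have e4 := hpt _ ht
        have e5 : ‖dp F t‖ ^ 2 ≤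
            r * (‖dp F t‖ ^ 2 * ‖PP a (t + h) ^ k / (k.factorial : ℂ)‖ ^ 2) := by
          calc ‖dp F t‖ ^ 2 = ‖dp F t‖ ^ 2 * 1 := (mul_one _).symm
            _ ≤ ‖dp F t‖ ^ 2 * (r * ‖PP a (t + h) ^ k / (k.factorial : ℂ)‖ ^ 2) :=
                mul_le_mul_of_nonneg_left e4 e1
            _ = _ := by ring
        linarith
    · rw [Set.indicator_of_notMem ht]
      linarith
  have hTT : T ≤ 4 * T := by linarith
  have hc1 : Continuous fun t => r * ‖dp (F * pk k (ex (lo a))) t‖ ^ 2 :=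
    continuous_const.mul ((dp_cont (FS_mul hF.1 hpkF)).norm.pow 2)
  have hc2 : Continuous fun t => r * ‖dp (F * sh h (pk k (ex (lo a)))) t‖ ^ 2 :=
    continuous_const.mul ((dp_cont (FS_mul hF.1 (FS_sh h hpkF))).norm.pow 2)
  have hstep : ∫ t in T..(4 * T), Set.indicator
      {t | 40 * La T < ‖PP a t‖ ∨ 40 * La T < ‖PP a (t + h)‖} (fun t => ‖dp F t‖ ^ 2) t ≤
      ∫ t in T..(4 * T), (r * ‖dp (F * pk k (ex (lo a))) t‖ ^ 2 +
        r * ‖dp (F * sh h (pk k (ex (lo a)))) t‖ ^ 2) := by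
    rw [intervalIntegral.integral_of_le hTT, intervalIntegral.integral_of_le hTT]
    refine integral_mono_of_nonneg (Eventually.of_forall fun t =>
      Set.indicator_nonneg (fun t _ => by positivity) t) ?_ (Eventually.of_forall hle)
    exact ((hc1.add hc2).intervalIntegrable T (4 * T)).1
  refine hstep.trans ?_
  rw [intervalIntegral.integral_add (hc1.intervalIntegrable _ _) (hc2.intervalIntegrable _ _),
    intervalIntegral.integral_const_mul, intervalIntegral.integral_const_mul, ← mul_add]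
  have h1 : r * ((∫ t in T..(4 * T), ‖dp (F * pk k (ex (lo a))) t‖ ^ 2) +
      ∫ t in T..(4 * T), ‖dp (F * sh h (pk k (ex (lo a)))) t‖ ^ 2) ≤
      Real.exp (-(20 * La T)) * (2 * (C * T * Real.exp (16 * La T) * La T ^ 8)) := by
    refine (mul_le_mul_of_nonneg_left (add_le_add hI1 hI2) hr0).trans ?_
    rw [← two_mul]
    exact mul_le_mul_of_nonneg_right hrb (by positivity)
  refine h1.trans ?_
  rw [log_eq hT, le_div_iff₀ (Real.exp_pos _)]
  have h2 : Real.exp (-(20 * La T)) * (2 * (C * T * Real.exp (16 * La T) * La T ^ 8)) *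
      Real.exp (La T) = (2 * C * T) * (La T ^ 8 * (Real.exp (-(20 * La T)) *
        Real.exp (16 * La T) * Real.exp (La T))) := by ring
  rw [h2, ← Real.exp_add, ← Real.exp_add]
  have h3 : Real.exp (-(20 * La T) + 16 * La T + La T) ≤ Real.exp (-La T) :=
    Real.exp_le_exp.2 (by linarith)
  have h4 : La T ^ 8 * Real.exp (-(20 * La T) + 16 * La T + La T) ≤ 1 / (2 * C) :=
    (mul_le_mul_of_nonneg_left h3 (by positivity)).trans hev
  calc (2 * C * T) * (La T ^ 8 * Real.exp (-(20 * La T) + 16 * La T + La T)) ≤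
      (2 * C * T) * (1 / (2 * C)) := mul_le_mul_of_nonneg_left h4 (by positivity)
    _ = T := by field_simp

end Pool.Agent.Q61.EW
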