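import Pool.Agent.Q61.EW.Sz

/-! Job FF of the project EW of helper80. -/

set_option autoImplicit false

namespace Pool.Agent.Q61.EW

open Filter Topology Finset Pool.Agent.Q80.EW MeasureTheory

theorem Nt_le {η T : ℝ} (hT : 0 < T) : (Nt η T : ℝ) ≤ T ^ (1 / 2 - 2 * η) :=
  Nat.floor_le (Real.rpow_pos_of_pos hT _).le

theorem one_le_Nt {η T : ℝ} (hη : η ≤ 1 / 100) (hT : 1 ≤ T) : 1 ≤ Nt η T := by
  unfold Nt
  rw [Nat.one_le_floor_iff]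
  exact Real.one_le_rpow hT (by linarith)

/-- the pointwise statement of FF for the supports -/
theorem FF_supp (hE : J_EXP) {η T : ℝ} (hη : η ≤ 1 / 100) (hT : 1 < T)
    (hg : ((zc (Yt T) : ℕ) : ℝ) ^ (4 * el T) ≤ T ^ η) {s0 s1 : ℕ} {h : ℝ} {v v' : ℕ → ℝ}
    (hs0 : s0 ≤ 1) (hs1 : s1 ≤ 1) (hv : Wt (zc (Yt T)) v) (hv' : Wt (zc (Yt T)) v') :
    FS ⌊T ^ (1 - 3 * η)⌋₊ (FF η T s0 s1 h v v') := by
  have hT0 : 0 < T := by linarith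
  have hZ : 1 ≤ zc (Yt T) := by
    have := two_le_zc (Yt T)
    omega
  have h1 := FS_mul (FS_GT hE (l := el T) (h := h) hs0 hs1 hZ hv hv')
    (FS_RF η T h hs0 hs1 (one_le_Nt hη hT.le))
  refine FS.mono h1 ?_
  rw [Nat.le_floor_iff (Real.rpow_pos_of_pos hT0 _).le]
  push_cast
  have h2 := Nt_le (η := η) hT0
  have h3 : (Nt η T : ℝ) * (Nt η T : ℝ) ≤ T ^ (1 / 2 - 2 * η) * T ^ (1 / 2 - 2 * η) :=
    mul_le_mul h2 h2 (by positivity) (by positivity)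
  calc ((zc (Yt T) : ℕ) : ℝ) ^ (4 * el T) * ((Nt η T : ℝ) * (Nt η T : ℝ)) ≤
      T ^ η * (T ^ (1 / 2 - 2 * η) * T ^ (1 / 2 - 2 * η)) :=
        mul_le_mul hg h3 (by positivity) (by positivity)
    _ = T ^ (1 - 3 * η) := by
      rw [← Real.rpow_add hT0, ← Real.rpow_add hT0]
      congr 1
      ring

theorem dd_supp (hE : J_EXP) {η T : ℝ} (hT : 1 < T)
    (hg : ((zc (Yt T) : ℕ) : ℝ) ^ (4 * el T) ≤ T ^ η) :
    FS ⌊T ^ (1 / 2 - η)⌋₊ (dd η T) := by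
  have hT0 : 0 < T := by linarith
  have hZ : 1 ≤ zc (Yt T) := by
    have := two_le_zc (Yt T)
    omega
  have hW : Wt (zc (Yt T)) 0 := fun p => by simp
  have h1 := FS_mul (hE (zc (Yt T)) (el T) 0 hZ hW).2.2.1 (FS_ro (zc (Yt T)) (Nt η T))
  refine FS.mono h1 ?_
  rw [Nat.le_floor_iff (Real.rpow_pos_of_pos hT0 _).le]
  push_cast
  have h2 := Nt_le (η := η) hT0
  have hZ1 : (1 : ℝ) ≤ ((zc (Yt T) : ℕ) : ℝ) := by exact_mod_cast hZ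
  have h3 : ((zc (Yt T) : ℕ) : ℝ) ^ el T ≤ T ^ η :=
    (pow_le_pow_right₀ hZ1 (by omega)).trans hg
  calc ((zc (Yt T) : ℕ) : ℝ) ^ (el T) * (Nt η T : ℝ) ≤ T ^ η * T ^ (1 / 2 - 2 * η) :=
        mul_le_mul h3 h2 (by positivity) (by positivity)
    _ = T ^ (1 / 2 - η) := by
      rw [← Real.rpow_add hT0]
      congr 1
      ring

theorem dp_FF (hE : J_EXP) {η T : ℝ} (hη : η ≤ 1 / 100) (hT : 1 < T) {s0 s1 : ℕ} {h : ℝ}
    {v v' : ℕ → ℝ} (hs0 : s0 ≤ 1) (hs1 : s1 ≤ 1) (hv : Wt (zc (Yt T)) v)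
    (hv' : Wt (zc (Yt T)) v') (t : ℝ) :
    dp (FF η T s0 s1 h v v') t = Dp η T t ^ s0 * Dp η T (t + h) ^ s1 *
      eT (el T) (PV (zc (Yt T)) v t) * eT (el T) (PV (zc (Yt T)) v' (t + h)) := by
  have hZ : 1 ≤ zc (Yt T) := by
    have := two_le_zc (Yt T)
    omega
  have hD : ∀ t, Dp η T t = dp (tr (el T) (sm (zc (Yt T)))) t *
      dp (ro (zc (Yt T)) (Nt η T)) t := by
    intro t
    unfold Dp dd
    exact dp_mul (hE (zc (Yt T)) (el T) v hZ hv).2.2.1 (FS_ro _ _) t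
  rw [hD, hD]
  unfold FF
  rw [dp_mul (FS_GT hE (l := el T) (h := h) hs0 hs1 hZ hv hv')
    (FS_RF η T h hs0 hs1 (one_le_Nt hη hT.le)), dp_GT hE hZ hv hv', dp_RF]
  ring

theorem nm_FF (hE : J_EXP) (hM : J_MULT) {η T : ℝ} (hη : η ≤ 1 / 100) (hT : 1 < T) {s0 s1 : ℕ}
    {h : ℝ} {v v' : ℕ → ℝ} (hs0 : s0 ≤ 1) (hs1 : s1 ≤ 1) (hv : Wt (zc (Yt T)) v)
    (hv' : Wt (zc (Yt T)) v') :
    nm (FF η T s0 s1 h v v') = nm (GT (el T) s0 s1 (zc (Yt T)) h v v') * nm (RF η T s0 s1 h) := by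
  have hZ : 1 ≤ zc (Yt T) := by
    have := two_le_zc (Yt T)
    omega
  exact hM (zc (Yt T)) _ _ _ _ (FS_GT hE (l := el T) (h := h) hs0 hs1 hZ hv hv')
    (FS_RF η T h hs0 hs1 (one_le_Nt hη hT.le)) (Su_GT hv hv') (Su_RF η T s0 s1 h)

/-- JOB FF. -/
theorem t_FF (hE : J_EXP) (hM : J_MULT) (hV : J_MV) : J_FF := by
  intro η hη0 hη
  obtain ⟨C, hC, hV⟩ := hV
  have hev : ∀ᶠ T : ℝ in atTop, C ≤ T ^ η :=
    (tendsto_rpow_atTop hη0).eventually_ge_atTop C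
  filter_upwards [grow 4 hη0, eventually_gt_atTop 1, hev] with T hg hT hCT
  have hg := hg (Yt T) le_rfl
  have hT0 : 0 < T := by linarith
  refine ⟨dd_supp hE hT hg, fun s0 s1 h v v' hs0 hs1 hv hv' => ?_⟩
  have hFS := FF_supp (h := h) hE hη hT hg hs0 hs1 hv hv'
  refine ⟨hFS, dp_FF hE hη hT hs0 hs1 hv hv', nm_FF hE hM hη hT hs0 hs1 hv hv', fun a b hab => ?_⟩
  refine (hV _ _ hFS a b hab).trans ?_
  refine mul_le_mul_of_nonneg_right ?_ (nm_nonneg _)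
  calc C * (⌊T ^ (1 - 3 * η)⌋₊ : ℝ) ≤ T ^ η * T ^ (1 - 3 * η) :=
        mul_le_mul hCT (Nat.floor_le (Real.rpow_pos_of_pos hT0 _).le) (by positivity) (by positivity)
    _ = T ^ (1 - 2 * η) := by
      rw [← Real.rpow_add hT0]
      congr 1
      ring

end Pool.Agent.Q61.EW
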