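import Pool.Agent.Q61.EW.FRa

/-! Job FR of the project EW of helper80: Abel summation. -/

set_option autoImplicit false

namespace Pool.Agent.Q61.EW

open Finset
open Pool.Agent.Q80.EW

theorem abel (c : ℕ → ℂ) (w : ℕ → ℝ) (hw : Antitone w) (hw0 : ∀ n, 0 ≤ w n) (a : ℕ) (δ : ℝ)
    (h : ∀ b, a ≤ b → ‖∑ n ∈ Ico a b, c n‖ ≤ δ) (b : ℕ) (hab : a ≤ b) :
    ‖∑ n ∈ Ico a b, c n * (w n : ℂ)‖ ≤ δ * w a := by
  have hid : ∀ b, a ≤ b → ∑ n ∈ Ico a b, c n * (w n : ℂ) =
      (w b : ℂ) * ∑ n ∈ Ico a b, c n +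
        ∑ m ∈ Ico a b, ((w m - w (m + 1) : ℝ) : ℂ) * ∑ n ∈ Ico a (m + 1), c n := by
    intro b hb
    induction b, hb using Nat.le_induction with
    | base => simp
    | succ b hb ih =>
      rw [Finset.sum_Ico_succ_top hb, ih, Finset.sum_Ico_succ_top hb (fun m =>
        ((w m - w (m + 1) : ℝ) : ℂ) * ∑ n ∈ Ico a (m + 1), c n), Finset.sum_Ico_succ_top hb c]
      push_cast
      ring
  have hδ : 0 ≤ δ := (norm_nonneg _).trans (h a le_rfl)
  rw [hid b hab]
  have h1 : ‖(w b : ℂ) * ∑ n ∈ Ico a b, c n‖ ≤ w b * δ := by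
    rw [norm_mul, Complex.norm_real, Real.norm_of_nonneg (hw0 b)]
    exact mul_le_mul_of_nonneg_left (h b hab) (hw0 b)
  have h2 : ‖∑ m ∈ Ico a b, ((w m - w (m + 1) : ℝ) : ℂ) * ∑ n ∈ Ico a (m + 1), c n‖ ≤
      (w a - w b) * δ := by
    refine (norm_sum_le _ _).trans ?_
    have h3 : ∀ m ∈ Ico a b, ‖((w m - w (m + 1) : ℝ) : ℂ) * ∑ n ∈ Ico a (m + 1), c n‖ ≤
        (w m - w (m + 1)) * δ := by
      intro m hm
      have h4 : 0 ≤ w m - w (m + 1) := sub_nonneg.2 (hw (Nat.le_succ m))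
      rw [norm_mul, Complex.norm_real, Real.norm_of_nonneg h4]
      exact mul_le_mul_of_nonneg_left (h _ ((Finset.mem_Ico.1 hm).1.trans (Nat.le_succ m))) h4
    refine (Finset.sum_le_sum h3).trans (le_of_eq ?_)
    rw [← Finset.sum_mul]
    congr 1
    have h5 := Finset.sum_Ico_sub w hab
    have h6 : ∑ m ∈ Ico a b, (w m - w (m + 1)) = -∑ m ∈ Ico a b, (w (m + 1) - w m) := by
      rw [← Finset.sum_neg_distrib]
      exact Finset.sum_congr rfl fun _ _ => by ring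
    rw [h6, h5]
    ring
  calc _ ≤ w b * δ + (w a - w b) * δ := (norm_add_le _ _).trans (add_le_add h1 h2)
    _ = δ * w a := by ring

/-- the largest prime factor -/
noncomputable def lp (r : ℕ) : ℕ := r.primeFactors.sup id

theorem lp_mem {r : ℕ} (hr : 1 < r) : lp r ∈ r.primeFactors := by
  have h1 : r.primeFactors.Nonempty := Nat.nonempty_primeFactors.2 hr
  obtain ⟨p, hp, h⟩ := Finset.exists_mem_eq_sup _ h1 (id : ℕ → ℕ)
  unfold lp
  rw [h]
  exact hp

theorem le_lp {r p : ℕ} (hp : p ∈ r.primeFactors) : p ≤ lp r := Finset.le_sup (f := id) hp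

/-- the threshold -/
noncomputable def aa (Z s r0 : ℕ) : ℕ := max Z (max (lp r0) (s / r0 + 1))

theorem T_split (Z X s : ℕ) (Φ : ℕ → ℂ) (hs : 1 ≤ s) (hΦ : ∀ n, X < n → Φ n = 0) :
    ∑ r ∈ (BB Z X).filter (fun r => s < r ∧ Nat.Coprime r s), Φ r =
      ∑ x ∈ ((BB Z X) ×ˢ (range (X + 1))).filter (fun x => Nat.Coprime x.1 s ∧
        (aa Z s x.1 ≤ x.2 ∧ x.2.Prime ∧ Nat.Coprime x.2 s)), Φ (x.2 * x.1) := by
  have hdec : ∀ r, 1 < r → lp r * (r / lp r) = r := fun r hr =>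
    Nat.mul_div_cancel' (Nat.dvd_of_mem_primeFactors (lp_mem hr))
  refine Finset.sum_of_injOn (fun r => (r / lp r, lp r)) ?_ ?_ ?_ ?_
  · intro r hr r' hr' h
    rw [Finset.mem_coe, Finset.mem_filter] at hr hr'
    have h1 : r / lp r = r' / lp r' := congrArg Prod.fst h
    have h2 : lp r = lp r' := congrArg Prod.snd h
    rw [← hdec r (lt_of_le_of_lt hs hr.2.1), ← hdec r' (lt_of_le_of_lt hs hr'.2.1), h1, h2]
  · intro r hr
    rw [Finset.mem_coe, Finset.mem_filter] at hr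
    obtain ⟨hrB, hsr, hc⟩ := hr
    have hr1 : 1 < r := lt_of_le_of_lt hs hsr
    have hq := lp_mem hr1
    have hqp := Nat.prime_of_mem_primeFactors hq
    have hqr := Nat.dvd_of_mem_primeFactors hq
    have hr0 : r / lp r ∣ r := Nat.div_dvd_of_dvd hqr
    have hr0B := dvd_BB hrB hr0
    have hr0pos : 0 < r / lp r := (mem_BB.1 hr0B).1
    rw [Finset.mem_coe, Finset.mem_filter, Finset.mem_product, Finset.mem_range]
    refine ⟨⟨hr0B, ?_⟩, hc.coprime_dvd_left hr0, ?_, hqp, hc.coprime_dvd_left hqr⟩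
    · exact Nat.lt_succ_of_le ((Nat.le_of_dvd (by omega) hqr).trans (mem_BB.1 hrB).2.1)
    · refine max_le ((mem_BB.1 hrB).2.2 _ hqp hqr) (max_le ?_ ?_)
      · refine Finset.sup_le fun p hp => ?_
        exact le_lp (Nat.primeFactors_mono hr0 (by omega) hp)
      · change s / (r / lp r) < lp r
        rw [Nat.div_lt_iff_lt_mul hr0pos, hdec r hr1]
        exact hsr
  · rintro ⟨r0, q⟩ hx hnot
    by_contra hne
    have hX : q * r0 ≤ X := by
      by_contra hcon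
      exact hne (hΦ _ (not_le.1 hcon))
    apply hnot
    simp only [Finset.mem_filter, Finset.mem_product, Finset.mem_range] at hx
    obtain ⟨⟨hr0, hqX⟩, hc0, ha, hqp, hcq⟩ := hx
    have hr0pos : 0 < r0 := (mem_BB.1 hr0).1
    have ha1 : Z ≤ q := (le_max_left _ _).trans ha
    have ha2 : lp r0 ≤ q := ((le_max_left _ _).trans (le_max_right _ _)).trans ha
    have ha3 : s / r0 + 1 ≤ q := ((le_max_right _ _).trans (le_max_right _ _)).trans ha
    have hqB : q ∈ BB Z X := by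
      rw [mem_BB]
      refine ⟨hqp.one_lt.le, Nat.lt_succ_iff.1 hqX, fun p hp hpq => ?_⟩
      rw [(Nat.prime_dvd_prime_iff_eq hp hqp).1 hpq]
      exact ha1
    have hne0 : q * r0 ≠ 0 := Nat.mul_ne_zero hqp.ne_zero (by omega)
    have hlp : lp (q * r0) = q := by
      refine le_antisymm (Finset.sup_le fun p hp => ?_) (le_lp (Nat.mem_primeFactors.2
        ⟨hqp, Dvd.intro _ rfl, hne0⟩))
      have hpp := Nat.prime_of_mem_primeFactors hp
      rcases (hpp.dvd_mul).1 (Nat.dvd_of_mem_primeFactors hp) with h | h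
      · exact ((Nat.prime_dvd_prime_iff_eq hpp hqp).1 h).le
      · exact (le_lp (Nat.mem_primeFactors.2 ⟨hpp, h, by omega⟩)).trans ha2
    refine ⟨q * r0, ?_, ?_⟩
    · rw [Finset.mem_coe, Finset.mem_filter]
      refine ⟨mul_BB hqB hr0 hX, ?_, Nat.Coprime.mul_left hcq hc0⟩
      exact (Nat.div_lt_iff_lt_mul hr0pos).1 ha3
    · simp only [hlp, Nat.mul_div_cancel_left _ hqp.pos]
  · intro r hr
    rw [Finset.mem_filter] at hr
    simp only
    rw [hdec r (lt_of_le_of_lt hs hr.2.1)]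

theorem omega_bound {s X : ℕ} (hs : 1 ≤ s) (hsX : s ≤ X) :
    (s.primeFactors.card : ℝ) ≤ 2 * Real.log X := by
  have h1 : 2 ^ s.primeFactors.card ≤ ∏ p ∈ s.primeFactors, p :=
    Finset.pow_card_le_prod _ _ _ fun p hp => (Nat.prime_of_mem_primeFactors hp).two_le
  have h2 : ∏ p ∈ s.primeFactors, p ≤ s := Nat.le_of_dvd hs (Nat.prod_primeFactors_dvd s)
  have h3 : ((2 : ℝ) ^ s.primeFactors.card) ≤ X := by exact_mod_cast (h1.trans h2).trans hsX
  have h4 := Real.log_le_log (by positivity) h3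
  rw [Real.log_pow] at h4
  have h5 := Real.log_two_gt_d9
  have h6 : (0 : ℝ) ≤ s.primeFactors.card := Nat.cast_nonneg _
  nlinarith

section

variable {Z X : ℕ} {h δ : ℝ}

/-- the inner sum over the primes -/
theorem U_bound (hZ : 2 ≤ Z) (hδ : ∀ a b : ℕ, Z ≤ a → a ≤ b →
    ‖∑ p ∈ (Finset.Ico a b).filter Nat.Prime, (p : ℂ) ^ (-((1 : ℂ) + (h : ℂ) * Complex.I))‖ ≤ δ)
    (s r0 : ℕ) (hs : s ∈ BB Z X) (hr0 : r0 ∈ BB Z X) :
    ‖∑ q ∈ range (X + 1), if (aa Z s r0 ≤ q ∧ q.Prime ∧ Nat.Coprime q s) then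
      (starRingEnd ℂ) (om h q) / (q : ℂ) * ((Kf Z X (q * r0) ^ 2 : ℝ) : ℂ) else 0‖ ≤
      (δ + 2 * Real.log X / Z) * rho Z X ^ 2 := by
  have hZ0 : (0 : ℝ) < Z := by
    have : 0 < Z := by omega
    exact_mod_cast this
  have hδ0 : 0 ≤ δ := (norm_nonneg _).trans (hδ Z Z le_rfl le_rfl)
  have hs1 := (mem_BB.1 hs).1
  have hr1 := (mem_BB.1 hr0).1
  have hlogX : 0 ≤ Real.log X := Real.log_natCast_nonneg X
  have hρ : 0 ≤ rho Z X := Finset.sum_nonneg fun _ _ => by positivity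
  by_cases haX : aa Z s r0 ≤ X + 1
  swap
  · have e0 : ∑ q ∈ range (X + 1), (if (aa Z s r0 ≤ q ∧ q.Prime ∧ Nat.Coprime q s) then
      (starRingEnd ℂ) (om h q) / (q : ℂ) * ((Kf Z X (q * r0) ^ 2 : ℝ) : ℂ) else 0) = 0 := by
      refine Finset.sum_eq_zero fun q hq => if_neg fun hcon => ?_
      have := Finset.mem_range.1 hq
      omega
    rw [e0, norm_zero]
    positivity
  obtain ⟨t, ht⟩ : ∃ t : ℕ → ℂ, t = fun q => (starRingEnd ℂ) (om h q) / (q : ℂ) *
    ((Kf Z X (q * r0) ^ 2 : ℝ) : ℂ) := ⟨_, rfl⟩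
  have htn : ∀ q, 1 ≤ q → ‖t q‖ ≤ 1 / (q : ℝ) * rho Z X ^ 2 := by
    intro q hq
    rw [ht]
    simp only
    rw [norm_mul, norm_div, RCLike.norm_conj, norm_om h hq, Complex.norm_natCast,
      Complex.norm_real, Real.norm_of_nonneg (sq_nonneg _)]
    exact mul_le_mul_of_nonneg_left (pow_le_pow_left₀ (Kf_nonneg _ _ _) (Kf_le _ _ _) 2)
      (by positivity)
  have e1 : ∑ q ∈ range (X + 1), (if (aa Z s r0 ≤ q ∧ q.Prime ∧ Nat.Coprime q s) then
      (starRingEnd ℂ) (om h q) / (q : ℂ) * ((Kf Z X (q * r0) ^ 2 : ℝ) : ℂ) else 0) =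
      (∑ q ∈ Ico (aa Z s r0) (X + 1), if q.Prime then t q else 0) -
        ∑ q ∈ Ico (aa Z s r0) (X + 1), if q.Prime ∧ ¬ Nat.Coprime q s then t q else 0 := by
    rw [← Finset.sum_sub_distrib]
    have e2 : Ico (aa Z s r0) (X + 1) = (range (X + 1)).filter fun q => aa Z s r0 ≤ q := by
      ext q
      rw [Finset.mem_Ico, Finset.mem_filter, Finset.mem_range]
      exact and_comm
    rw [e2, Finset.sum_filter]
    refine Finset.sum_congr rfl fun q _ => ?_
    by_cases h1 : aa Z s r0 ≤ q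
    · by_cases h2 : q.Prime
      · by_cases h3 : Nat.Coprime q s
        · rw [if_pos ⟨h1, h2, h3⟩, if_pos h1, if_pos h2, if_neg fun hh => hh.2 h3, sub_zero, ht]
        · rw [if_neg fun hh => h3 hh.2.2, if_pos h1, if_pos h2, if_pos ⟨h2, h3⟩, sub_self]
      · rw [if_neg fun hh => h2 hh.2.1, if_pos h1, if_neg h2, if_neg fun hh => h2 hh.1, sub_self]
    · rw [if_neg fun hh => h1 hh.1, if_neg h1]
  rw [e1]
  have hfull : ‖∑ q ∈ Ico (aa Z s r0) (X + 1), if q.Prime then t q else 0‖ ≤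
      δ * rho Z X ^ 2 := by
    have e3 : ∀ q, (if q.Prime then t q else 0) =
        (if q.Prime then (starRingEnd ℂ) (om h q) / (q : ℂ) else 0) *
          ((Kf Z X (q * r0) ^ 2 : ℝ) : ℂ) := by
      intro q
      rw [ht]
      split_ifs
      · rfl
      · rw [zero_mul]
    rw [Finset.sum_congr rfl fun q _ => e3 q]
    have e4 := abel (fun q => if q.Prime then (starRingEnd ℂ) (om h q) / (q : ℂ) else 0)
      (fun q => Kf Z X (q * r0) ^ 2)
      (fun m n hmn => pow_le_pow_left₀ (Kf_nonneg _ _ _)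
        (Kf_anti Z X (Nat.mul_le_mul_right r0 hmn)) 2)
      (fun n => sq_nonneg _) (aa Z s r0) δ (fun b hb => ?_) (X + 1) haX
    · exact e4.trans (mul_le_mul_of_nonneg_left (pow_le_pow_left₀ (Kf_nonneg _ _ _)
        (Kf_le _ _ _) 2) hδ0)
    · have e5 := hδ (aa Z s r0) b (le_max_left _ _) hb
      have e6 : ∑ q ∈ Ico (aa Z s r0) b,
          (if q.Prime then (starRingEnd ℂ) (om h q) / (q : ℂ) else 0) =
          (starRingEnd ℂ) (∑ p ∈ (Finset.Ico (aa Z s r0) b).filter Nat.Prime,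
            (p : ℂ) ^ (-((1 : ℂ) + (h : ℂ) * Complex.I))) := by
        rw [map_sum, Finset.sum_filter]
        refine Finset.sum_congr rfl fun q _ => ?_
        split_ifs with hq
        · have hq0 : (q : ℂ) ≠ 0 := by exact_mod_cast hq.ne_zero
          have e7 : (q : ℂ) ^ (-((1 : ℂ) + (h : ℂ) * Complex.I)) = om h q / (q : ℂ) := by
            unfold om
            rw [neg_add, Complex.cpow_add _ _ hq0, Complex.cpow_neg_one]
            field_simp
          rw [e7, map_div₀, Complex.conj_natCast]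
        · rfl
      rw [e6, RCLike.norm_conj]
      exact e5
  have hbad : ‖∑ q ∈ Ico (aa Z s r0) (X + 1), if q.Prime ∧ ¬ Nat.Coprime q s then t q else 0‖ ≤
      2 * Real.log X / Z * rho Z X ^ 2 := by
    rw [← Finset.sum_filter]
    refine (norm_sum_le _ _).trans ?_
    have e3 : ∀ q ∈ (Ico (aa Z s r0) (X + 1)).filter (fun q => q.Prime ∧ ¬ Nat.Coprime q s),
        ‖t q‖ ≤ 1 / (Z : ℝ) * rho Z X ^ 2 := by
      intro q hq
      rw [Finset.mem_filter, Finset.mem_Ico] at hq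
      have h1 : Z ≤ q := (le_max_left _ _).trans hq.1.1
      refine (htn q hq.2.1.one_lt.le).trans (mul_le_mul_of_nonneg_right ?_ (sq_nonneg _))
      exact one_div_le_one_div_of_le hZ0 (by exact_mod_cast h1)
    refine (Finset.sum_le_sum e3).trans ?_
    rw [Finset.sum_const, nsmul_eq_mul]
    have e4 : ((Ico (aa Z s r0) (X + 1)).filter (fun q => q.Prime ∧ ¬ Nat.Coprime q s)).card ≤
        s.primeFactors.card := by
      refine Finset.card_le_card fun q hq => ?_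
      rw [Finset.mem_filter] at hq
      refine Nat.mem_primeFactors.2 ⟨hq.2.1, ?_, by omega⟩
      by_contra hcon
      exact hq.2.2 ((Nat.Prime.coprime_iff_not_dvd hq.2.1).2 hcon)
    have e5 : (((Ico (aa Z s r0) (X + 1)).filter
        (fun q => q.Prime ∧ ¬ Nat.Coprime q s)).card : ℝ) ≤ 2 * Real.log X :=
      (by exact_mod_cast e4 : _ ≤ (s.primeFactors.card : ℝ)).trans
        (omega_bound hs1 (mem_BB.1 hs).2.1)
    calc _ ≤ 2 * Real.log X * (1 / (Z : ℝ) * rho Z X ^ 2) :=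
          mul_le_mul_of_nonneg_right e5 (by positivity)
      _ = _ := by ring
  calc _ ≤ δ * rho Z X ^ 2 + 2 * Real.log X / Z * rho Z X ^ 2 :=
        (norm_sub_le _ _).trans (add_le_add hfull hbad)
    _ = _ := by ring

/-- the sum over `r` -/
theorem T_bound (hZ : 2 ≤ Z) (hδ : ∀ a b : ℕ, Z ≤ a → a ≤ b →
    ‖∑ p ∈ (Finset.Ico a b).filter Nat.Prime, (p : ℂ) ^ (-((1 : ℂ) + (h : ℂ) * Complex.I))‖ ≤ δ)
    (s : ℕ) (hs : s ∈ BB Z X) :
    ‖∑ r ∈ (BB Z X).filter (fun r => s < r ∧ Nat.Coprime r s),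
      (starRingEnd ℂ) (om h r) / (r : ℂ) * ((Kf Z X r ^ 2 : ℝ) : ℂ)‖ ≤
      (δ + 2 * Real.log X / Z) * rho Z X ^ 3 := by
  have hs1 := (mem_BB.1 hs).1
  rw [T_split Z X s _ hs1 (fun n hn => by rw [Kf_zero Z X n hn]; simp), Finset.sum_filter,
    Finset.sum_product]
  refine (norm_sum_le _ _).trans ?_
  have e1 : ∀ r0 ∈ BB Z X, ‖∑ q ∈ range (X + 1), if (Nat.Coprime r0 s ∧
        (aa Z s r0 ≤ q ∧ q.Prime ∧ Nat.Coprime q s)) then
      (starRingEnd ℂ) (om h (q * r0)) / ((q * r0 : ℕ) : ℂ) *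
        ((Kf Z X (q * r0) ^ 2 : ℝ) : ℂ) else 0‖ ≤
      1 / (r0 : ℝ) * ((δ + 2 * Real.log X / Z) * rho Z X ^ 2) := by
    intro r0 hr0
    have hr1 := (mem_BB.1 hr0).1
    have hU := U_bound (X := X) hZ hδ s r0 hs hr0
    have e2 : ∑ q ∈ range (X + 1), (if (Nat.Coprime r0 s ∧
        (aa Z s r0 ≤ q ∧ q.Prime ∧ Nat.Coprime q s)) then
      (starRingEnd ℂ) (om h (q * r0)) / ((q * r0 : ℕ) : ℂ) *
        ((Kf Z X (q * r0) ^ 2 : ℝ) : ℂ) else 0) =
        (if Nat.Coprime r0 s then (starRingEnd ℂ) (om h r0) / (r0 : ℂ) else 0) *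
        ∑ q ∈ range (X + 1), (if (aa Z s r0 ≤ q ∧ q.Prime ∧ Nat.Coprime q s) then
      (starRingEnd ℂ) (om h q) / (q : ℂ) * ((Kf Z X (q * r0) ^ 2 : ℝ) : ℂ) else 0) := by
      rw [Finset.mul_sum]
      refine Finset.sum_congr rfl fun q _ => ?_
      by_cases h1 : Nat.Coprime r0 s
      · by_cases h2 : aa Z s r0 ≤ q ∧ q.Prime ∧ Nat.Coprime q s
        · rw [if_pos ⟨h1, h2⟩, if_pos h1, if_pos h2, om_mul, map_mul, Nat.cast_mul]
          rw [mul_div_mul_comm]
          ring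
        · rw [if_neg fun hh => h2 hh.2, if_neg h2, mul_zero]
      · rw [if_neg fun hh => h1 hh.1, if_neg h1, zero_mul]
    rw [e2, norm_mul]
    refine mul_le_mul ?_ hU (norm_nonneg _) (by positivity)
    split_ifs
    · rw [norm_div, RCLike.norm_conj, norm_om h hr1, Complex.norm_natCast]
    · rw [norm_zero]
      positivity
  refine (Finset.sum_le_sum e1).trans (le_of_eq ?_)
  rw [← Finset.sum_mul]
  change rho Z X * _ = _
  ring

end

/-- JOB FR. -/
theorem t_FR : J_FR := by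
  intro Z X h δ hZ hX hδ0 hδ
  obtain ⟨S, hS⟩ : ∃ S : ℂ, S = ∑ y ∈ (CP Z X).filter (fun y => y.2 < y.1),
    om h y.2 * (starRingEnd ℂ) (om h y.1) / ((y.1 : ℂ) * (y.2 : ℂ)) *
        ((Kf Z X (max y.1 y.2) ^ 2 : ℝ) : ℂ) := ⟨_, rfl⟩
  have hρ : 0 ≤ rho Z X := Finset.sum_nonneg fun _ _ => by positivity
  have hZ0 : (0 : ℝ) < Z := by
    have : 0 < Z := by omega
    exact_mod_cast this
  have hlogX : 0 ≤ Real.log X := Real.log_natCast_nonneg X
  -- the bound for `S`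
  have hSb : ‖S‖ ≤ (δ + 2 * Real.log X / Z) * rho Z X ^ 4 := by
    have e1 : S = ∑ s ∈ BB Z X, om h s / (s : ℂ) *
        ∑ r ∈ (BB Z X).filter (fun r => s < r ∧ Nat.Coprime r s),
          (starRingEnd ℂ) (om h r) / (r : ℂ) * ((Kf Z X r ^ 2 : ℝ) : ℂ) := by
      rw [hS, CP, Finset.filter_filter, Finset.sum_filter, Finset.sum_product_right]
      refine Finset.sum_congr rfl fun s _ => ?_
      rw [Finset.sum_filter, Finset.mul_sum]
      refine Finset.sum_congr rfl fun r _ => ?_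
      by_cases h1 : Nat.Coprime r s ∧ s < r
      · rw [if_pos h1, if_pos h1.symm, max_eq_left h1.2.le]
        rw [mul_comm (r : ℂ) (s : ℂ), mul_div_mul_comm]
        ring
      · rw [if_neg h1, if_neg fun hh => h1 hh.symm, mul_zero]
    rw [e1]
    refine (norm_sum_le _ _).trans ?_
    have e2 : ∀ s ∈ BB Z X, ‖om h s / (s : ℂ) *
        ∑ r ∈ (BB Z X).filter (fun r => s < r ∧ Nat.Coprime r s),
          (starRingEnd ℂ) (om h r) / (r : ℂ) * ((Kf Z X r ^ 2 : ℝ) : ℂ)‖ ≤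
        1 / (s : ℝ) * ((δ + 2 * Real.log X / Z) * rho Z X ^ 3) := by
      intro s hs
      rw [norm_mul, norm_div, norm_om h (mem_BB.1 hs).1, Complex.norm_natCast]
      exact mul_le_mul_of_nonneg_left (T_bound hZ hδ s hs) (by positivity)
    refine (Finset.sum_le_sum e2).trans (le_of_eq ?_)
    rw [← Finset.sum_mul]
    change rho Z X * _ = _
    ring
  -- the decomposition
  have hdec : ((nm (ro Z X * sh h (ro Z X)) : ℝ) : ℂ) =
      ((rho Z X ^ 2 : ℝ) : ℂ) + (S + (starRingEnd ℂ) S) := by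
    rw [nm_param]
    obtain ⟨f, hf⟩ : ∃ f : ℕ × ℕ → ℂ, f = fun y => om h y.2 * (starRingEnd ℂ) (om h y.1) /
      ((y.1 : ℂ) * (y.2 : ℂ)) * ((Kf Z X (max y.1 y.2) ^ 2 : ℝ) : ℂ) := ⟨_, rfl⟩
    have e1 : ∑ y ∈ CP Z X, f y = (∑ y ∈ (CP Z X).filter (fun y => y.1 = y.2), f y) +
        ((∑ y ∈ (CP Z X).filter (fun y => y.2 < y.1), f y) +
          ∑ y ∈ (CP Z X).filter (fun y => y.1 < y.2), f y) := by
      rw [Finset.sum_filter, Finset.sum_filter, Finset.sum_filter, ← Finset.sum_add_distrib,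
        ← Finset.sum_add_distrib]
      refine Finset.sum_congr rfl fun y _ => ?_
      rcases lt_trichotomy y.1 y.2 with h1 | h1 | h1
      · rw [if_neg h1.ne, if_neg (not_lt.2 h1.le), if_pos h1, zero_add, zero_add]
      · rw [if_pos h1, if_neg (by omega), if_neg (by omega), add_zero, add_zero]
      · rw [if_neg h1.ne', if_pos h1, if_neg (not_lt.2 h1.le), zero_add, add_zero]
    have e2 : (CP Z X).filter (fun y => y.1 = y.2) = {(1, 1)} := by
      ext ⟨r, s⟩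
      rw [CP, Finset.mem_filter, Finset.mem_filter, Finset.mem_product, Finset.mem_singleton]
      constructor
      · rintro ⟨⟨⟨hr, hs⟩, hc⟩, heq⟩
        simp only at heq hc
        subst heq
        rw [Nat.coprime_self] at hc
        rw [hc]
      · intro heq
        rw [Prod.mk.injEq] at heq
        obtain ⟨rfl, rfl⟩ := heq
        have h1 : 1 ∈ BB Z X := by
          rw [mem_BB]
          exact ⟨le_rfl, hX, fun p hp hp1 => absurd (Nat.dvd_one.1 hp1) hp.ne_one⟩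
        exact ⟨⟨⟨h1, h1⟩, Nat.coprime_one_left 1⟩, rfl⟩
    have e3 : f (1, 1) = ((rho Z X ^ 2 : ℝ) : ℂ) := by
      rw [hf]
      simp only
      rw [om_conj h le_rfl, max_self, Kf_one]
      simp
    have e4 : ∑ y ∈ (CP Z X).filter (fun y => y.1 < y.2), f y = (starRingEnd ℂ) S := by
      rw [hS, map_sum]
      refine Finset.sum_bij' (fun y _ => (y.2, y.1)) (fun y _ => (y.2, y.1)) ?_ ?_ ?_ ?_ ?_
      · rintro ⟨r, s⟩ hy
        simp only [CP, Finset.mem_filter, Finset.mem_product] at hy ⊢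
        exact ⟨⟨⟨hy.1.1.2, hy.1.1.1⟩, hy.1.2.symm⟩, hy.2⟩
      · rintro ⟨r, s⟩ hy
        simp only [CP, Finset.mem_filter, Finset.mem_product] at hy ⊢
        exact ⟨⟨⟨hy.1.1.2, hy.1.1.1⟩, hy.1.2.symm⟩, hy.2⟩
      · rintro ⟨r, s⟩ _
        rfl
      · rintro ⟨r, s⟩ _
        rfl
      · rintro ⟨r, s⟩ _
        rw [hf]
        simp only
        rw [map_mul, map_div₀, map_mul, map_mul, Complex.conj_conj, Complex.conj_natCast,
          Complex.conj_natCast, Complex.conj_ofReal, max_comm s r]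
        ring
    have e5 : ∑ y ∈ CP Z X, om h y.2 * (starRingEnd ℂ) (om h y.1) /
      ((y.1 : ℂ) * (y.2 : ℂ)) * ((Kf Z X (max y.1 y.2) ^ 2 : ℝ) : ℂ) = ∑ y ∈ CP Z X, f y := by
      rw [hf]
    have e6 : ∑ y ∈ (CP Z X).filter (fun y => y.2 < y.1), f y = S := by
      rw [hS, hf]
    rw [e5, e1, e2, Finset.sum_singleton, e3, e4, e6]
  have hre := congrArg Complex.re hdec
  rw [Complex.ofReal_re, Complex.add_re, Complex.ofReal_re, Complex.add_re, Complex.conj_re] at hre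
  have hSre : S.re ≤ ‖S‖ := Complex.re_le_norm S
  rw [nm_ro]
  have h1 : (δ + 2 * Real.log X / Z) * rho Z X ^ 4 ≤
      (δ + (2 * Real.log X + 2) / Z) * rho Z X ^ 4 := by
    refine mul_le_mul_of_nonneg_right ?_ (by positivity)
    have : 2 * Real.log X / Z ≤ (2 * Real.log X + 2) / Z :=
      div_le_div_of_nonneg_right (by linarith) hZ0.le
    linarith
  have h2 : 0 ≤ (δ + (2 * Real.log X + 2) / Z) * rho Z X ^ 4 := by positivity
  rw [hre]
  nlinarith

end Pool.Agent.Q61.EW
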