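import Pool.Agent.Q80.EW.Stm

/-! Job FR of the project EW of helper80: combinatorial part. -/

set_option autoImplicit false

namespace Pool.Agent.Q61.EW

open Finset
open Pool.Agent.Q80.EW

/-- the rough numbers up to `X` -/
noncomputable def BB (Z X : ℕ) : Finset ℕ := by
  classical
  exact (Finset.Icc 1 X).filter fun n => ∀ p : ℕ, p.Prime → p ∣ n → Z ≤ p

theorem mem_BB {Z X n : ℕ} : n ∈ BB Z X ↔ 1 ≤ n ∧ n ≤ X ∧ ∀ p : ℕ, p.Prime → p ∣ n → Z ≤ p := by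
  classical
  unfold BB
  rw [Finset.mem_filter, Finset.mem_Icc, and_assoc]

/-- the unimodular factor -/
noncomputable def om (h : ℝ) (n : ℕ) : ℂ := (n : ℂ) ^ (-((h : ℂ) * Complex.I))

theorem om_mul (h : ℝ) (m n : ℕ) : om h (m * n) = om h m * om h n := by
  unfold om
  rw [Nat.cast_mul, Complex.natCast_mul_natCast_cpow]

theorem norm_om (h : ℝ) {n : ℕ} (hn : 1 ≤ n) : ‖om h n‖ = 1 := by
  unfold om
  rw [Complex.norm_natCast_cpow_of_pos hn]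
  simp

theorem om_conj (h : ℝ) {n : ℕ} (hn : 1 ≤ n) : om h n * (starRingEnd ℂ) (om h n) = 1 := by
  rw [Complex.mul_conj, Complex.normSq_eq_norm_sq, norm_om h hn]
  simp

theorem ro_apply (Z X n : ℕ) : ro Z X n = if n ∈ BB Z X then 1 else 0 := by
  have h1 : (n ≠ 0 ∧ n ≤ X ∧ ∀ p : ℕ, p.Prime → p ∣ n → Z ≤ p) ↔ n ∈ BB Z X := by
    rw [mem_BB, Nat.one_le_iff_ne_zero]
  unfold ro
  rw [ArithmeticFunction.coe_mk]
  by_cases h : n ∈ BB Z X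
  · rw [if_pos h, if_pos (h1.2 h)]
  · rw [if_neg h, if_neg fun h' => h (h1.1 h')]

/-- the sum of the reciprocals -/
noncomputable def rho (Z X : ℕ) : ℝ := ∑ b ∈ BB Z X, 1 / (b : ℝ)

theorem nm_ro (Z X : ℕ) : nm (ro Z X) = rho Z X := by
  unfold nm rho
  rw [tsum_eq_sum (s := BB Z X)]
  · refine Finset.sum_congr rfl fun b hb => ?_
    rw [ro_apply, if_pos hb]
    simp
  · intro b hb
    rw [ro_apply, if_neg hb]
    simp

/-! ### The two point function as a sum over quadruples -/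

theorem conv_apply (Z X : ℕ) (h : ℝ) (n : ℕ) :
    (ro Z X * sh h (ro Z X)) n =
      ∑ x ∈ BB Z X ×ˢ BB Z X, if x.1 * x.2 = n then om h x.2 else 0 := by
  rw [ArithmeticFunction.mul_apply, ← Finset.sum_filter]
  have h1 : ∀ x ∈ n.divisorsAntidiagonal, ro Z X x.1 * sh h (ro Z X) x.2 =
      if x ∈ BB Z X ×ˢ BB Z X then om h x.2 else 0 := by
    intro x _
    have e : sh h (ro Z X) x.2 = ro Z X x.2 * om h x.2 := rfl
    rw [e, ro_apply, ro_apply]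
    by_cases h1 : x.1 ∈ BB Z X
    · by_cases h2 : x.2 ∈ BB Z X
      · rw [if_pos h1, if_pos h2, if_pos (Finset.mem_product.2 ⟨h1, h2⟩)]
        ring
      · rw [if_neg h2, if_neg fun h => h2 (Finset.mem_product.1 h).2]
        ring
    · rw [if_neg h1, if_neg fun h => h1 (Finset.mem_product.1 h).1]
      ring
  rw [Finset.sum_congr rfl h1, ← Finset.sum_filter]
  refine Finset.sum_congr ?_ fun _ _ => rfl
  ext x
  rw [Finset.mem_filter, Finset.mem_filter, Nat.mem_divisorsAntidiagonal]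
  constructor
  · rintro ⟨⟨h1, -⟩, h2⟩
    exact ⟨h2, h1⟩
  · rintro ⟨h1, h2⟩
    refine ⟨⟨h2, ?_⟩, h1⟩
    have h3 := mem_BB.1 (Finset.mem_product.1 h1).1
    have h4 := mem_BB.1 (Finset.mem_product.1 h1).2
    rw [← h2]
    exact Nat.mul_ne_zero (by omega) (by omega)

/-- the quadruples -/
noncomputable def LL (Z X : ℕ) : Finset ((ℕ × ℕ) × (ℕ × ℕ)) :=
  ((BB Z X ×ˢ BB Z X) ×ˢ (BB Z X ×ˢ BB Z X)).filter fun x => x.1.1 * x.1.2 = x.2.1 * x.2.2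

theorem nm_quad (Z X : ℕ) (h : ℝ) :
    ((nm (ro Z X * sh h (ro Z X)) : ℝ) : ℂ) =
      ∑ x ∈ LL Z X, om h x.1.2 * (starRingEnd ℂ) (om h x.2.2) / ((x.1.1 : ℂ) * (x.1.2 : ℂ)) := by
  obtain ⟨S, hS⟩ : ∃ S, S = BB Z X ×ˢ BB Z X := ⟨_, rfl⟩
  obtain ⟨N, hN⟩ : ∃ N, N = X * X + 1 := ⟨_, rfl⟩
  have hmem : ∀ x ∈ S, x.1 * x.2 ∈ range N := by
    intro x hx
    rw [hS, Finset.mem_product] at hx
    have h1 := (mem_BB.1 hx.1).2.1
    have h2 := (mem_BB.1 hx.2).2.1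
    rw [Finset.mem_range, hN]
    exact Nat.lt_succ_of_le (Nat.mul_le_mul h1 h2)
  have hconv : ∀ n, (ro Z X * sh h (ro Z X)) n =
      ∑ x ∈ S, if x.1 * x.2 = n then om h x.2 else 0 := by
    intro n
    rw [conv_apply, hS]
  have e1 : nm (ro Z X * sh h (ro Z X)) =
      ∑ n ∈ range N, ‖(ro Z X * sh h (ro Z X)) n‖ ^ 2 / (n : ℝ) := by
    unfold nm
    refine tsum_eq_sum fun n hn => ?_
    have h1 : (ro Z X * sh h (ro Z X)) n = 0 := by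
      rw [hconv]
      refine Finset.sum_eq_zero fun x hx => if_neg fun h => ?_
      exact hn (h ▸ hmem x hx)
    rw [h1]
    simp
  rw [e1, Complex.ofReal_sum]
  have e2 : ∀ n ∈ range N, ((‖(ro Z X * sh h (ro Z X)) n‖ ^ 2 / (n : ℝ) : ℝ) : ℂ) =
      ∑ x ∈ S, ∑ y ∈ S, if x.1 * x.2 = n then (if y.1 * y.2 = n then
        om h x.2 * (starRingEnd ℂ) (om h y.2) / ((x.1 : ℂ) * (x.2 : ℂ)) else 0) else 0 := by
    intro n _
    rw [Complex.ofReal_div, ← Complex.normSq_eq_norm_sq, ← Complex.mul_conj, hconv, map_sum,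
      Finset.sum_mul_sum, Finset.sum_div]
    refine Finset.sum_congr rfl fun x _ => ?_
    rw [Finset.sum_div]
    refine Finset.sum_congr rfl fun y _ => ?_
    split_ifs with h1 h2
    · rw [← h1]
      push_cast
      rfl
    · simp
    · simp
    · simp
  rw [Finset.sum_congr rfl e2, Finset.sum_comm]
  have e3 : ∀ x ∈ S, (∑ n ∈ range N, ∑ y ∈ S, if x.1 * x.2 = n then (if y.1 * y.2 = n then
        om h x.2 * (starRingEnd ℂ) (om h y.2) / ((x.1 : ℂ) * (x.2 : ℂ)) else 0) else 0) =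
      ∑ y ∈ S, if x.1 * x.2 = y.1 * y.2 then
        om h x.2 * (starRingEnd ℂ) (om h y.2) / ((x.1 : ℂ) * (x.2 : ℂ)) else 0 := by
    intro x hx
    rw [Finset.sum_comm]
    refine Finset.sum_congr rfl fun y _ => ?_
    rw [Finset.sum_ite_eq, if_pos (hmem x hx)]
    by_cases h : x.1 * x.2 = y.1 * y.2
    · rw [if_pos h, if_pos h.symm]
    · rw [if_neg h, if_neg (Ne.symm h)]
  rw [Finset.sum_congr rfl e3, ← Finset.sum_product', ← Finset.sum_filter]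
  unfold LL
  rw [hS]

/-! ### The parametrisation -/

/-- the parameters `((r, s), (k, g))` -/
noncomputable def RR (Z X : ℕ) : Finset ((ℕ × ℕ) × (ℕ × ℕ)) :=
  ((BB Z X ×ˢ BB Z X) ×ˢ (BB Z X ×ˢ BB Z X)).filter fun y => Nat.Coprime y.1.1 y.1.2 ∧
    y.2.1 * max y.1.1 y.1.2 ≤ X ∧ y.2.2 * max y.1.1 y.1.2 ≤ X

theorem mul_BB {Z X a b : ℕ} (ha : a ∈ BB Z X) (hb : b ∈ BB Z X) (h : a * b ≤ X) :
    a * b ∈ BB Z X := by
  rw [mem_BB] at ha hb ⊢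
  refine ⟨Nat.mul_pos ha.1 hb.1, h, fun p hp hpd => ?_⟩
  rcases (hp.dvd_mul).1 hpd with h1 | h1
  · exact ha.2.2 p hp h1
  · exact hb.2.2 p hp h1

theorem dvd_BB {Z X a b : ℕ} (hb : b ∈ BB Z X) (h : a ∣ b) : a ∈ BB Z X := by
  rw [mem_BB] at hb ⊢
  have h1 : 0 < b := hb.1
  refine ⟨Nat.pos_of_dvd_of_pos h h1, (Nat.le_of_dvd h1 h).trans hb.2.1, fun p hp hpd => ?_⟩
  exact hb.2.2 p hp (hpd.trans h)

theorem quad_param {b1 b2 b3 b4 : ℕ} (h1 : 0 < b1) (h2 : 0 < b2)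
    (h : b1 * b2 = b3 * b4) :
    b1 / Nat.gcd b1 b3 = b4 / Nat.gcd b2 b4 ∧ b3 / Nat.gcd b1 b3 = b2 / Nat.gcd b2 b4 := by
  obtain ⟨k, hk⟩ : ∃ k, k = Nat.gcd b1 b3 := ⟨_, rfl⟩
  obtain ⟨g, hg⟩ : ∃ g, g = Nat.gcd b2 b4 := ⟨_, rfl⟩
  have hk0 : 0 < k := hk ▸ Nat.gcd_pos_of_pos_left _ h1
  have hg0 : 0 < g := hg ▸ Nat.gcd_pos_of_pos_left _ h2
  obtain ⟨r, hr⟩ : k ∣ b1 := hk ▸ Nat.gcd_dvd_left _ _
  obtain ⟨s, hs⟩ : k ∣ b3 := hk ▸ Nat.gcd_dvd_right _ _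
  obtain ⟨s', hs'⟩ : g ∣ b2 := hg ▸ Nat.gcd_dvd_left _ _
  obtain ⟨r', hr'⟩ : g ∣ b4 := hg ▸ Nat.gcd_dvd_right _ _
  rw [← hk, ← hg]
  have c1 : Nat.Coprime r s := by
    have := Nat.coprime_div_gcd_div_gcd (m := b1) (n := b3) (hk ▸ hk0)
    rwa [← hk, hr, hs, Nat.mul_div_cancel_left _ hk0, Nat.mul_div_cancel_left _ hk0] at this
  have c2 : Nat.Coprime s' r' := by
    have := Nat.coprime_div_gcd_div_gcd (m := b2) (n := b4) (hg ▸ hg0)
    rwa [← hg, hs', hr', Nat.mul_div_cancel_left _ hg0, Nat.mul_div_cancel_left _ hg0] at this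
  have h5 : r * s' = s * r' := by
    rw [hr, hs, hs', hr'] at h
    have h6 : (k * g) * (r * s') = (k * g) * (s * r') := by
      calc (k * g) * (r * s') = k * r * (g * s') := by ring
        _ = k * s * (g * r') := h
        _ = (k * g) * (s * r') := by ring
    exact Nat.eq_of_mul_eq_mul_left (Nat.mul_pos hk0 hg0) h6
  have h7 : r ∣ r' := c1.dvd_of_dvd_mul_left (h5 ▸ Dvd.intro _ rfl)
  have h8 : r' ∣ r := c2.symm.dvd_of_dvd_mul_right (h5 ▸ Dvd.intro_left _ rfl)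
  have h9 : r = r' := Nat.dvd_antisymm h7 h8
  have hr0 : 0 < r := by
    rw [Nat.pos_iff_ne_zero]
    rintro rfl
    omega
  have h10 : s = s' := by
    rw [← h9, mul_comm s r] at h5
    exact (Nat.eq_of_mul_eq_mul_left hr0 h5).symm
  rw [hr, hs, hs', hr', Nat.mul_div_cancel_left _ hk0, Nat.mul_div_cancel_left _ hk0,
    Nat.mul_div_cancel_left _ hg0, Nat.mul_div_cancel_left _ hg0]
  exact ⟨h9, h10⟩

theorem sum_param (Z X : ℕ) (φ : (ℕ × ℕ) × (ℕ × ℕ) → ℂ) :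
    ∑ x ∈ LL Z X, φ x =
      ∑ y ∈ RR Z X, φ ((y.2.1 * y.1.1, y.2.2 * y.1.2), (y.2.1 * y.1.2, y.2.2 * y.1.1)) := by
  symm
  refine Finset.sum_bij'
    (fun y _ => ((y.2.1 * y.1.1, y.2.2 * y.1.2), (y.2.1 * y.1.2, y.2.2 * y.1.1)))
    (fun x _ => ((x.1.1 / Nat.gcd x.1.1 x.2.1, x.2.1 / Nat.gcd x.1.1 x.2.1),
      (Nat.gcd x.1.1 x.2.1, Nat.gcd x.1.2 x.2.2))) ?_ ?_ ?_ ?_ ?_
  · rintro ⟨⟨r, s⟩, ⟨k, g⟩⟩ hy
    unfold RR at hy
    simp only [Finset.mem_filter, Finset.mem_product] at hy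
    obtain ⟨⟨⟨hr, hs⟩, hk, hg⟩, -, h1, h2⟩ := hy
    unfold LL
    simp only [Finset.mem_filter, Finset.mem_product]
    refine ⟨⟨⟨mul_BB hk hr ?_, mul_BB hg hs ?_⟩, mul_BB hk hs ?_, mul_BB hg hr ?_⟩, by ring⟩
    · exact (Nat.mul_le_mul_left k (le_max_left r s)).trans h1
    · exact (Nat.mul_le_mul_left g (le_max_right r s)).trans h2
    · exact (Nat.mul_le_mul_left k (le_max_right r s)).trans h1
    · exact (Nat.mul_le_mul_left g (le_max_left r s)).trans h2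
  · rintro ⟨⟨b1, b2⟩, ⟨b3, b4⟩⟩ hx
    unfold LL at hx
    simp only [Finset.mem_filter, Finset.mem_product] at hx
    obtain ⟨⟨⟨hb1, hb2⟩, hb3, hb4⟩, h⟩ := hx
    have p1 : 0 < b1 := (mem_BB.1 hb1).1
    have p2 : 0 < b2 := (mem_BB.1 hb2).1
    obtain ⟨q1, q2⟩ := quad_param p1 p2 h
    unfold RR
    simp only [Finset.mem_filter, Finset.mem_product]
    have d1 : Nat.gcd b1 b3 * (b1 / Nat.gcd b1 b3) = b1 := Nat.mul_div_cancel' (Nat.gcd_dvd_left _ _)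
    have d3 : Nat.gcd b1 b3 * (b3 / Nat.gcd b1 b3) = b3 :=
      Nat.mul_div_cancel' (Nat.gcd_dvd_right _ _)
    have d2 : Nat.gcd b2 b4 * (b2 / Nat.gcd b2 b4) = b2 := Nat.mul_div_cancel' (Nat.gcd_dvd_left _ _)
    have d4 : Nat.gcd b2 b4 * (b4 / Nat.gcd b2 b4) = b4 :=
      Nat.mul_div_cancel' (Nat.gcd_dvd_right _ _)
    refine ⟨⟨⟨dvd_BB hb1 (Nat.div_dvd_of_dvd (Nat.gcd_dvd_left _ _)),
      dvd_BB hb3 (Nat.div_dvd_of_dvd (Nat.gcd_dvd_right _ _))⟩,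
      dvd_BB hb1 (Nat.gcd_dvd_left _ _), dvd_BB hb2 (Nat.gcd_dvd_left _ _)⟩,
      Nat.coprime_div_gcd_div_gcd (Nat.gcd_pos_of_pos_left _ p1), ?_, ?_⟩
    · rw [← Nat.mul_max_mul_left, d1, d3]
      exact max_le (mem_BB.1 hb1).2.1 (mem_BB.1 hb3).2.1
    · rw [← Nat.mul_max_mul_left, q1, q2, d2, d4]
      exact max_le (mem_BB.1 hb4).2.1 (mem_BB.1 hb2).2.1
  · rintro ⟨⟨r, s⟩, ⟨k, g⟩⟩ hy
    unfold RR at hy
    simp only [Finset.mem_filter, Finset.mem_product] at hy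
    obtain ⟨⟨⟨hr, hs⟩, hk, hg⟩, hc, -, -⟩ := hy
    have hk0 : 0 < k := (mem_BB.1 hk).1
    have e1 : Nat.gcd (k * r) (k * s) = k := by
      rw [Nat.gcd_mul_left, Nat.coprime_iff_gcd_eq_one.1 hc, mul_one]
    have e2 : Nat.gcd (g * s) (g * r) = g := by
      rw [Nat.gcd_mul_left, Nat.gcd_comm, Nat.coprime_iff_gcd_eq_one.1 hc, mul_one]
    simp only [e1, e2, Nat.mul_div_cancel_left _ hk0]
  · rintro ⟨⟨b1, b2⟩, ⟨b3, b4⟩⟩ hx
    unfold LL at hx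
    simp only [Finset.mem_filter, Finset.mem_product] at hx
    obtain ⟨⟨⟨hb1, hb2⟩, hb3, hb4⟩, h⟩ := hx
    have p1 : 0 < b1 := (mem_BB.1 hb1).1
    have p2 : 0 < b2 := (mem_BB.1 hb2).1
    obtain ⟨q1, q2⟩ := quad_param p1 p2 h
    have d1 : Nat.gcd b1 b3 * (b1 / Nat.gcd b1 b3) = b1 := Nat.mul_div_cancel' (Nat.gcd_dvd_left _ _)
    have d3 : Nat.gcd b1 b3 * (b3 / Nat.gcd b1 b3) = b3 :=
      Nat.mul_div_cancel' (Nat.gcd_dvd_right _ _)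
    have d2 : Nat.gcd b2 b4 * (b2 / Nat.gcd b2 b4) = b2 := Nat.mul_div_cancel' (Nat.gcd_dvd_left _ _)
    have d4 : Nat.gcd b2 b4 * (b4 / Nat.gcd b2 b4) = b4 :=
      Nat.mul_div_cancel' (Nat.gcd_dvd_right _ _)
    simp only [d1, d3]
    rw [q1, q2, d2, d4]
  · rintro ⟨⟨r, s⟩, ⟨k, g⟩⟩ _
    rfl

/-- the weights -/
noncomputable def Kf (Z X m : ℕ) : ℝ := ∑ k ∈ (BB Z X).filter (fun k => k * m ≤ X), 1 / (k : ℝ)

theorem Kf_nonneg (Z X m : ℕ) : 0 ≤ Kf Z X m := Finset.sum_nonneg fun _ _ => by positivity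

theorem Kf_anti (Z X : ℕ) : Antitone (Kf Z X) := by
  intro m n hmn
  refine Finset.sum_le_sum_of_subset_of_nonneg ?_ fun _ _ _ => by positivity
  intro k hk
  rw [Finset.mem_filter] at hk ⊢
  exact ⟨hk.1, (Nat.mul_le_mul_left k hmn).trans hk.2⟩

theorem Kf_le (Z X m : ℕ) : Kf Z X m ≤ rho Z X :=
  Finset.sum_le_sum_of_subset_of_nonneg (Finset.filter_subset _ _) fun _ _ _ => by positivity

theorem Kf_one (Z X : ℕ) : Kf Z X 1 = rho Z X := by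
  unfold Kf rho
  refine Finset.sum_congr ?_ fun _ _ => rfl
  refine Finset.filter_true_of_mem fun k hk => ?_
  rw [mul_one]
  exact (mem_BB.1 hk).2.1

theorem Kf_zero (Z X m : ℕ) (h : X < m) : Kf Z X m = 0 := by
  refine Finset.sum_eq_zero fun k hk => ?_
  rw [Finset.mem_filter] at hk
  have h1 := (mem_BB.1 hk.1).1
  have h2 : 1 * m ≤ k * m := Nat.mul_le_mul_right m h1
  omega

/-- the coprime pairs -/
noncomputable def CP (Z X : ℕ) : Finset (ℕ × ℕ) :=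
  (BB Z X ×ˢ BB Z X).filter fun y => Nat.Coprime y.1 y.2

theorem nm_param (Z X : ℕ) (h : ℝ) :
    ((nm (ro Z X * sh h (ro Z X)) : ℝ) : ℂ) =
      ∑ y ∈ CP Z X, om h y.2 * (starRingEnd ℂ) (om h y.1) / ((y.1 : ℂ) * (y.2 : ℂ)) *
        ((Kf Z X (max y.1 y.2) ^ 2 : ℝ) : ℂ) := by
  rw [nm_quad, sum_param]
  have e1 : ∀ y ∈ RR Z X, om h (y.2.2 * y.1.2) * (starRingEnd ℂ) (om h (y.2.2 * y.1.1)) /
      (((y.2.1 * y.1.1 : ℕ) : ℂ) * ((y.2.2 * y.1.2 : ℕ) : ℂ)) =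
      om h y.1.2 * (starRingEnd ℂ) (om h y.1.1) / ((y.1.1 : ℂ) * (y.1.2 : ℂ)) *
        ((1 / (y.2.1 : ℂ)) * (1 / (y.2.2 : ℂ))) := by
    rintro ⟨⟨r, s⟩, ⟨k, g⟩⟩ hy
    unfold RR at hy
    simp only [Finset.mem_filter, Finset.mem_product] at hy
    have hg := (mem_BB.1 hy.1.2.2).1
    simp only
    rw [om_mul, om_mul, map_mul]
    have e2 := om_conj h hg
    have e3 : om h g * om h s * ((starRingEnd ℂ) (om h g) * (starRingEnd ℂ) (om h r)) =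
        om h s * (starRingEnd ℂ) (om h r) := by
      linear_combination (om h s * (starRingEnd ℂ) (om h r)) * e2
    rw [e3]
    push_cast
    rw [div_mul_div_comm, mul_one, div_mul_div_comm, mul_one]
    congr 1
    ring
  rw [Finset.sum_congr rfl e1]
  have e4 : RR Z X = ((BB Z X ×ˢ BB Z X) ×ˢ (BB Z X ×ˢ BB Z X)).filter fun y =>
      Nat.Coprime y.1.1 y.1.2 ∧ (y.2.1 * max y.1.1 y.1.2 ≤ X ∧ y.2.2 * max y.1.1 y.1.2 ≤ X) := rfl
  rw [e4, Finset.sum_filter, Finset.sum_product, CP, Finset.sum_filter]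
  refine Finset.sum_congr rfl fun y _ => ?_
  by_cases hc : Nat.Coprime y.1 y.2
  · rw [if_pos hc]
    have e5 : ((Kf Z X (max y.1 y.2) ^ 2 : ℝ) : ℂ) =
        ∑ x ∈ BB Z X ×ˢ BB Z X, if x.1 * max y.1 y.2 ≤ X ∧ x.2 * max y.1 y.2 ≤ X then
          (1 / (x.1 : ℂ)) * (1 / (x.2 : ℂ)) else 0 := by
      have e6 : ((Kf Z X (max y.1 y.2) : ℝ) : ℂ) =
          ∑ k ∈ BB Z X, if k * max y.1 y.2 ≤ X then 1 / (k : ℂ) else 0 := by
        unfold Kf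
        rw [Finset.sum_filter, Complex.ofReal_sum]
        refine Finset.sum_congr rfl fun k _ => ?_
        split_ifs
        · push_cast
          rfl
        · simp
      rw [Complex.ofReal_pow, sq, e6, Finset.sum_mul_sum, ← Finset.sum_product']
      refine Finset.sum_congr rfl fun x _ => ?_
      by_cases h1 : x.1 * max y.1 y.2 ≤ X
      · by_cases h2 : x.2 * max y.1 y.2 ≤ X
        · rw [if_pos h1, if_pos h2, if_pos ⟨h1, h2⟩]
        · rw [if_neg h2, mul_zero, if_neg fun h => h2 h.2]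
      · rw [if_neg h1, zero_mul, if_neg fun h => h1 h.1]
    rw [e5, Finset.mul_sum]
    refine Finset.sum_congr rfl fun x _ => ?_
    by_cases h1 : x.1 * max y.1 y.2 ≤ X ∧ x.2 * max y.1 y.2 ≤ X
    · rw [if_pos h1, if_pos ⟨hc, h1⟩]
    · rw [if_neg h1, if_neg fun h => h1 h.2, mul_zero]
  · rw [if_neg hc]
    refine Finset.sum_eq_zero fun x _ => if_neg fun h => hc h.1

end Pool.Agent.Q61.EW
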