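import Pool.Agent.Q61.EW.EXC

/-! Job GW of the project EW of helper80. -/

set_option autoImplicit false

namespace Pool.Agent.Q61.EW

open Filter Topology Finset Pool.Agent.Q80.EW MeasureTheory

theorem GG_lo (Z : ℕ) (a : ℝ) : GG 0 0 Z 0 (lo a) 0 = ex (lo a) := by
  unfold GG
  rw [pow_zero, pow_zero, one_mul, one_mul, sh_zero, ← ex_add, add_zero]

theorem t_GW (hS : J_SUP) (hE : J_EXP) (hET : J_ET) (hCH : J_CHERN) (hEU : J_EU)
    (hMT : J_MERT) : J_GW := by
  obtain ⟨CS, hCS, hS⟩ := hS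
  obtain ⟨CH, hCH0, hCH⟩ := hCH
  obtain ⟨CE, hCE, hEU⟩ := hEU
  obtain ⟨CM, hMT⟩ := hMT
  intro y ε δ hy hε hδ
  obtain ⟨K, hK⟩ : ∃ K : ℝ, K = 3212 * CS * CH * Real.exp (2 * CM) := ⟨_, rfl⟩
  obtain ⟨K1, hK1⟩ : ∃ K1 : ℝ, K1 = 1606 * CS * CH := ⟨_, rfl⟩
  have hK0 : 0 < K := by rw [hK]; positivity
  have hK10 : 0 < K1 := by rw [hK1]; positivity
  have hsq : Tendsto (fun T => 2 * ε * Real.sqrt (La T)) atTop atTop :=
    (Real.tendsto_sqrt_atTop.comp tendsto_La).const_mul_atTop (by positivity)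
  have hev1 : ∀ᶠ T : ℝ in atTop, (2 * ε * Real.sqrt (La T)) ^ 2 *
      Real.exp (-(2 * ε * Real.sqrt (La T))) ≤ 4 * ε ^ 2 * (δ / 2 / K) :=
    ((Real.tendsto_pow_mul_exp_neg_atTop_nhds_zero 2).comp hsq).eventually_le_const
      (by positivity)
  have hev2 : ∀ᶠ T : ℝ in atTop, La T ^ 1 * Real.exp (-La T) ≤ δ / 2 / K1 :=
    ((Real.tendsto_pow_mul_exp_neg_atTop_nhds_zero 1).comp tendsto_La).eventually_le_const
      (by positivity)
  have hel : Tendsto el atTop atTop := by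
    unfold el
    exact tendsto_nat_ceil_atTop.comp (tendsto_La.const_mul_atTop (by norm_num))
  filter_upwards [hel.eventually hET, hev1, hev2, grow 1 (show (0 : ℝ) < 1 by norm_num),
    eventually_gt_atTop 1, tendsto_La.eventually_ge_atTop 1,
    tendsto_La.eventually_ge_atTop (y ^ 2)] with T hET hev1 hev2 hg hT hLa hLy a ha0 ha
  have hT0 : 0 < T := by linarith
  have hL0 : 0 < La T := by linarith
  have hg := hg a ha
  rw [one_mul, Real.rpow_one] at hg
  obtain ⟨Z, hZ⟩ : ∃ Z, Z = zc a := ⟨_, rfl⟩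
  rw [← hZ] at hg
  have hZ1 : 1 ≤ Z := by
    have := two_le_zc a
    omega
  have hZr : (1 : ℝ) ≤ (Z : ℝ) := by exact_mod_cast hZ1
  have hlo : Wt Z (lo a) := Wt_lo (by rw [hZ])
  obtain ⟨k, hk⟩ : ∃ k, k = ⌈20 * La T⌉₊ := ⟨_, rfl⟩
  obtain ⟨l, hl⟩ : ∃ l, l = el T := ⟨_, rfl⟩
  have hkl : k ≤ l := by
    rw [hk, hl]
    unfold el
    exact Nat.ceil_mono (by linarith)
  have hl1 : (l : ℝ) ≤ 401 * La T := by rw [hl]; exact el_le hLa
  have hl2 : 400 * La T ≤ (l : ℝ) := by rw [hl]; exact le_el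
  rw [← hl] at hET hg
  obtain ⟨s, hs⟩ : ∃ s, s = Real.sqrt (La T) := ⟨_, rfl⟩
  have hs0 : 0 < s := by rw [hs]; exact Real.sqrt_pos.2 hL0
  have hss : s ^ 2 = La T := by rw [hs]; exact Real.sq_sqrt hL0.le
  rw [← hs] at hev1 ⊢
  have hys : y * s ≤ La T := by
    have h1 : y ≤ s := by
      rw [hs]
      exact Real.le_sqrt_of_sq_le hLy
    nlinarith
  obtain ⟨U, hU⟩ : ∃ U, U = Real.exp (y * s) := ⟨_, rfl⟩
  rw [← hU]
  have hU1 : 1 ≤ U := by
    rw [hU]
    exact Real.one_le_exp (by positivity)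
  have hUL : U ≤ Real.exp (La T) := by
    rw [hU]
    exact Real.exp_le_exp.2 hys
  have hUT : U ≤ T := by
    refine hUL.trans ?_
    rw [← log_eq hT]
    linarith [Real.log_le_sub_one_of_pos hT0]
  have hU0 : 0 < U := by linarith
  -- norms
  have hEU1 := hEU 0 0 Z 0 (lo a) 0 (by norm_num) (by norm_num) hlo (fun p => by simp)
  have hCHa := hCH a ha0
  rw [← hZ] at hCHa
  have hDex : Dom (ex (lo a)) (GG 0 0 Z 0 (lo a) 0) := by
    rw [GG_lo]
    exact Dom_ex _ _ fun p => by rw [abs_of_nonneg (lo_nonneg a p).1]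
  have hn1 : nm (pk k (ex (lo a))) ≤ CH * Real.exp a := (nm_dom (hDex.pk k) hEU1.1).trans hCHa
  have hn2 : nm (tr l (ex (lo a))) ≤ CH * Real.exp a := (nm_dom (hDex.tr l) hEU1.1).trans hCHa
  have hEk := hE Z k (lo a) hZ1 hlo
  have hEl := hE Z l (lo a) hZ1 hlo
  have hea : 1 ≤ Real.exp a := Real.one_le_exp ha0
  -- lengths
  have hX : ∀ n : ℕ, n ≤ l → (1 ≤ Z ^ n ∧ ((Z ^ n : ℕ) : ℝ) ≤ T ∧
      1 + Real.log ((Z ^ n : ℕ) : ℝ) ≤ 803 * La T * Real.exp a ∧
      0 ≤ Real.log ((Z ^ n : ℕ) : ℝ)) := by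
    intro n hn
    refine ⟨Nat.one_le_pow _ _ hZ1, ?_, ?_, ?_⟩
    · push_cast
      exact (pow_le_pow_right₀ hZr hn).trans hg
    · push_cast
      rw [Real.log_pow]
      have h1 := log_zc_le a
      rw [← hZ] at h1
      have h2 : (n : ℝ) ≤ 401 * La T := by
        have : (n : ℝ) ≤ (l : ℝ) := by exact_mod_cast hn
        linarith
      have h3 : (n : ℝ) * Real.log Z ≤ (401 * La T) * (2 * Real.exp a) :=
        mul_le_mul h2 (by linarith) (Real.log_nonneg hZr) (by positivity)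
      nlinarith
    · push_cast
      rw [Real.log_pow]
      exact mul_nonneg (by positivity) (Real.log_nonneg hZr)
  obtain ⟨hXk1, hXk2, hXk3, hXk4⟩ := hX k hkl
  obtain ⟨hXl1, hXl2, hXl3, hXl4⟩ := hX l le_rfl
  obtain ⟨lam2, hlam2⟩ : ∃ x : ℝ, x = Real.exp (2 * VV a + (y + 2 * ε) * s) / 4 := ⟨_, rfl⟩
  obtain ⟨lam1, hlam1⟩ : ∃ x : ℝ, x = Real.exp (20 * La T) / 2 := ⟨_, rfl⟩
  have hl1p : 0 < lam1 := by rw [hlam1]; positivity
  have hl2p : 0 < lam2 := by rw [hlam2]; positivity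
  have hS1 := hS _ _ hXk1 hEk.2.1 T U lam1 hU1 hUT hXk2 hl1p
  have hS2 := hS _ _ hXl1 hEl.1 T U lam2 hU1 hUT hXl2 hl2p
  obtain ⟨A, hA⟩ : ∃ A, A = {t : ℝ | t ∈ Set.Icc T (3 * T) ∧
    ∃ h ∈ Set.Icc (0 : ℝ) U, lam1 < ‖dp (pk k (ex (lo a))) (t + h)‖ ^ 2} := ⟨_, rfl⟩
  obtain ⟨B, hB⟩ : ∃ B, B = {t : ℝ | t ∈ Set.Icc T (3 * T) ∧
    ∃ h ∈ Set.Icc (0 : ℝ) U, lam2 < ‖dp (tr l (ex (lo a))) (t + h)‖ ^ 2} := ⟨_, rfl⟩
  rw [← hA] at hS1
  rw [← hB] at hS2
  have hfin : ∀ S : Set ℝ, S ⊆ Set.Icc T (3 * T) → volume S ≠ ⊤ := fun S hS =>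
    ((measure_mono hS).trans_lt measure_Icc_lt_top).ne
  have hAf : volume A ≠ ⊤ := hfin A (by rw [hA]; exact fun t ht => ht.1)
  have hBf : volume B ≠ ⊤ := hfin B (by rw [hB]; exact fun t ht => ht.1)
  have hsub : {t : ℝ | t ∈ Set.Icc T (3 * T) ∧ ∃ h ∈ Set.Icc (0 : ℝ) U,
      ((y / 2 + ε) * s < XX a (t + h) ∨ 40 * La T < ‖PP a (t + h)‖)} ⊆ A ∪ B := by
    rintro t ⟨ht, h, hh, hor⟩
    by_cases hbig : 40 * La T < ‖PP a (t + h)‖
    · left
      rw [hA]
      refine ⟨ht, h, hh, ?_⟩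
      rw [(hEk.2.2.2 (t + h)).2, PV_lo (by rw [hZ])]
      have hfb := fact_bound hLa
      rw [← hk] at hfb
      have h3 : (0 : ℝ) < (k.factorial : ℝ) := by exact_mod_cast Nat.factorial_pos k
      rw [norm_div, norm_pow, Complex.norm_natCast]
      have e1 : (40 * La T) ^ k / (k.factorial : ℝ) ≤ ‖PP a (t + h)‖ ^ k / (k.factorial : ℝ) :=
        div_le_div_of_nonneg_right (pow_le_pow_left₀ (by positivity) hbig.le k) h3.le
      have e2 : ((40 * La T) ^ k / (k.factorial : ℝ)) ^ 2 ≤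
          (‖PP a (t + h)‖ ^ k / (k.factorial : ℝ)) ^ 2 := pow_le_pow_left₀ (by positivity) e1 2
      have e3 : Real.exp (20 * La T) ≤ ((40 * La T) ^ k / (k.factorial : ℝ)) ^ 2 := by
        have e4 : ((40 * La T) ^ k / (k.factorial : ℝ)) ^ 2 =
            ((((k.factorial : ℝ) / (40 * La T) ^ k)) ^ 2)⁻¹ := by
          rw [← inv_pow, inv_div]
        rw [e4, le_inv_comm₀ (Real.exp_pos _) (by positivity), ← Real.exp_neg]
        exact hfb
      rw [hlam1]
      linarith [Real.exp_pos (20 * La T)]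
    · right
      rw [hB]
      refine ⟨ht, h, hh, ?_⟩
      rcases hor with hor | hor
      · rw [(hEl.2.2.2 (t + h)).1, PV_lo (by rw [hZ])]
        push Not at hbig
        have e1 := hET (PP a (t + h)) (by linarith)
        have e2 := (abs_le.1 e1).1
        have e3 : Real.exp (-(l : ℝ)) ≤ 1 / 2 := by
          have e4 : Real.exp (-(l : ℝ)) ≤ Real.exp (-1) := Real.exp_le_exp.2 (by linarith)
          refine e4.trans ?_
          rw [Real.exp_neg, inv_le_comm₀ (Real.exp_pos _) (by norm_num)]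
          have := Real.add_one_le_exp (1 : ℝ)
          norm_num
          linarith
        have e5 : Real.exp (-(l : ℝ)) * Real.exp (2 * (PP a (t + h)).re) ≤
            1 / 2 * Real.exp (2 * (PP a (t + h)).re) :=
          mul_le_mul_of_nonneg_right e3 (Real.exp_pos _).le
        have e6 : Real.exp (2 * VV a + (y + 2 * ε) * s) ≤ Real.exp (2 * (PP a (t + h)).re) := by
          refine Real.exp_le_exp.2 ?_
          unfold XX at hor
          linarith
        rw [hlam2]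
        have e7 := Real.exp_pos (2 * VV a + (y + 2 * ε) * s)
        linarith
      · exact absurd hor hbig
  have hm : (volume {t : ℝ | t ∈ Set.Icc T (3 * T) ∧ ∃ h ∈ Set.Icc (0 : ℝ) U,
      ((y / 2 + ε) * s < XX a (t + h) ∨ 40 * La T < ‖PP a (t + h)‖)}).toReal ≤
      (volume A).toReal + (volume B).toReal := by
    rw [← ENNReal.toReal_add hAf hBf]
    refine ENNReal.toReal_mono (ENNReal.add_ne_top.2 ⟨hAf, hBf⟩) ?_
    exact (measure_mono hsub).trans (measure_union_le A B)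
  refine hm.trans ?_
  -- first bound
  have heaL : Real.exp a ≤ Real.exp (La T) := by
    refine Real.exp_le_exp.2 (ha.trans ?_)
    unfold Yt
    linarith [Real.log_nonneg hLa]
  have hA1 : (volume A).toReal ≤ δ / 2 * T := by
    refine hS1.trans ?_
    rw [div_le_iff₀ hl1p]
    have e1 : CS * (U * T * (1 + Real.log ((Z ^ k : ℕ) : ℝ)) * nm (pk k (ex (lo a)))) ≤
        CS * (Real.exp (La T) * T * (803 * La T * Real.exp (La T)) * (CH * Real.exp (La T))) := by
      have f1 : 1 + Real.log ((Z ^ k : ℕ) : ℝ) ≤ 803 * La T * Real.exp (La T) :=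
        hXk3.trans (mul_le_mul_of_nonneg_left heaL (by positivity))
      have f2 : nm (pk k (ex (lo a))) ≤ CH * Real.exp (La T) :=
        hn1.trans (mul_le_mul_of_nonneg_left heaL hCH0.le)
      refine mul_le_mul_of_nonneg_left ?_ hCS.le
      refine mul_le_mul ?_ f2 (nm_nonneg _) (by positivity)
      refine mul_le_mul (mul_le_mul_of_nonneg_right hUL hT0.le) f1 (by linarith) (by positivity)
    refine e1.trans ?_
    have e2 : CS * (Real.exp (La T) * T * (803 * La T * Real.exp (La T)) *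
        (CH * Real.exp (La T))) = K1 * La T * T * Real.exp (3 * La T) / 2 := by
      rw [hK1, show 3 * La T = La T + La T + La T by ring, Real.exp_add, Real.exp_add]
      ring
    rw [e2, hlam1]
    have e3 : K1 * La T ≤ δ / 2 * Real.exp (La T) := by
      rw [pow_one, Real.exp_neg, ← div_eq_mul_inv, div_le_iff₀ (Real.exp_pos _)] at hev2
      calc K1 * La T ≤ K1 * (δ / 2 / K1 * Real.exp (La T)) :=
            mul_le_mul_of_nonneg_left hev2 hK10.le
        _ = δ / 2 * Real.exp (La T) := by field_simp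
    have e4 : K1 * La T * T * Real.exp (3 * La T) ≤ δ / 2 * Real.exp (La T) * T * Real.exp (3 * La T) :=
      mul_le_mul_of_nonneg_right (mul_le_mul_of_nonneg_right e3 hT0.le) (Real.exp_pos _).le
    have e5 : δ / 2 * Real.exp (La T) * T * Real.exp (3 * La T) =
        δ / 2 * T * Real.exp (4 * La T) := by
      rw [show 4 * La T = La T + 3 * La T by ring, Real.exp_add]
      ring
    have e6 : Real.exp (4 * La T) ≤ Real.exp (20 * La T) := Real.exp_le_exp.2 (by linarith)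
    have e7 : δ / 2 * T * Real.exp (4 * La T) ≤ δ / 2 * T * Real.exp (20 * La T) :=
      mul_le_mul_of_nonneg_left e6 (by positivity)
    linarith
  -- second bound
  have hB1 : (volume B).toReal ≤ δ / 2 * T := by
    refine hS2.trans ?_
    rw [div_le_iff₀ hl2p]
    have e1 : CS * (U * T * (1 + Real.log ((Z ^ l : ℕ) : ℝ)) * nm (tr l (ex (lo a)))) ≤
        CS * (U * T * (803 * La T * Real.exp a) * (CH * Real.exp a)) := by
      refine mul_le_mul_of_nonneg_left ?_ hCS.le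
      refine mul_le_mul ?_ hn2 (nm_nonneg _) (by positivity)
      exact mul_le_mul_of_nonneg_left hXl3 (by positivity)
    refine e1.trans ?_
    have hVV := (abs_le.1 (hMT a ha0)).1
    have e2 : Real.exp a * Real.exp a ≤ Real.exp (2 * CM) * Real.exp (2 * VV a) := by
      rw [← Real.exp_add, ← Real.exp_add]
      exact Real.exp_le_exp.2 (by linarith)
    have e3 : K * La T ≤ δ / 2 * Real.exp (2 * ε * s) := by
      have f1 : (2 * ε * s) ^ 2 = 4 * ε ^ 2 * La T := by
        rw [← hss]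
        ring
      rw [f1, Real.exp_neg, ← div_eq_mul_inv, div_le_iff₀ (Real.exp_pos _)] at hev1
      have f2 : La T ≤ δ / 2 / K * Real.exp (2 * ε * s) := by
        have f3 : 4 * ε ^ 2 * La T ≤ 4 * ε ^ 2 * (δ / 2 / K * Real.exp (2 * ε * s)) := by
          linarith
        exact le_of_mul_le_mul_left f3 (by positivity)
      calc K * La T ≤ K * (δ / 2 / K * Real.exp (2 * ε * s)) :=
            mul_le_mul_of_nonneg_left f2 hK0.le
        _ = δ / 2 * Real.exp (2 * ε * s) := by field_simp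
    have e4 : CS * (U * T * (803 * La T * Real.exp a) * (CH * Real.exp a)) =
        (803 * CS * CH * La T * T * U) * (Real.exp a * Real.exp a) := by ring
    rw [e4]
    have e5 : (803 * CS * CH * La T * T * U) * (Real.exp a * Real.exp a) ≤
        (803 * CS * CH * La T * T * U) * (Real.exp (2 * CM) * Real.exp (2 * VV a)) :=
      mul_le_mul_of_nonneg_left e2 (by positivity)
    refine e5.trans ?_
    have e6 : (803 * CS * CH * La T * T * U) * (Real.exp (2 * CM) * Real.exp (2 * VV a)) =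
        (K * La T) * (T * U * Real.exp (2 * VV a) / 4) := by
      rw [hK]
      ring
    rw [e6]
    have e7 : (K * La T) * (T * U * Real.exp (2 * VV a) / 4) ≤
        (δ / 2 * Real.exp (2 * ε * s)) * (T * U * Real.exp (2 * VV a) / 4) :=
      mul_le_mul_of_nonneg_right e3 (by positivity)
    refine e7.trans (le_of_eq ?_)
    rw [hlam2, hU, show 2 * VV a + (y + 2 * ε) * s = 2 * VV a + (y * s + 2 * ε * s) by ring,
      Real.exp_add (2 * VV a), Real.exp_add (y * s)]
    ring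
  linarith

end Pool.Agent.Q61.EW
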