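import Pool.Agent.Q80.EW.Stm

/-! Job EU of the project EW of helper80: local factors. -/

set_option autoImplicit false

namespace Pool.Agent.Q61.EW

open Filter Topology Finset

/-! ### The local series -/

/-- the constant of the local series -/
noncomputable def SS : ℝ := ∑' k : ℕ, ((k : ℝ) + 3) ^ 2 * (1 / 2 : ℝ) ^ k

theorem summ_SS : Summable fun k : ℕ => ((k : ℝ) + 3) ^ 2 * (1 / 2 : ℝ) ^ k := by
  have h1 : Summable fun k : ℕ => (k : ℝ) ^ 2 * (1 / 2 : ℝ) ^ k :=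
    summable_pow_mul_geometric_of_norm_lt_one 2 (by norm_num)
  have h2 := ((summable_nat_add_iff 3).2 h1).mul_left 8
  refine h2.congr fun k => ?_
  push_cast
  rw [pow_add]
  ring

theorem SS_nonneg : 0 ≤ SS := tsum_nonneg fun k => by positivity

section

variable {G : ℕ → ℂ} {K q : ℝ}

theorem sq_bound {x y : ℝ} (hx : 0 ≤ x) (h : x ≤ y) : x ^ 2 ≤ y ^ 2 := pow_le_pow_left₀ hx h 2

/-- a series of terms `(k+3)^2 / q^(k+2)` -/
theorem tail_bound (hq : 2 ≤ q) {a : ℕ → ℝ} {B : ℝ}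
    (ha : ∀ k, |a k| ≤ B * ((k : ℝ) + 3) ^ 2) :
    Summable (fun k => a k / q ^ (k + 2)) ∧ |∑' k, a k / q ^ (k + 2)| ≤ B * SS / q ^ 2 := by
  have hq0 : 0 < q := by linarith
  have hB : 0 ≤ B := by
    have h1 := (abs_nonneg _).trans (ha 0)
    norm_num at h1
    linarith
  have h1 : ∀ k, |a k / q ^ (k + 2)| ≤ B / q ^ 2 * (((k : ℝ) + 3) ^ 2 * (1 / 2 : ℝ) ^ k) := by
    intro k
    rw [abs_div, abs_of_pos (pow_pos hq0 _), div_le_iff₀ (pow_pos hq0 _)]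
    have h2 : (1 : ℝ) ≤ (1 / 2 : ℝ) ^ k * q ^ k := by
      rw [← mul_pow]
      exact one_le_pow₀ (by linarith)
    have h3 : B / q ^ 2 * (((k : ℝ) + 3) ^ 2 * (1 / 2 : ℝ) ^ k) * q ^ (k + 2) =
        B * ((k : ℝ) + 3) ^ 2 * ((1 / 2 : ℝ) ^ k * q ^ k) := by
      rw [pow_add]
      field_simp
    rw [h3]
    calc |a k| ≤ B * ((k : ℝ) + 3) ^ 2 * 1 := by rw [mul_one]; exact ha k
      _ ≤ _ := mul_le_mul_of_nonneg_left h2 (by positivity)
  have h2 : Summable fun k : ℕ => B / q ^ 2 * (((k : ℝ) + 3) ^ 2 * (1 / 2 : ℝ) ^ k) :=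
    summ_SS.mul_left _
  have h3 : Summable (fun k => a k / q ^ (k + 2)) :=
    Summable.of_norm_bounded h2 fun k => by rw [Real.norm_eq_abs]; exact h1 k
  refine ⟨h3, ?_⟩
  have h4 := norm_tsum_le_tsum_norm h3.norm
  rw [Real.norm_eq_abs] at h4
  refine h4.trans ?_
  have h5 : ∑' k, ‖a k / q ^ (k + 2)‖ ≤
      ∑' k : ℕ, B / q ^ 2 * (((k : ℝ) + 3) ^ 2 * (1 / 2 : ℝ) ^ k) :=
    Summable.tsum_le_tsum (fun k => by rw [Real.norm_eq_abs]; exact h1 k) h3.norm h2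
  rw [tsum_mul_left] at h5
  refine h5.trans (le_of_eq ?_)
  unfold SS
  ring

/-- the local factor -/
noncomputable def LF (G : ℕ → ℂ) (q : ℝ) : ℝ := ∑' k, ‖G k‖ ^ 2 / q ^ k

theorem LF_summ (hq : 2 ≤ q) (hG : ∀ k, ‖G k‖ ≤ K * ((k : ℝ) + 1)) :
    Summable fun k => ‖G k‖ ^ 2 / q ^ k := by
  rw [← summable_nat_add_iff 2]
  refine (tail_bound hq (a := fun k => ‖G (k + 2)‖ ^ 2) (B := K ^ 2) fun k => ?_).1
  rw [abs_of_nonneg (sq_nonneg _), ← mul_pow]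
  refine sq_bound (norm_nonneg _) ?_
  have := hG (k + 2)
  push_cast at this
  linarith

theorem LF_split (hq : 2 ≤ q) (hG : ∀ k, ‖G k‖ ≤ K * ((k : ℝ) + 1)) (h0 : G 0 = 1) :
    LF G q = 1 + ‖G 1‖ ^ 2 / q + ∑' k, ‖G (k + 2)‖ ^ 2 / q ^ (k + 2) := by
  unfold LF
  rw [← (LF_summ hq hG).sum_add_tsum_nat_add 2, Finset.sum_range_succ, Finset.sum_range_one, h0]
  simp

theorem tail_G (hq : 2 ≤ q) (hG : ∀ k, ‖G k‖ ≤ K * ((k : ℝ) + 1)) :
    |∑' k, ‖G (k + 2)‖ ^ 2 / q ^ (k + 2)| ≤ K ^ 2 * SS / q ^ 2 := by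
  refine (tail_bound hq (a := fun k => ‖G (k + 2)‖ ^ 2) (B := K ^ 2) fun k => ?_).2
  rw [abs_of_nonneg (sq_nonneg _), ← mul_pow]
  refine sq_bound (norm_nonneg _) ?_
  have := hG (k + 2)
  push_cast at this
  linarith

theorem log_diff {A B : ℝ} (hA : 0 ≤ A) (hB : 0 ≤ B) :
    |Real.log (1 + A) - Real.log (1 + B) - (A - B)| ≤ |A - B| * max A B := by
  have key : ∀ A B : ℝ, 0 ≤ B → B ≤ A →
      |Real.log (1 + A) - Real.log (1 + B) - (A - B)| ≤ |A - B| * max A B := by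
    intro A B hB hBA
    have hA : 0 ≤ A := hB.trans hBA
    rw [abs_of_nonneg (by linarith : 0 ≤ A - B), max_eq_left hBA, ← Real.log_div (by linarith)
      (by linarith)]
    have hpos : 0 < (1 + A) / (1 + B) := by positivity
    have h1 := Real.log_le_sub_one_of_pos hpos
    have h2 := Real.one_sub_inv_le_log_of_pos hpos
    have h3 : (1 + A) / (1 + B) - 1 ≤ A - B := by
      rw [div_sub_one (by linarith), div_le_iff₀ (by linarith)]
      nlinarith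
    have h4 : (A - B) - A * (A - B) ≤ 1 - ((1 + A) / (1 + B))⁻¹ := by
      rw [inv_div, one_sub_div (by linarith), le_div_iff₀ (by linarith)]
      nlinarith [mul_nonneg hA (mul_nonneg hA (sub_nonneg.2 hBA))]
    rw [abs_le]
    constructor
    · nlinarith
    · nlinarith [mul_nonneg (sub_nonneg.2 hBA) hA]
  rcases le_total B A with h | h
  · exact key A B hB h
  · have h1 := key B A hA h
    rw [abs_sub_comm A B, max_comm A B]
    refine Eq.trans_le ?_ h1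
    rw [← abs_neg]
    congr 1
    ring

/-- the local estimates -/
theorem local_est (hK : 0 ≤ K) (hq : 2 ≤ q) {G0 : ℕ → ℂ} {D : ℝ} (hD : 0 ≤ D)
    (hG : ∀ k, ‖G k‖ ≤ K * ((k : ℝ) + 1)) (hG0 : ∀ k, ‖G0 k‖ ≤ K * ((k : ℝ) + 1))
    (hGG : ∀ k, ‖G k - G0 k‖ ≤ K * D * ((k : ℝ) + 1)) (h0 : G 0 = 1) (h00 : G0 0 = 1) :
    1 ≤ LF G q ∧
    |Real.log (LF G q) - ‖G 1‖ ^ 2 / q| ≤
      (2 * K ^ 4 * (4 + SS) ^ 2 + 2 * K ^ 2 * SS) * (1 / q ^ 2) ∧
    |Real.log (LF G q) - Real.log (LF G0 q) - (‖G 1‖ ^ 2 - ‖G0 1‖ ^ 2) / q| ≤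
      (2 * K ^ 4 * (4 + SS) ^ 2 + 2 * K ^ 2 * SS) * (D / q ^ 2) := by
  have hq0 : 0 < q := by linarith
  have hS := SS_nonneg
  obtain ⟨R, hR⟩ : ∃ R, R = ∑' k, ‖G (k + 2)‖ ^ 2 / q ^ (k + 2) := ⟨_, rfl⟩
  obtain ⟨R0, hR0⟩ : ∃ R, R = ∑' k, ‖G0 (k + 2)‖ ^ 2 / q ^ (k + 2) := ⟨_, rfl⟩
  have hRn : 0 ≤ R := by
    rw [hR]
    exact tsum_nonneg fun k => by positivity
  have hRn0 : 0 ≤ R0 := by
    rw [hR0]
    exact tsum_nonneg fun k => by positivity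
  have hRb : R ≤ K ^ 2 * SS / q ^ 2 := by
    have := tail_G hq hG
    rw [← hR] at this
    exact (le_abs_self R).trans this
  have hRb0 : R0 ≤ K ^ 2 * SS / q ^ 2 := by
    have := tail_G hq hG0
    rw [← hR0] at this
    exact (le_abs_self R0).trans this
  have hL : LF G q = 1 + (‖G 1‖ ^ 2 / q + R) := by
    rw [LF_split hq hG h0, hR]
    ring
  have hL0 : LF G0 q = 1 + (‖G0 1‖ ^ 2 / q + R0) := by
    rw [LF_split hq hG0 h00, hR0]
    ring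
  obtain ⟨A, hA⟩ : ∃ A, A = ‖G 1‖ ^ 2 / q + R := ⟨_, rfl⟩
  obtain ⟨B, hB⟩ : ∃ B, B = ‖G0 1‖ ^ 2 / q + R0 := ⟨_, rfl⟩
  rw [← hA] at hL
  rw [← hB] at hL0
  have hAn : 0 ≤ A := by rw [hA]; positivity
  have hBn : 0 ≤ B := by rw [hB]; positivity
  have hq2 : 1 / q ^ 2 ≤ 1 / q := by
    refine one_div_le_one_div_of_le hq0 ?_
    nlinarith
  have hub : ∀ x : ℝ, 0 ≤ x → x ≤ K * ((1 : ℕ) + 1) → ∀ r : ℝ, r ≤ K ^ 2 * SS / q ^ 2 →
      x ^ 2 / q + r ≤ K ^ 2 * (4 + SS) / q := by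
    intro x hx hx2 r hr
    have e1 : x ^ 2 ≤ 4 * K ^ 2 := by
      have := sq_bound hx hx2
      push_cast at this
      nlinarith
    have e2 : x ^ 2 / q ≤ 4 * K ^ 2 / q := div_le_div_of_nonneg_right e1 hq0.le
    have e3 : K ^ 2 * SS / q ^ 2 ≤ K ^ 2 * SS / q := by
      rw [div_eq_mul_one_div, div_eq_mul_one_div (K ^ 2 * SS) q]
      exact mul_le_mul_of_nonneg_left hq2 (by positivity)
    have e4 : K ^ 2 * (4 + SS) / q = 4 * K ^ 2 / q + K ^ 2 * SS / q := by ring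
    linarith
  have hAu : A ≤ K ^ 2 * (4 + SS) / q := by
    rw [hA]
    exact hub _ (norm_nonneg _) (hG 1) R hRb
  have hBu : B ≤ K ^ 2 * (4 + SS) / q := by
    rw [hB]
    exact hub _ (norm_nonneg _) (hG0 1) R0 hRb0
  refine ⟨by rw [hL]; linarith, ?_, ?_⟩
  · have e1 := log_diff hAn le_rfl
    rw [add_zero, Real.log_one, sub_zero, sub_zero, abs_of_nonneg hAn, max_eq_left hAn] at e1
    have e2 : A * A ≤ (K ^ 2 * (4 + SS) / q) ^ 2 := by
      rw [← sq]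
      exact sq_bound hAn hAu
    have e3 : |A - ‖G 1‖ ^ 2 / q| ≤ K ^ 2 * SS / q ^ 2 := by
      rw [hA, add_sub_cancel_left, abs_of_nonneg hRn]
      exact hRb
    have e4 : Real.log (LF G q) - ‖G 1‖ ^ 2 / q =
        (Real.log (1 + A) - A) + (A - ‖G 1‖ ^ 2 / q) := by
      rw [hL]
      ring
    rw [e4]
    refine (abs_add_le _ _).trans ?_
    have e5 : (2 * K ^ 4 * (4 + SS) ^ 2 + 2 * K ^ 2 * SS) * (1 / q ^ 2) =
        2 * (K ^ 2 * (4 + SS) / q) ^ 2 + 2 * (K ^ 2 * SS / q ^ 2) := by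
      field_simp
    rw [e5]
    have e6 : 0 ≤ (K ^ 2 * (4 + SS) / q) ^ 2 := sq_nonneg _
    have e7 : 0 ≤ K ^ 2 * SS / q ^ 2 := by positivity
    linarith
  · have hsq : ∀ k, |‖G k‖ ^ 2 - ‖G0 k‖ ^ 2| ≤ 2 * K ^ 2 * D * ((k : ℝ) + 1) ^ 2 := by
      intro k
      have e1 : |‖G k‖ - ‖G0 k‖| ≤ K * D * ((k : ℝ) + 1) := (abs_norm_sub_norm_le _ _).trans (hGG k)
      have e2 : ‖G k‖ + ‖G0 k‖ ≤ 2 * K * ((k : ℝ) + 1) := by linarith [hG k, hG0 k]
      rw [show ‖G k‖ ^ 2 - ‖G0 k‖ ^ 2 = (‖G k‖ - ‖G0 k‖) * (‖G k‖ + ‖G0 k‖) by ring, abs_mul,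
        abs_of_nonneg (by positivity : 0 ≤ ‖G k‖ + ‖G0 k‖)]
      calc |‖G k‖ - ‖G0 k‖| * (‖G k‖ + ‖G0 k‖) ≤
          (K * D * ((k : ℝ) + 1)) * (2 * K * ((k : ℝ) + 1)) :=
            mul_le_mul e1 e2 (by positivity) (by positivity)
        _ = 2 * K ^ 2 * D * ((k : ℝ) + 1) ^ 2 := by ring
    have hRR : |R - R0| ≤ 2 * K ^ 2 * D * SS / q ^ 2 := by
      have e1 : R - R0 = ∑' k, (‖G (k + 2)‖ ^ 2 - ‖G0 (k + 2)‖ ^ 2) / q ^ (k + 2) := by
        rw [hR, hR0, ← Summable.tsum_sub]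
        · exact tsum_congr fun k => by ring
        · exact (summable_nat_add_iff 2).2 (LF_summ hq hG)
        · exact (summable_nat_add_iff 2).2 (LF_summ hq hG0)
      rw [e1]
      refine (tail_bound hq (a := fun k => ‖G (k + 2)‖ ^ 2 - ‖G0 (k + 2)‖ ^ 2)
        (B := 2 * K ^ 2 * D) fun k => ?_).2
      have := hsq (k + 2)
      push_cast at this
      refine this.trans (le_of_eq ?_)
      ring
    have hAB : |A - B| ≤ 2 * K ^ 2 * D * (4 + SS) / q := by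
      have e1 : A - B = (‖G 1‖ ^ 2 - ‖G0 1‖ ^ 2) / q + (R - R0) := by
        rw [hA, hB]
        ring
      rw [e1]
      refine (abs_add_le _ _).trans ?_
      have e2 : |(‖G 1‖ ^ 2 - ‖G0 1‖ ^ 2) / q| ≤ 2 * K ^ 2 * D * 4 / q := by
        rw [abs_div, abs_of_pos hq0]
        refine div_le_div_of_nonneg_right ?_ hq0.le
        have := hsq 1
        push_cast at this
        nlinarith
      have e3 : 2 * K ^ 2 * D * SS / q ^ 2 ≤ 2 * K ^ 2 * D * SS / q := by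
        rw [div_eq_mul_one_div, div_eq_mul_one_div (2 * K ^ 2 * D * SS) q]
        exact mul_le_mul_of_nonneg_left hq2 (by positivity)
      have e4 : 2 * K ^ 2 * D * (4 + SS) / q = 2 * K ^ 2 * D * 4 / q + 2 * K ^ 2 * D * SS / q := by
        ring
      linarith
    have e1 := log_diff hAn hBn
    have e2 : |A - B| * max A B ≤ (2 * K ^ 2 * D * (4 + SS) / q) * (K ^ 2 * (4 + SS) / q) :=
      mul_le_mul hAB (max_le hAu hBu) (le_trans hAn (le_max_left _ _)) (by positivity)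
    have e3 : Real.log (LF G q) - Real.log (LF G0 q) - (‖G 1‖ ^ 2 - ‖G0 1‖ ^ 2) / q =
        (Real.log (1 + A) - Real.log (1 + B) - (A - B)) + (R - R0) := by
      rw [hL, hL0, hA, hB]
      ring
    rw [e3]
    refine (abs_add_le _ _).trans ?_
    have e4 : (2 * K ^ 4 * (4 + SS) ^ 2 + 2 * K ^ 2 * SS) * (D / q ^ 2) =
        (2 * K ^ 2 * D * (4 + SS) / q) * (K ^ 2 * (4 + SS) / q) + 2 * K ^ 2 * D * SS / q ^ 2 := by
      field_simp
    rw [e4]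
    linarith

end

end Pool.Agent.Q61.EW
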