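import Pool.Agent.Q80.EW.Stm2

/-! Jobs FF, EXC, GW of the project EW of helper80: sizes. -/

set_option autoImplicit false

namespace Pool.Agent.Q61.EW

open Filter Topology Finset Pool.Agent.Q80.EW

theorem tendsto_La : Tendsto La atTop atTop :=
  Real.tendsto_log_atTop.comp Real.tendsto_log_atTop

theorem log_eq {T : ℝ} (hT : 1 < T) : Real.log T = Real.exp (La T) := by
  unfold La
  rw [Real.exp_log (Real.log_pos hT)]

theorem exp_Yt {T : ℝ} (hL : 0 < La T) : Real.exp (Yt T) = Real.exp (La T) / La T ^ 2 := by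
  unfold Yt
  rw [Real.exp_sub, two_mul, Real.exp_add, Real.exp_log hL, sq]

theorem two_le_zc (y : ℝ) : 2 ≤ zc y := by
  unfold zc
  have h1 : (1 : ℝ) < Real.exp (Real.exp y) := by
    rw [← Real.exp_zero]
    exact Real.exp_lt_exp.2 (Real.exp_pos y)
  have h2 : 1 < ⌈Real.exp (Real.exp y)⌉₊ := by
    rw [Nat.lt_ceil]
    exact_mod_cast h1
  omega

theorem zc_mono {a b : ℝ} (h : a ≤ b) : zc a ≤ zc b := by
  unfold zc
  exact Nat.ceil_mono (Real.exp_le_exp.2 (Real.exp_le_exp.2 h))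

theorem log_zc_le (y : ℝ) : Real.log (zc y) ≤ Real.exp y + 1 := by
  have h0 : (0 : ℝ) < zc y := by
    have := two_le_zc y
    positivity
  rw [Real.log_le_iff_le_exp h0]
  have h1 : (zc y : ℝ) ≤ Real.exp (Real.exp y) + 1 := (Nat.ceil_lt_add_one (Real.exp_pos _).le).le
  have h2 : (1 : ℝ) ≤ Real.exp (Real.exp y) := Real.one_le_exp (Real.exp_pos y).le
  have h3 : (2 : ℝ) ≤ Real.exp 1 := by
    have := Real.add_one_le_exp (1 : ℝ)
    linarith
  rw [Real.exp_add]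
  nlinarith [Real.exp_pos (Real.exp y)]

theorem zc_pow_le (y : ℝ) (n : ℕ) : (zc y : ℝ) ^ n ≤ Real.exp (n * (Real.exp y + 1)) := by
  have h0 : (0 : ℝ) < zc y := by
    have := two_le_zc y
    positivity
  rw [Real.exp_nat_mul]
  refine pow_le_pow_left₀ h0.le ?_ n
  rw [← Real.log_le_iff_le_exp h0]
  exact log_zc_le y

theorem el_le {T : ℝ} (hL : 1 ≤ La T) : (el T : ℝ) ≤ 401 * La T := by
  unfold el
  have := (Nat.ceil_lt_add_one (by linarith : 0 ≤ 400 * La T)).le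
  linarith

theorem le_el {T : ℝ} : 400 * La T ≤ (el T : ℝ) := Nat.le_ceil _

theorem sq_le_two_exp {x : ℝ} (hx : 0 ≤ x) : x ^ 2 ≤ 2 * Real.exp x := by
  have := Real.quadratic_le_exp_of_nonneg hx
  nlinarith

/-- sizes of the powers of the last level -/
theorem grow (K : ℕ) {η : ℝ} (hη : 0 < η) : ∀ᶠ T : ℝ in atTop, ∀ y : ℝ, y ≤ Yt T →
    (zc y : ℝ) ^ (K * el T) ≤ T ^ η := by
  filter_upwards [tendsto_La.eventually_ge_atTop 1,
    tendsto_La.eventually_ge_atTop (1203 * K / η), eventually_gt_atTop 1] with T h1 h2 h3 y hy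
  have hT0 : 0 < T := by linarith
  have hL0 : 0 < La T := by linarith
  refine (zc_pow_le y (K * el T)).trans ?_
  rw [Real.rpow_def_of_pos hT0, log_eq h3]
  refine Real.exp_le_exp.2 ?_
  have e1 : Real.exp y ≤ Real.exp (La T) / La T ^ 2 := by
    rw [← exp_Yt hL0]
    exact Real.exp_le_exp.2 hy
  have e2 : (1 : ℝ) ≤ 2 * (Real.exp (La T) / La T ^ 2) := by
    rw [← mul_div_assoc, le_div_iff₀ (by positivity), one_mul]
    exact sq_le_two_exp hL0.le
  have e3 := el_le h1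
  have e4 : ((K * el T : ℕ) : ℝ) * (Real.exp y + 1) ≤
      (K * (401 * La T)) * (3 * (Real.exp (La T) / La T ^ 2)) := by
    push_cast
    refine mul_le_mul (mul_le_mul_of_nonneg_left e3 (by positivity)) (by linarith)
      (by positivity) (by positivity)
  refine e4.trans ?_
  have e5 : (K * (401 * La T)) * (3 * (Real.exp (La T) / La T ^ 2)) =
      1203 * K / La T * Real.exp (La T) := by
    field_simp
    ring
  rw [e5, mul_comm (Real.exp (La T)) η]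
  refine mul_le_mul_of_nonneg_right ?_ (Real.exp_pos _).le
  rw [div_le_iff₀ hL0]
  rw [div_le_iff₀ hη] at h2
  linarith

/-! ### supports -/

/-- `f` is supported on `P` -/
def Su (P : ℕ → Prop) (f : ArithmeticFunction ℂ) : Prop := ∀ n, f n ≠ 0 → P n

/-- multiplicatively closed predicates -/
def Cl (P : ℕ → Prop) : Prop := P 1 ∧ ∀ a b, P a → P b → P (a * b)

theorem Su.mul {P : ℕ → Prop} (hP : Cl P) {f g : ArithmeticFunction ℂ} (hf : Su P f) (hg : Su P g) :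
    Su P (f * g) := by
  intro n hn
  by_contra hc
  apply hn
  rw [ArithmeticFunction.mul_apply]
  refine Finset.sum_eq_zero fun x hx => ?_
  by_contra h
  have h1 : f x.1 ≠ 0 := fun h' => h (by rw [h', zero_mul])
  have h2 : g x.2 ≠ 0 := fun h' => h (by rw [h', mul_zero])
  apply hc
  rw [← (Nat.mem_divisorsAntidiagonal.1 hx).1]
  exact hP.2 _ _ (hf _ h1) (hg _ h2)

theorem Su.one {P : ℕ → Prop} (hP : Cl P) : Su P 1 := by
  intro n hn
  by_cases h : n = 1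
  · rw [h]; exact hP.1
  · exact absurd (ArithmeticFunction.one_apply_ne h) hn

theorem Su.pow {P : ℕ → Prop} (hP : Cl P) {f : ArithmeticFunction ℂ} (hf : Su P f) (s : ℕ) :
    Su P (f ^ s) := by
  induction s with
  | zero => rw [pow_zero]; exact Su.one hP
  | succ s ih => rw [pow_succ]; exact ih.mul hP hf

theorem Su.sh {P : ℕ → Prop} {f : ArithmeticFunction ℂ} (hf : Su P f) (h : ℝ) :
    Su P (Pool.Agent.Q80.EW.sh h f) := by
  intro n hn
  refine hf n fun h0 => hn ?_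
  rw [sh_apply, h0, zero_mul]

theorem Su.tr {P : ℕ → Prop} {f : ArithmeticFunction ℂ} (hf : Su P f) (l : ℕ) :
    Su P (Pool.Agent.Q80.EW.tr l f) := by
  intro n hn
  refine hf n fun h0 => hn ?_
  rw [tr_apply, h0]
  split_ifs <;> rfl

theorem Su.pk {P : ℕ → Prop} {f : ArithmeticFunction ℂ} (hf : Su P f) (l : ℕ) :
    Su P (Pool.Agent.Q80.EW.pk l f) := by
  intro n hn
  refine hf n fun h0 => hn ?_
  rw [pk_apply, h0]
  split_ifs <;> rfl

theorem Cl_smooth (Z : ℕ) : Cl (fun n => n ∈ Nat.smoothNumbers Z) :=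
  ⟨Nat.mem_smoothNumbers'.2 fun _ hp h => absurd (Nat.dvd_one.1 h) hp.ne_one,
    fun _ _ ha hb => Nat.mul_mem_smoothNumbers ha hb⟩

theorem Cl_rough (Z : ℕ) : Cl (fun n => ∀ p : ℕ, p.Prime → p ∣ n → Z ≤ p) := by
  refine ⟨fun p hp h => absurd (Nat.dvd_one.1 h) hp.ne_one, fun a b ha hb p hp h => ?_⟩
  rcases (Nat.Prime.dvd_mul hp).1 h with h | h
  · exact ha p hp h
  · exact hb p hp h

theorem Su_sm (Z : ℕ) : Su (fun n => n ∈ Nat.smoothNumbers Z) (sm Z) := by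
  intro n hn
  by_contra h
  apply hn
  show (if n ∈ Nat.smoothNumbers Z then (1 : ℂ) else 0) = 0
  rw [if_neg h]

theorem Su_ex {Z : ℕ} {w : ℕ → ℝ} (hw : Wt Z w) : Su (fun n => n ∈ Nat.smoothNumbers Z) (ex w) := by
  intro m hn
  by_contra hm
  apply hn
  rw [ex_apply]
  split_ifs with h1
  · rfl
  · have h2 : ∃ p, p.Prime ∧ p ∣ m ∧ Z ≤ p := by
      by_contra hcon
      push Not at hcon
      exact hm (Nat.mem_smoothNumbers'.2 fun p hp hpm => hcon p hp hpm)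
    obtain ⟨p, hp, hpm, hZp⟩ := h2
    have h3 : (m.factorization.prod fun p a => w p ^ a / (a.factorial : ℝ)) = 0 := by
      refine Finset.prod_eq_zero (i := p) ?_ ?_
      · rw [Nat.support_factorization]
        exact Nat.mem_primeFactors.2 ⟨hp, hpm, h1⟩
      · have h2 : m.factorization p ≠ 0 := by
          rw [← Nat.pos_iff_ne_zero]
          exact hp.factorization_pos_of_dvd h1 hpm
        change w p ^ m.factorization p / _ = 0
        rw [(hw p).2 hZp, zero_pow h2, zero_div]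
    rw [h3]
    simp

theorem Su_ro (Z X : ℕ) : Su (fun n => ∀ p : ℕ, p.Prime → p ∣ n → Z ≤ p) (ro Z X) := by
  classical
  intro n hn
  by_contra h
  apply hn
  rw [ro_apply, if_neg]
  rintro ⟨_, _, h3⟩
  exact h h3

theorem Su_GT {l s0 s1 Z : ℕ} {h : ℝ} {v v' : ℕ → ℝ} (hv : Wt Z v) (hv' : Wt Z v') :
    Su (fun n => n ∈ Nat.smoothNumbers Z) (GT l s0 s1 Z h v v') :=
  (((((Su_sm Z).tr l).pow (Cl_smooth Z) s0).mul (Cl_smooth Z)
    ((((Su_sm Z).tr l).sh h).pow (Cl_smooth Z) s1)).mul (Cl_smooth Z) ((Su_ex hv).tr l)).mul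
    (Cl_smooth Z) (((Su_ex hv').tr l).sh h)

theorem Su_RF (η T : ℝ) (s0 s1 : ℕ) (h : ℝ) :
    Su (fun n => ∀ p : ℕ, p.Prime → p ∣ n → zc (Yt T) ≤ p) (RF η T s0 s1 h) :=
  ((Su_ro _ _).pow (Cl_rough _) s0).mul (Cl_rough _) (((Su_ro _ _).sh h).pow (Cl_rough _) s1)

theorem FS_pow {X s : ℕ} (hs : s ≤ 1) (hX : 1 ≤ X) {f : ArithmeticFunction ℂ} (hf : FS X f) :
    FS X (f ^ s) := by
  interval_cases s
  · rw [pow_zero]
    exact FS_one.mono hX
  · rw [pow_one]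
    exact hf

theorem FS_pow' {X s : ℕ} {f : ArithmeticFunction ℂ} (hf : FS X f) : FS (X ^ s) (f ^ s) := by
  induction s with
  | zero => rw [pow_zero, pow_zero]; exact FS_one
  | succ s ih => rw [pow_succ, pow_succ]; exact FS_mul ih hf

theorem dp_one (t : ℝ) : dp 1 t = 1 := by
  rw [dp_eq FS_one]
  simp

theorem dp_pow {X : ℕ} {f : ArithmeticFunction ℂ} (hf : FS X f) (s : ℕ) (t : ℝ) :
    dp (f ^ s) t = dp f t ^ s := by
  induction s with
  | zero => rw [pow_zero, pow_zero]; exact dp_one t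
  | succ s ih =>
    rw [pow_succ, pow_succ, dp_mul (FS_pow' hf) hf, ih]

theorem FS_GT (hE : J_EXP) {l s0 s1 Z : ℕ} {h : ℝ} {v v' : ℕ → ℝ} (hs0 : s0 ≤ 1) (hs1 : s1 ≤ 1)
    (hZ : 1 ≤ Z) (hv : Wt Z v) (hv' : Wt Z v') :
    FS (Z ^ (4 * l)) (GT l s0 s1 Z h v v') := by
  have h1 := hE Z l v hZ hv
  have h2 := hE Z l v' hZ hv'
  have hZl : 1 ≤ Z ^ l := Nat.one_le_pow _ _ hZ
  have h3 := FS_mul (FS_mul (FS_mul (FS_pow hs0 hZl h1.2.2.1)
    (FS_pow hs1 hZl (FS_sh h h1.2.2.1))) h1.1) (FS_sh h h2.1)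
  have h4 : Z ^ l * Z ^ l * Z ^ l * Z ^ l = Z ^ (4 * l) := by
    rw [← pow_add, ← pow_add, ← pow_add]
    congr 1
    ring
  rw [h4] at h3
  exact h3

theorem dp_GT (hE : J_EXP) {l s0 s1 Z : ℕ} {h : ℝ} {v v' : ℕ → ℝ}
    (hZ : 1 ≤ Z) (hv : Wt Z v) (hv' : Wt Z v') (t : ℝ) :
    dp (GT l s0 s1 Z h v v') t = dp (tr l (sm Z)) t ^ s0 * dp (tr l (sm Z)) (t + h) ^ s1 *
      eT l (PV Z v t) * eT l (PV Z v' (t + h)) := by
  have h1 := hE Z l v hZ hv
  have h2 := hE Z l v' hZ hv'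
  have h3 := FS_pow' (s := s0) h1.2.2.1
  have h4 := FS_pow' (s := s1) (FS_sh h h1.2.2.1)
  unfold GT
  rw [dp_mul (FS_mul (FS_mul h3 h4) h1.1) (FS_sh h h2.1), dp_mul (FS_mul h3 h4) h1.1,
    dp_mul h3 h4, dp_pow h1.2.2.1, dp_pow (FS_sh h h1.2.2.1), dp_sh h1.2.2.1, dp_sh h2.1,
    (h1.2.2.2 t).1, (h2.2.2.2 (t + h)).1]

theorem FS_RF (η T : ℝ) {s0 s1 : ℕ} (h : ℝ) (hs0 : s0 ≤ 1) (hs1 : s1 ≤ 1) (hN : 1 ≤ Nt η T) :
    FS (Nt η T * Nt η T) (RF η T s0 s1 h) :=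
  FS_mul (FS_pow hs0 hN (FS_ro _ _)) (FS_pow hs1 hN (FS_sh h (FS_ro _ _)))

theorem dp_RF (η T : ℝ) {s0 s1 : ℕ} (h t : ℝ) :
    dp (RF η T s0 s1 h) t = dp (ro (zc (Yt T)) (Nt η T)) t ^ s0 *
      dp (ro (zc (Yt T)) (Nt η T)) (t + h) ^ s1 := by
  unfold RF
  rw [dp_mul (FS_pow' (FS_ro _ _)) (FS_pow' (FS_sh h (FS_ro _ _))), dp_pow (FS_ro _ _),
    dp_pow (FS_sh h (FS_ro _ _)), dp_sh (FS_ro _ _)]

end Pool.Agent.Q61.EW
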